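import Mathlib

/-!
Building a rainbow clique: if in every pair of large sets a positive proportion of pairs avoids any
palette of boundedly many row functions and column functions, then there are `n` points with
distinct mutual values.
-/

set_option autoImplicit false

namespace Pool.Agent.Lib.MP_ba5def_co

open Finset

open Classical in
/-- Every pair of large sets has many pairs which avoid a given palette. -/
def Hyp {X : Type} (V : Finset X) (c : X → X → ℝ) (s : ℕ) (ε M0 : ℝ) : Prop :=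
  ∀ A ⊆ V, ∀ B ⊆ V, M0 ≤ A.card → M0 ≤ B.card → ∀ a b : Fin s → X → ℝ,
    ε * (A.card * B.card) ≤ (((A ×ˢ B).filter (fun z : X × X =>
      (∀ i, c z.1 z.2 ≠ a i z.1) ∧ (∀ j, c z.1 z.2 ≠ b j z.2))).card : ℝ)

lemma enum_finset (S : Finset ℝ) (s : ℕ) (h : S.card ≤ s) :
    ∃ a : Fin s → ℝ, ∀ v ∈ S, ∃ t, a t = v := by
  refine ⟨fun t => S.toList.getD t 0, fun v hv => ?_⟩
  have hv' : v ∈ S.toList := Finset.mem_toList.2 hv
  obtain ⟨t, ht, rfl⟩ := List.getElem_of_mem hv'
  have hts : t < s := by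
    rw [Finset.length_toList] at ht; omega
  exact ⟨⟨t, hts⟩, List.getD_eq_getElem _ _ ht⟩

open Classical in
lemma exists_good {X : Type} {V : Finset X} {c : X → X → ℝ} {s : ℕ} {ε M0 : ℝ} (hε : 0 < ε)
    (hM0 : 1 ≤ M0) (H : Hyp V c s ε M0) {k m : ℕ} (hk : k ≤ s) (f : Fin k → X → ℝ)
    (A0 : Finset X) (hA0 : A0 ⊆ V)
    (B : Fin m → Finset X) (hB : ∀ i, B i ⊆ V) (hBc : ∀ i, M0 ≤ (B i).card)
    (hm : m * M0 < A0.card) :
    ∃ w ∈ A0, ∀ i, ∀ S : Finset ℝ, S.card ≤ s →
      ε / 2 * (B i).card ≤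
        (((B i).filter (fun x => c w x ∉ S ∧ ∀ a, c w x ≠ f a x)).card : ℝ) := by
  by_contra hcon
  push Not at hcon
  let bad : Fin m → X → Prop := fun i w => ∃ S : Finset ℝ, S.card ≤ s ∧
    (((B i).filter (fun x => c w x ∉ S ∧ ∀ a, c w x ≠ f a x)).card : ℝ) < ε / 2 * (B i).card
  have hsub : A0 ⊆ (Finset.univ : Finset (Fin m)).biUnion (fun i => A0.filter (bad i)) := by
    intro w hw
    obtain ⟨i, S, hS, h⟩ := hcon w hw
    exact Finset.mem_biUnion.2 ⟨i, Finset.mem_univ _, Finset.mem_filter.2 ⟨hw, S, hS, h⟩⟩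
  have hsum : (A0.card : ℝ) ≤ ∑ i : Fin m, ((A0.filter (bad i)).card : ℝ) := by
    have := (Finset.card_le_card hsub).trans Finset.card_biUnion_le
    exact_mod_cast this
  obtain ⟨i, hi⟩ : ∃ i, M0 ≤ ((A0.filter (bad i)).card : ℝ) := by
    by_contra hno
    push Not at hno
    have : (A0.card : ℝ) ≤ m * M0 := by
      refine hsum.trans ?_
      calc _ ≤ ∑ i : Fin m, M0 := Finset.sum_le_sum (fun i _ => (hno i).le)
        _ = m * M0 := by simp
    linarith
  have hex : ∀ w ∈ A0.filter (bad i), ∃ S : Finset ℝ, S.card ≤ s ∧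
    (((B i).filter (fun x => c w x ∉ S ∧ ∀ a, c w x ≠ f a x)).card : ℝ)
      < ε / 2 * (B i).card := fun w hw => (Finset.mem_filter.1 hw).2
  choose! S hS hbad using hex
  have hen : ∀ w ∈ A0.filter (bad i), ∃ a : Fin s → ℝ, ∀ v ∈ S w, ∃ t, a t = v :=
    fun w hw => enum_finset (S w) s (hS w hw)
  choose! a ha using hen
  have hH := H (A0.filter (bad i)) ((Finset.filter_subset _ _).trans hA0) (B i) (hB i) hi (hBc i)
    (fun t w => a w t) (fun t x => if h : (t : ℕ) < k then f ⟨t, h⟩ x else 0)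
  have hup : ((((A0.filter (bad i)) ×ˢ (B i)).filter (fun z : X × X =>
      (∀ t, c z.1 z.2 ≠ a z.1 t) ∧
      (∀ t : Fin s, c z.1 z.2 ≠ if h : (t : ℕ) < k then f ⟨t, h⟩ z.2 else 0))).card : ℝ)
      ≤ ∑ w ∈ A0.filter (bad i), ε / 2 * (B i).card := by
    have h1 : (((A0.filter (bad i)) ×ˢ (B i)).filter (fun z : X × X =>
      (∀ t, c z.1 z.2 ≠ a z.1 t) ∧
      (∀ t : Fin s, c z.1 z.2 ≠ if h : (t : ℕ) < k then f ⟨t, h⟩ z.2 else 0))).card
      ≤ ∑ w ∈ A0.filter (bad i),
        ((B i).filter (fun x => c w x ∉ S w ∧ ∀ a, c w x ≠ f a x)).card := by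
      rw [Finset.card_filter, Finset.sum_product]
      refine Finset.sum_le_sum (fun w hw => ?_)
      rw [← Finset.card_filter]
      refine Finset.card_le_card (fun x hx => ?_)
      rw [Finset.mem_filter] at hx ⊢
      refine ⟨hx.1, ?_, ?_⟩
      · intro hmem
        obtain ⟨t, ht⟩ := ha w hw _ hmem
        exact hx.2.1 t ht.symm
      · intro b hb
        have := hx.2.2 ⟨b, by omega⟩
        simp only [b.2, dif_pos] at this
        exact this hb
    calc _ ≤ ((∑ w ∈ A0.filter (bad i),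
        ((B i).filter (fun x => c w x ∉ S w ∧ ∀ a, c w x ≠ f a x)).card : ℕ) : ℝ) := by
          exact_mod_cast h1
      _ ≤ _ := by
        push_cast
        exact Finset.sum_le_sum (fun w hw => (hbad w hw).le)
  rw [Finset.sum_const, nsmul_eq_mul] at hup
  have h2 := hH.trans hup
  have h3 : (0 : ℝ) < (A0.filter (bad i)).card := by linarith
  have h4 : (0 : ℝ) < (B i).card := by linarith [hBc i]
  have h5 : 0 < ε * ((A0.filter (bad i)).card * (B i).card : ℝ) := by positivity
  nlinarith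

open Classical in
lemma heavy_matching {m : ℕ} (S0 : Finset ℝ) (heavy : Fin m → ℝ → Prop) :
    ∃ (Q : Finset (Fin m)) (r : Fin m → ℝ), (∀ i ∈ Q, heavy i (r i) ∧ r i ∉ S0) ∧
      (∀ i ∈ Q, ∀ j ∈ Q, r i = r j → i = j) ∧
      (∀ i, i ∉ Q → ∀ v, v ∉ S0 → v ∉ Q.image r → ¬ heavy i v) := by
  have key : ∀ P : Finset (Fin m), ∃ (Q : Finset (Fin m)) (r : Fin m → ℝ), Q ⊆ P ∧
      (∀ i ∈ Q, heavy i (r i) ∧ r i ∉ S0) ∧
      (∀ i ∈ Q, ∀ j ∈ Q, r i = r j → i = j) ∧
      (∀ i ∈ P, i ∉ Q → ∀ v, v ∉ S0 → v ∉ Q.image r → ¬ heavy i v) := by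
    intro P
    induction P using Finset.induction_on with
    | empty => exact ⟨∅, fun _ => 0, by simp, by simp, by simp, by simp⟩
    | insert i P hi ih =>
      obtain ⟨Q, r, hQ, h1, h2, h3⟩ := ih
      by_cases h : ∃ v, v ∉ S0 ∧ v ∉ Q.image r ∧ heavy i v
      · obtain ⟨v, hv1, hv2, hv3⟩ := h
        have hiQ : i ∉ Q := fun h => hi (hQ h)
        have hne : ∀ j ∈ Q, j ≠ i := fun j hj hji => hiQ (hji ▸ hj)
        have hup : ∀ j ∈ Q, Function.update r i v j = r j := fun j hj =>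
          Function.update_of_ne (hne j hj) _ _
        have hvQ : ∀ j ∈ Q, r j ≠ v := fun j hj hjv =>
          hv2 (Finset.mem_image.2 ⟨j, hj, hjv⟩)
        refine ⟨insert i Q, Function.update r i v, Finset.insert_subset_insert _ hQ, ?_, ?_, ?_⟩
        · intro j hj
          rcases Finset.mem_insert.1 hj with rfl | hj
          · rw [Function.update_self]; exact ⟨hv3, hv1⟩
          · rw [hup j hj]; exact h1 j hj
        · intro j hj l hl hjl
          rcases Finset.mem_insert.1 hj with hj1 | hj1 <;>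
            rcases Finset.mem_insert.1 hl with hl1 | hl1
          · rw [hj1, hl1]
          · rw [hj1, Function.update_self, hup l hl1] at hjl
            exact absurd hjl.symm (hvQ l hl1)
          · rw [hl1, Function.update_self, hup j hj1] at hjl
            exact absurd hjl (hvQ j hj1)
          · rw [hup j hj1, hup l hl1] at hjl
            exact h2 j hj1 l hl1 hjl
        · intro j hj hj' u hu hu'
          have hji : j ≠ i := fun h => hj' (h ▸ Finset.mem_insert_self _ _)
          have hjP : j ∈ P := (Finset.mem_insert.1 hj).resolve_left hji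
          have hjQ : j ∉ Q := fun h => hj' (Finset.mem_insert_of_mem h)
          refine h3 j hjP hjQ u hu ?_
          intro hmem
          obtain ⟨l, hl, rfl⟩ := Finset.mem_image.1 hmem
          exact hu' (Finset.mem_image.2 ⟨l, Finset.mem_insert_of_mem hl, hup l hl⟩)
      · push Not at h
        refine ⟨Q, r, hQ.trans (Finset.subset_insert _ _), h1, h2, ?_⟩
        intro j hj hj' v hv hv'
        rcases Finset.mem_insert.1 hj with rfl | hj
        · exact h v hv hv'
        · exact h3 j hj hj' v hv hv'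
  obtain ⟨Q, r, -, h1, h2, h3⟩ := key Finset.univ
  exact ⟨Q, r, h1, h2, fun i hi => h3 i (Finset.mem_univ _) hi⟩

open Classical in
/-- The state of the construction: `f a x` is the value between the `a`-th chosen point and `x`. -/
structure State {X : Type} (k m : ℕ) (f : Fin k → X → ℝ) (A : Fin m → Finset X)
    (D : Finset ℝ) (p q M0 : ℝ) : Prop where
  card : ∀ i, M0 ≤ q * (A i).card
  h1 : ∀ a i, ∀ x ∈ A i, f a x ∉ D
  h2 : ∀ a b i, ∀ x ∈ A i, f a x = f b x → a = b
  h3 : ∀ a i, (∀ v : ℝ, (((A i).filter (fun x => f a x = v)).card : ℝ) ≤ p * (A i).card) ∨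
     (∃ l, (∀ x ∈ A i, f a x = l) ∧ ∀ b j, ∀ y ∈ A j, f b y = l → b = a ∧ j = i)

open Classical in
/-- The set of points with a value of some `f a` in a small set `U` is small. -/
lemma small_exceptional {X : Type} {k : ℕ} (f : Fin k → X → ℝ) (A : Finset X) (U : Finset ℝ)
    (p : ℝ) (h : ∀ a, ∀ v ∈ U, ((A.filter (fun x => f a x = v)).card : ℝ) ≤ p * A.card) :
    ((A.filter (fun x => ∃ a, f a x ∈ U)).card : ℝ) ≤ k * U.card * (p * A.card) := by
  have hsub : A.filter (fun x => ∃ a, f a x ∈ U) ⊆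
      (Finset.univ : Finset (Fin k)).biUnion (fun a => U.biUnion
        (fun v => A.filter (fun x => f a x = v))) := by
    intro x hx
    obtain ⟨hxA, a, ha⟩ := Finset.mem_filter.1 hx
    exact Finset.mem_biUnion.2 ⟨a, Finset.mem_univ _, Finset.mem_biUnion.2
      ⟨f a x, ha, Finset.mem_filter.2 ⟨hxA, rfl⟩⟩⟩
  have h1 : (A.filter (fun x => ∃ a, f a x ∈ U)).card ≤
      ∑ a : Fin k, ∑ v ∈ U, (A.filter (fun x => f a x = v)).card := by
    refine (Finset.card_le_card hsub).trans (Finset.card_biUnion_le.trans ?_)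
    exact Finset.sum_le_sum (fun a _ => Finset.card_biUnion_le)
  calc ((A.filter (fun x => ∃ a, f a x ∈ U)).card : ℝ)
      ≤ ((∑ a : Fin k, ∑ v ∈ U, (A.filter (fun x => f a x = v)).card : ℕ) : ℝ) := by
        exact_mod_cast h1
    _ = ∑ a : Fin k, ∑ v ∈ U, ((A.filter (fun x => f a x = v)).card : ℝ) := by push_cast; rfl
    _ ≤ ∑ a : Fin k, ∑ v ∈ U, p * A.card :=
        Finset.sum_le_sum (fun a _ => Finset.sum_le_sum (fun v hv => h a v hv))
    _ = _ := by simp; ring

end Pool.Agent.Lib.MP_ba5def_co
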