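import Pool.Agent.Lib.MP_ba5def_co.Clique

/-!
The inductive step of the construction of a rainbow clique and the clique theorem.
-/

set_option autoImplicit false

namespace Pool.Agent.Lib.MP_ba5def_co

open Finset

open Classical in
lemma step {X : Type} {V : Finset X} {c : X → X → ℝ} {N k m C : ℕ} {δ M0 : ℝ}
    (hkm : k + (m + 1) ≤ N) (hδ : 0 < δ) (hδN : δ * (6 * (N : ℝ) ^ 3) ≤ 1) (hM0 : 1 ≤ M0)
    (H : Hyp V c (3 * N ^ 2) (2 * δ) M0)
    (f : Fin k → X → ℝ) (A : Fin (m + 1) → Finset X) (hA : ∀ i, A i ⊆ V) (D : Finset ℝ)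
    (hD : D.card ≤ k * k)
    (hst : State k (m + 1) f A D (δ ^ (2 * C + 4)) (δ ^ (2 * C + 4)) M0) :
    ∃ w ∈ A 0, ∃ A' : Fin m → Finset X, (∀ i, A' i ⊆ A i.succ) ∧
      State (k + 1) m (Fin.cons (c w) f) A' (D ∪ Finset.univ.image (fun a => f a w))
        (δ ^ C) (δ ^ C) M0 := by
  have hN1 : 1 ≤ N := by omega
  have hNr : (1 : ℝ) ≤ N := by exact_mod_cast hN1
  have hN3 : (1 : ℝ) ≤ (N : ℝ) ^ 3 := one_le_pow₀ hNr
  have hδ6 : δ ≤ 1 / 6 := by nlinarith
  have hδ1 : δ ≤ 1 := by linarith
  have hpow : ∀ j : ℕ, 0 < δ ^ j := fun j => pow_pos hδ j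
  have hpow1 : ∀ j : ℕ, δ ^ j ≤ 1 := fun j => pow_le_one₀ hδ.le hδ1
  obtain ⟨p, hp⟩ : ∃ p, p = δ ^ (2 * C + 4) := ⟨_, rfl⟩
  obtain ⟨pn, hpn⟩ : ∃ pn, pn = δ ^ C := ⟨_, rfl⟩
  obtain ⟨ph, hph⟩ : ∃ ph, ph = δ ^ (C + 2) := ⟨_, rfl⟩
  rw [← hp] at hst
  rw [← hpn]
  have hp0 : 0 < p := hp ▸ hpow _
  have hpn0 : 0 < pn := hpn ▸ hpow _
  have hph0 : 0 < ph := hph ▸ hpow _
  have hpn1 : pn ≤ 1 := hpn ▸ hpow1 _
  have hph1 : ph ≤ 1 := hph ▸ hpow1 _
  have e1 : ph = pn * δ * δ := by rw [hph, hpn]; ring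
  have e2 : p = ph * ph := by rw [hp, hph]; ring
  have hphδ : ph ≤ δ := by
    rw [e1]
    have : pn * δ ≤ 1 := by nlinarith
    nlinarith
  have hphδ2 : ph ≤ δ ^ 2 := by
    rw [e1]
    nlinarith [mul_pos hδ hδ]
  have F1 : 3 * (N : ℝ) ^ 3 * p ≤ ph / 2 := by
    have h1 : 3 * (N : ℝ) ^ 3 * ph ≤ 1 / 2 := by
      have : 3 * (N : ℝ) ^ 3 * ph ≤ 3 * (N : ℝ) ^ 3 * δ :=
        mul_le_mul_of_nonneg_left hphδ (by positivity)
      linarith
    rw [e2]
    nlinarith
  have F3 : p ≤ pn * (ph / 2) := by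
    rw [e2]
    have : ph ≤ pn / 2 := by
      rw [e1]
      nlinarith [mul_pos hpn0 hδ]
    nlinarith
  have F4 : ph ≤ pn * (δ / 2) := by
    rw [e1]
    nlinarith [mul_pos hpn0 hδ]
  have F6 : (m : ℝ) * p < 1 := by
    have h1 : (m : ℝ) ≤ 3 * (N : ℝ) ^ 3 := by
      have : (m : ℝ) ≤ N := by exact_mod_cast (by omega : m ≤ N)
      have h2 : (N : ℝ) ≤ (N : ℝ) ^ 3 := le_self_pow₀ hNr (by norm_num)
      nlinarith
    have h2 : (m : ℝ) * p ≤ 3 * (N : ℝ) ^ 3 * p := mul_le_mul_of_nonneg_right h1 hp0.le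
    linarith
  have hAc : ∀ i, (0 : ℝ) < (A i).card := by
    intro i
    have := hst.card i
    by_contra h
    have h0 : ((A i).card : ℝ) = 0 := le_antisymm (not_lt.1 h) (Nat.cast_nonneg _)
    rw [h0] at this
    linarith
  have hMA : ∀ i, M0 ≤ (A i).card := by
    intro i
    refine (hst.card i).trans ?_
    have hp1 : p ≤ 1 := hp ▸ hpow1 _
    have := hAc i
    nlinarith
  -- choice of the new point
  obtain ⟨w, hw, hgood⟩ := exists_good (m := m) (by linarith : (0 : ℝ) < 2 * δ) hM0 H
    (show k ≤ 3 * N ^ 2 by nlinarith) f (A 0) (hA 0) (fun i => A i.succ)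
    (fun i => hA _) (fun i => hMA _) (by
      have h1 := hst.card 0
      have h2 := hAc 0
      calc (m : ℝ) * M0 ≤ m * (p * (A 0).card) :=
            mul_le_mul_of_nonneg_left h1 (Nat.cast_nonneg _)
        _ = (m * p) * (A 0).card := by ring
        _ < 1 * (A 0).card := mul_lt_mul_of_pos_right F6 h2
        _ = _ := one_mul _)
  have hrep : ∀ i, ∃ x, x ∈ A i := by
    intro i
    have := hAc i
    have h : 0 < (A i).card := by exact_mod_cast this
    exact Finset.card_pos.1 h
  choose rep hrep using hrep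
  set D' : Finset ℝ := D ∪ Finset.univ.image (fun a => f a w) with hD'
  set Lam : Finset ℝ := (Finset.univ : Finset (Fin k × Fin m)).image
    (fun ai => f ai.1 (rep ai.2.succ)) with hLam
  have hD'c : D'.card ≤ k * k + k := by
    refine (Finset.card_union_le _ _).trans ?_
    have : (Finset.univ.image (fun a => f a w)).card ≤ k :=
      Finset.card_image_le.trans (by simp)
    omega
  have hLamc : Lam.card ≤ k * m := Finset.card_image_le.trans (by simp)
  obtain ⟨Q, r, hQ1, hQ2, hQ3⟩ := heavy_matching (D' ∪ Lam)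
    (fun (i : Fin m) v => ph * ((A i.succ).card : ℝ) ≤
      (((A i.succ).filter (fun x => c w x = v ∧ ∀ a, c w x ≠ f a x)).card : ℝ))
  have hrQc : (Q.image r).card ≤ m :=
    Finset.card_image_le.trans ((Finset.card_le_univ _).trans (by simp))
  set U : Finset ℝ := D' ∪ Q.image r with hU
  have hUc : U.card ≤ 3 * N ^ 2 := by
    have h1 : U.card ≤ (k * k + k) + m := (Finset.card_union_le _ _).trans (by omega)
    have h2 : k * k ≤ N * N := Nat.mul_le_mul (by omega) (by omega)
    have h3 : N ≤ N * N := Nat.le_mul_self N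
    nlinarith
  have hSc : (D' ∪ Lam ∪ Q.image r).card ≤ 3 * N ^ 2 := by
    have h1 : (D' ∪ Lam ∪ Q.image r).card ≤ (k * k + k) + k * m + m :=
      (Finset.card_union_le _ _).trans (by
        have := Finset.card_union_le D' Lam
        omega)
    have h2 : k * k ≤ N * N := Nat.mul_le_mul (by omega) (by omega)
    have h4 : k * m ≤ N * N := Nat.mul_le_mul (by omega) (by omega)
    have h3 : N ≤ N * N := Nat.le_mul_self N
    nlinarith
  -- the exceptional sets are small
  have hE : ∀ i : Fin m, (((A i.succ).filter (fun x => ∃ a, f a x ∈ U)).card : ℝ)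
      ≤ 3 * (N : ℝ) ^ 3 * p * (A i.succ).card := by
    intro i
    have h1 := small_exceptional f (A i.succ) U p (by
      intro a v hv
      rcases hst.h3 a i.succ with h | ⟨l, hl, hl'⟩
      · exact h v
      · have hne : v ≠ l := by
          rintro rfl
          have hlr := hl _ (hrep i.succ)
          rcases Finset.mem_union.1 hv with hv | hv
          · rcases Finset.mem_union.1 hv with hv | hv
            · exact hst.h1 a i.succ _ (hrep i.succ) (hlr ▸ hv)
            · obtain ⟨b, -, hb⟩ := Finset.mem_image.1 hv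
              have := (hl' b 0 w hw hb).2
              exact Fin.succ_ne_zero i this.symm
          · obtain ⟨j, hj, hj'⟩ := Finset.mem_image.1 hv
            refine (hQ1 j hj).2 ?_
            rw [hj', ← hlr]
            exact Finset.mem_union_right _
              (Finset.mem_image.2 ⟨(a, i), Finset.mem_univ _, rfl⟩)
        have h0 : (A i.succ).filter (fun x => f a x = v) = ∅ := by
          refine Finset.filter_eq_empty_iff.2 (fun x hx hxv => hne ?_)
          rw [← hxv]; exact hl x hx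
        rw [h0]
        simp only [Finset.card_empty, Nat.cast_zero]
        exact (mul_pos hp0 (hAc _)).le)
    refine h1.trans ?_
    have hk : (k : ℝ) ≤ N := by exact_mod_cast (by omega : k ≤ N)
    have hUr : (U.card : ℝ) ≤ 3 * (N : ℝ) ^ 2 := by exact_mod_cast hUc
    calc (k : ℝ) * U.card * (p * (A i.succ).card)
        ≤ N * (3 * (N : ℝ) ^ 2) * (p * (A i.succ).card) := by
          refine mul_le_mul_of_nonneg_right ?_ (mul_pos hp0 (hAc _)).le
          exact mul_le_mul hk hUr (Nat.cast_nonneg _) (Nat.cast_nonneg _)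
      _ = _ := by ring
  -- the new sets
  let A' : Fin m → Finset X := fun i => (A i.succ).filter (fun x =>
    ((∀ a, c w x ≠ f a x) ∧ (if i ∈ Q then c w x = r i else c w x ∉ D' ∪ Lam ∪ Q.image r))
      ∧ ¬ ∃ a, f a x ∈ U)
  have hA'mem : ∀ i x, x ∈ A' i → x ∈ A i.succ ∧ (∀ a, c w x ≠ f a x) ∧ (∀ a, f a x ∉ U) := by
    intro i x hx
    obtain ⟨h1, ⟨h2, -⟩, h3⟩ := Finset.mem_filter.1 hx
    push Not at h3
    exact ⟨h1, h2, h3⟩
  have hA'Q : ∀ i ∈ Q, ∀ x ∈ A' i, c w x = r i := by
    intro i hi x hx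
    obtain ⟨h1, ⟨-, h2⟩, h3⟩ := Finset.mem_filter.1 hx
    rw [if_pos hi] at h2
    exact h2
  have hA'nQ : ∀ i, i ∉ Q → ∀ x ∈ A' i, c w x ∉ D' ∪ Lam ∪ Q.image r := by
    intro i hi x hx
    obtain ⟨h1, ⟨-, h2⟩, h3⟩ := Finset.mem_filter.1 hx
    rw [if_neg hi] at h2
    exact h2
  have hsplit : ∀ i : Fin m, (((A i.succ).filter (fun x =>
      (∀ a, c w x ≠ f a x) ∧
        (if i ∈ Q then c w x = r i else c w x ∉ D' ∪ Lam ∪ Q.image r))).card : ℝ)
      ≤ (A' i).card + 3 * (N : ℝ) ^ 3 * p * (A i.succ).card := by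
    intro i
    have h1 : (A i.succ).filter (fun x =>
      (∀ a, c w x ≠ f a x) ∧
        (if i ∈ Q then c w x = r i else c w x ∉ D' ∪ Lam ∪ Q.image r))
        ⊆ A' i ∪ (A i.succ).filter (fun x => ∃ a, f a x ∈ U) := by
      intro x hx
      obtain ⟨hx1, hx2⟩ := Finset.mem_filter.1 hx
      by_cases hxU : ∃ a, f a x ∈ U
      · exact Finset.mem_union_right _ (Finset.mem_filter.2 ⟨hx1, hxU⟩)
      · exact Finset.mem_union_left _ (Finset.mem_filter.2 ⟨hx1, hx2, hxU⟩)
    have h2 := (Finset.card_le_card h1).trans (Finset.card_union_le _ _)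
    have h3 : (((A i.succ).filter (fun x =>
      (∀ a, c w x ≠ f a x) ∧
        (if i ∈ Q then c w x = r i else c w x ∉ D' ∪ Lam ∪ Q.image r))).card : ℝ)
      ≤ (A' i).card + ((A i.succ).filter (fun x => ∃ a, f a x ∈ U)).card := by
      exact_mod_cast h2
    linarith [hE i]
  have hsizeQ : ∀ i ∈ Q, ph / 2 * (A i.succ).card ≤ (A' i).card := by
    intro i hi
    have h1 := (hQ1 i hi).1
    have h2 := hsplit i
    have h3 : (A i.succ).filter (fun x => c w x = r i ∧ ∀ a, c w x ≠ f a x) ⊆
        (A i.succ).filter (fun x => (∀ a, c w x ≠ f a x) ∧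
        (if i ∈ Q then c w x = r i else c w x ∉ D' ∪ Lam ∪ Q.image r)) := by
      intro x hx
      obtain ⟨hx1, hx2, hx3⟩ := Finset.mem_filter.1 hx
      refine Finset.mem_filter.2 ⟨hx1, hx3, ?_⟩
      rw [if_pos hi]; exact hx2
    have h4 : (((A i.succ).filter (fun x => c w x = r i ∧ ∀ a, c w x ≠ f a x)).card : ℝ) ≤
        (((A i.succ).filter (fun x => (∀ a, c w x ≠ f a x) ∧
        (if i ∈ Q then c w x = r i else c w x ∉ D' ∪ Lam ∪ Q.image r))).card : ℝ) := by
      exact_mod_cast Finset.card_le_card h3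
    have h5 : 3 * (N : ℝ) ^ 3 * p * (A i.succ).card ≤ ph / 2 * (A i.succ).card :=
      mul_le_mul_of_nonneg_right F1 (hAc _).le
    linarith
  have hsizenQ : ∀ i, i ∉ Q → δ / 2 * (A i.succ).card ≤ (A' i).card := by
    intro i hi
    have h1 := hgood i (D' ∪ Lam ∪ Q.image r) hSc
    have h2 := hsplit i
    have h3 : (A i.succ).filter (fun x => c w x ∉ D' ∪ Lam ∪ Q.image r ∧
        ∀ a, c w x ≠ f a x) ⊆
        (A i.succ).filter (fun x => (∀ a, c w x ≠ f a x) ∧
        (if i ∈ Q then c w x = r i else c w x ∉ D' ∪ Lam ∪ Q.image r)) := by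
      intro x hx
      obtain ⟨hx1, hx2, hx3⟩ := Finset.mem_filter.1 hx
      refine Finset.mem_filter.2 ⟨hx1, hx3, ?_⟩
      rw [if_neg hi]; exact hx2
    have h4 : (((A i.succ).filter (fun x => c w x ∉ D' ∪ Lam ∪ Q.image r ∧
        ∀ a, c w x ≠ f a x)).card : ℝ) ≤
        (((A i.succ).filter (fun x => (∀ a, c w x ≠ f a x) ∧
        (if i ∈ Q then c w x = r i else c w x ∉ D' ∪ Lam ∪ Q.image r))).card : ℝ) := by
      exact_mod_cast Finset.card_le_card h3
    have h5 : 3 * (N : ℝ) ^ 3 * p * (A i.succ).card ≤ δ / 2 * (A i.succ).card :=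
      mul_le_mul_of_nonneg_right (by linarith) (hAc _).le
    have h6 : 2 * δ / 2 * ((A i.succ).card : ℝ) = δ * (A i.succ).card := by ring
    linarith
  have hsize : ∀ i, ph / 2 * (A i.succ).card ≤ (A' i).card := by
    intro i
    by_cases hi : i ∈ Q
    · exact hsizeQ i hi
    · refine le_trans ?_ (hsizenQ i hi)
      exact mul_le_mul_of_nonneg_right (by linarith) (hAc _).le
  refine ⟨w, hw, A', fun i => Finset.filter_subset _ _, ?_, ?_, ?_, ?_⟩
  · -- sizes
    intro i
    calc M0 ≤ p * (A i.succ).card := hst.card _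
      _ ≤ pn * (ph / 2) * (A i.succ).card := mul_le_mul_of_nonneg_right F3 (hAc _).le
      _ = pn * (ph / 2 * (A i.succ).card) := by ring
      _ ≤ pn * (A' i).card := mul_le_mul_of_nonneg_left (hsize i) hpn0.le
  · -- avoiding D'
    intro a i x hx
    obtain ⟨hx1, hx2, hx3⟩ := hA'mem i x hx
    refine Fin.cases ?_ (fun a => ?_) a
    · rw [Fin.cons_zero]
      by_cases hi : i ∈ Q
      · rw [hA'Q i hi x hx]
        exact fun h => (hQ1 i hi).2 (Finset.mem_union_left _ h)
      · intro h
        exact hA'nQ i hi x hx (Finset.mem_union_left _ (Finset.mem_union_left _ h))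
    · rw [Fin.cons_succ]
      exact fun h => hx3 a (Finset.mem_union_left _ h)
  · -- distinctness at a point
    intro a b i x hx
    obtain ⟨hx1, hx2, hx3⟩ := hA'mem i x hx
    refine Fin.cases ?_ (fun a => ?_) a <;> refine Fin.cases ?_ (fun b => ?_) b
    · intro _; rfl
    · rw [Fin.cons_zero, Fin.cons_succ]
      exact fun h => absurd h (hx2 b)
    · rw [Fin.cons_zero, Fin.cons_succ]
      exact fun h => absurd h.symm (hx2 a)
    · rw [Fin.cons_succ, Fin.cons_succ]
      intro h
      rw [hst.h2 a b i.succ x hx1 h]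
  · -- constant or spread
    intro a i
    refine Fin.cases ?_ (fun a => ?_) a
    · simp only [Fin.cons_zero]
      by_cases hi : i ∈ Q
      · right
        refine ⟨r i, hA'Q i hi, ?_⟩
        intro b j y hy
        refine Fin.cases ?_ (fun b => ?_) b
        · rw [Fin.cons_zero]
          intro h
          refine ⟨rfl, ?_⟩
          by_cases hj : j ∈ Q
          · rw [hA'Q j hj y hy] at h
            exact hQ2 j hj i hi h
          · exfalso
            refine hA'nQ j hj y hy (Finset.mem_union_right _ ?_)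
            rw [h]
            exact Finset.mem_image_of_mem _ hi
        · rw [Fin.cons_succ]
          intro h
          exfalso
          refine (hA'mem j y hy).2.2 b (Finset.mem_union_right _ ?_)
          rw [h]
          exact Finset.mem_image_of_mem _ hi
      · left
        intro v
        by_cases hv : v ∈ D' ∪ Lam ∪ Q.image r
        · have h0 : (A' i).filter (fun x => c w x = v) = ∅ := by
            refine Finset.filter_eq_empty_iff.2 (fun x hx hxv => ?_)
            exact hA'nQ i hi x hx (hxv ▸ hv)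
          rw [h0]
          simp only [Finset.card_empty, Nat.cast_zero]
          positivity
        · have hv1 : v ∉ D' ∪ Lam := fun h => hv (Finset.mem_union_left _ h)
          have hv2 : v ∉ Q.image r := fun h => hv (Finset.mem_union_right _ h)
          have h1 := hQ3 i hi v hv1 hv2
          simp only [not_le] at h1
          have h2 : (A' i).filter (fun x => c w x = v) ⊆
              (A i.succ).filter (fun x => c w x = v ∧ ∀ a, c w x ≠ f a x) := by
            intro x hx
            obtain ⟨hx1, hx2⟩ := Finset.mem_filter.1 hx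
            obtain ⟨hx3, hx4, -⟩ := hA'mem i x hx1
            exact Finset.mem_filter.2 ⟨hx3, hx2, hx4⟩
          have h3 : (((A' i).filter (fun x => c w x = v)).card : ℝ) ≤
              (((A i.succ).filter (fun x => c w x = v ∧ ∀ a, c w x ≠ f a x)).card : ℝ) := by
            exact_mod_cast Finset.card_le_card h2
          calc (((A' i).filter (fun x => c w x = v)).card : ℝ)
              ≤ ph * (A i.succ).card := h3.trans h1.le
            _ ≤ pn * (δ / 2) * (A i.succ).card := mul_le_mul_of_nonneg_right F4 (hAc _).le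
            _ = pn * (δ / 2 * (A i.succ).card) := by ring
            _ ≤ pn * (A' i).card := mul_le_mul_of_nonneg_left (hsizenQ i hi) hpn0.le
    · simp only [Fin.cons_succ]
      rcases hst.h3 a i.succ with h | ⟨l, hl, hl'⟩
      · left
        intro v
        have h2 : (A' i).filter (fun x => f a x = v) ⊆
            (A i.succ).filter (fun x => f a x = v) := by
          intro x hx
          obtain ⟨hx1, hx2⟩ := Finset.mem_filter.1 hx
          exact Finset.mem_filter.2 ⟨(hA'mem i x hx1).1, hx2⟩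
        have h3 : (((A' i).filter (fun x => f a x = v)).card : ℝ) ≤
            (((A i.succ).filter (fun x => f a x = v)).card : ℝ) := by
          exact_mod_cast Finset.card_le_card h2
        calc (((A' i).filter (fun x => f a x = v)).card : ℝ)
            ≤ p * (A i.succ).card := h3.trans (h v)
          _ ≤ pn * (ph / 2) * (A i.succ).card := mul_le_mul_of_nonneg_right F3 (hAc _).le
          _ = pn * (ph / 2 * (A i.succ).card) := by ring
          _ ≤ pn * (A' i).card := mul_le_mul_of_nonneg_left (hsize i) hpn0.le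
      · right
        have hlr := hl _ (hrep i.succ)
        have hlLam : l ∈ Lam := by
          rw [← hlr]
          exact Finset.mem_image.2 ⟨(a, i), Finset.mem_univ _, rfl⟩
        refine ⟨l, fun x hx => hl x (hA'mem i x hx).1, ?_⟩
        intro b j y hy
        obtain ⟨hy1, -, -⟩ := hA'mem j y hy
        refine Fin.cases ?_ (fun b => ?_) b
        · rw [Fin.cons_zero]
          intro h
          exfalso
          by_cases hj : j ∈ Q
          · rw [hA'Q j hj y hy] at h
            exact (hQ1 j hj).2 (Finset.mem_union_right _ (h ▸ hlLam))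
          · refine hA'nQ j hj y hy (Finset.mem_union_left _ (Finset.mem_union_right _ ?_))
            rw [h]; exact hlLam
        · rw [Fin.cons_succ]
          intro h
          obtain ⟨h1, h2⟩ := hl' b j.succ y hy1 h
          exact ⟨by rw [h1], Fin.succ_injective _ h2⟩

/-- All values are distinct. -/
structure Rainbow {X : Type} (c : X → X → ℝ) (k m : ℕ) (f : Fin k → X → ℝ) (w : Fin m → X)
    (D : Finset ℝ) : Prop where
  r0 : ∀ a i, f a (w i) ∉ D
  r1 : ∀ a i b j, f a (w i) = f b (w j) → a = b ∧ i = j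
  r2 : ∀ i j, i < j → c (w i) (w j) ∉ D
  r3 : ∀ i j, i < j → ∀ a l, c (w i) (w j) ≠ f a (w l)
  r4 : ∀ i j i' j', i < j → i' < j' → c (w i) (w j) = c (w i') (w j') → i = i' ∧ j = j'

open Classical in
lemma rainbow_step {X : Type} {c : X → X → ℝ} {k m : ℕ} {f : Fin k → X → ℝ} {D : Finset ℝ}
    {w0 : X} {w : Fin m → X} (h0 : ∀ a, f a w0 ∉ D) (h0' : ∀ a b, f a w0 = f b w0 → a = b)
    (h : Rainbow c (k + 1) m (Fin.cons (c w0) f) w
      (D ∪ Finset.univ.image (fun a => f a w0))) :
    Rainbow c k (m + 1) f (Fin.cons w0 w) D := by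
  have hg0 : ∀ i, c w0 (w i) ∉ D ∪ Finset.univ.image (fun a => f a w0) := fun i => by
    have := h.r0 0 i
    rwa [Fin.cons_zero] at this
  have hf0 : ∀ a i, f a (w i) ∉ D ∪ Finset.univ.image (fun a => f a w0) := fun a i => by
    have := h.r0 a.succ i
    rwa [Fin.cons_succ] at this
  have him : ∀ a, f a w0 ∈ D ∪ Finset.univ.image (fun a => f a w0) := fun a =>
    Finset.mem_union_right _ (Finset.mem_image_of_mem _ (Finset.mem_univ _))
  refine ⟨?_, ?_, ?_, ?_, ?_⟩
  · intro a i
    refine Fin.cases ?_ (fun i => ?_) i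
    · rw [Fin.cons_zero]; exact h0 a
    · rw [Fin.cons_succ]
      exact fun h' => hf0 a i (Finset.mem_union_left _ h')
  · intro a i b j
    refine Fin.cases ?_ (fun i => ?_) i <;> refine Fin.cases ?_ (fun j => ?_) j
    · rw [Fin.cons_zero]
      exact fun h' => ⟨h0' a b h', rfl⟩
    · rw [Fin.cons_zero, Fin.cons_succ]
      intro h'
      exact absurd (h' ▸ him a) (hf0 b j)
    · rw [Fin.cons_zero, Fin.cons_succ]
      intro h'
      exact absurd (h' ▸ him b) (hf0 a i)
    · rw [Fin.cons_succ, Fin.cons_succ]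
      intro h'
      have := h.r1 a.succ i b.succ j (by rw [Fin.cons_succ, Fin.cons_succ]; exact h')
      exact ⟨Fin.succ_injective _ this.1, by rw [this.2]⟩
  · intro i j
    refine Fin.cases ?_ (fun i => ?_) i <;> refine Fin.cases ?_ (fun j => ?_) j
    · intro h'; exact absurd h' (lt_irrefl _)
    · intro _
      rw [Fin.cons_zero, Fin.cons_succ]
      exact fun h' => hg0 j (Finset.mem_union_left _ h')
    · intro h'; exact absurd h' (Fin.not_lt_zero _)
    · intro h'
      rw [Fin.cons_succ, Fin.cons_succ]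
      exact fun h'' => h.r2 i j (Fin.succ_lt_succ_iff.1 h') (Finset.mem_union_left _ h'')
  · intro i j
    refine Fin.cases ?_ (fun i => ?_) i <;> refine Fin.cases ?_ (fun j => ?_) j
    · intro h'; exact absurd h' (lt_irrefl _)
    · intro _ a l
      rw [Fin.cons_zero, Fin.cons_succ]
      refine Fin.cases ?_ (fun l => ?_) l
      · rw [Fin.cons_zero]
        exact fun h' => hg0 j (h' ▸ him a)
      · rw [Fin.cons_succ]
        intro h'
        have := h.r1 0 j a.succ l (by rw [Fin.cons_succ, Fin.cons_zero]; exact h')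
        exact Fin.succ_ne_zero a this.1.symm
    · intro h'; exact absurd h' (Fin.not_lt_zero _)
    · intro h' a l
      have hij := Fin.succ_lt_succ_iff.1 h'
      rw [Fin.cons_succ, Fin.cons_succ]
      refine Fin.cases ?_ (fun l => ?_) l
      · rw [Fin.cons_zero]
        exact fun h'' => h.r2 i j hij (h'' ▸ him a)
      · rw [Fin.cons_succ]
        intro h''
        exact h.r3 i j hij a.succ l (by rw [Fin.cons_succ]; exact h'')
  · intro i j i' j'
    refine Fin.cases ?_ (fun j => ?_) j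
    · intro h'; exact absurd h' (Fin.not_lt_zero _)
    refine Fin.cases ?_ (fun j' => ?_) j'
    · intro _ h'; exact absurd h' (Fin.not_lt_zero _)
    refine Fin.cases ?_ (fun i => ?_) i <;> refine Fin.cases ?_ (fun i' => ?_) i'
    · intro _ _
      rw [Fin.cons_zero, Fin.cons_succ, Fin.cons_succ]
      intro h'
      have := h.r1 0 j 0 j' (by rw [Fin.cons_zero]; exact h')
      exact ⟨rfl, by rw [this.2]⟩
    · intro _ h2
      have hij := Fin.succ_lt_succ_iff.1 h2
      rw [Fin.cons_zero, Fin.cons_succ, Fin.cons_succ, Fin.cons_succ]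
      intro h'
      exact absurd h'.symm (by
        have := h.r3 i' j' hij 0 j
        rwa [Fin.cons_zero] at this)
    · intro h2 _
      have hij := Fin.succ_lt_succ_iff.1 h2
      rw [Fin.cons_zero, Fin.cons_succ, Fin.cons_succ, Fin.cons_succ]
      intro h'
      exact absurd h' (by
        have := h.r3 i j hij 0 j'
        rwa [Fin.cons_zero] at this)
    · intro h1 h2
      rw [Fin.cons_succ, Fin.cons_succ, Fin.cons_succ, Fin.cons_succ]
      intro h'
      have := h.r4 i j i' j' (Fin.succ_lt_succ_iff.1 h1) (Fin.succ_lt_succ_iff.1 h2) h'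
      exact ⟨by rw [this.1], by rw [this.2]⟩

open Classical in
theorem clique_aux (N m : ℕ) : ∃ C : ℕ, ∀ (X : Type) (V : Finset X) (c : X → X → ℝ) (δ M0 : ℝ),
    0 < δ → δ * (6 * (N : ℝ) ^ 3) ≤ 1 → 1 ≤ M0 → Hyp V c (3 * N ^ 2) (2 * δ) M0 →
    ∀ (k : ℕ), k + m ≤ N → ∀ (f : Fin k → X → ℝ) (A : Fin m → Finset X), (∀ i, A i ⊆ V) →
    ∀ D : Finset ℝ, D.card ≤ k * k → State k m f A D (δ ^ C) (δ ^ C) M0 →
    ∃ w : Fin m → X, (∀ i, w i ∈ A i) ∧ Rainbow c k m f w D := by
  induction m with
  | zero =>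
    refine ⟨0, ?_⟩
    intro X V c δ M0 _ _ _ _ k _ f A _ D _ _
    exact ⟨fun i => i.elim0, fun i => i.elim0, ⟨fun _ i => i.elim0, fun _ i => i.elim0,
      fun i => i.elim0, fun i => i.elim0, fun i => i.elim0⟩⟩
  | succ m ih =>
    obtain ⟨C, hC⟩ := ih
    refine ⟨2 * C + 4, ?_⟩
    intro X V c δ M0 hδ hδN hM0 H k hk f A hA D hD hst
    obtain ⟨w0, hw0, A', hA', hst'⟩ := step hk hδ hδN hM0 H f A hA D hD hst
    obtain ⟨w, hw, hR⟩ := hC X V c δ M0 hδ hδN hM0 H (k + 1) (by omega) _ A'
      (fun i => (hA' i).trans (hA _)) _ (by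
        refine (Finset.card_union_le _ _).trans ?_
        have : (Finset.univ.image (fun a => f a w0)).card ≤ k :=
          Finset.card_image_le.trans (by simp)
        nlinarith) hst'
    refine ⟨Fin.cons w0 w, ?_, rainbow_step (fun a => hst.h1 a 0 w0 hw0)
      (fun a b => hst.h2 a b 0 w0 hw0) hR⟩
    intro i
    refine Fin.cases ?_ (fun i => ?_) i
    · rw [Fin.cons_zero]; exact hw0
    · rw [Fin.cons_succ]; exact hA' i (hw i)

/-- The clique theorem. -/
theorem clique (n : ℕ) : ∃ C : ℕ, ∀ (X : Type) (V : Finset X) (c : X → X → ℝ) (δ M0 : ℝ),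
    0 < δ → δ * (6 * (n : ℝ) ^ 3) ≤ 1 → 1 ≤ M0 → Hyp V c (3 * n ^ 2) (2 * δ) M0 →
    M0 ≤ δ ^ C * V.card →
    ∃ w : Fin n → X, (∀ i, w i ∈ V) ∧
      ∀ i j i' j', i < j → i' < j' → c (w i) (w j) = c (w i') (w j') → i = i' ∧ j = j' := by
  obtain ⟨C, hC⟩ := clique_aux n n
  refine ⟨C, fun X V c δ M0 hδ hδN hM0 H hV => ?_⟩
  obtain ⟨w, hw, hR⟩ := hC X V c δ M0 hδ hδN hM0 H 0 (by omega) (fun i => i.elim0)
    (fun _ => V) (fun _ => subset_rfl) ∅ (by simp)
    ⟨fun _ => hV, fun a => a.elim0, fun a => a.elim0, fun a => a.elim0⟩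
  exact ⟨w, hw, hR.r4⟩

end Pool.Agent.Lib.MP_ba5def_co
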