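import Pool.Agent.Lib.MP_ba5def_co.Tilt2

/-!
Core induction: a matrix of small rank whose entries take, up to a tiny exceptional set, values in
a bounded ordered family of normalisable functions has a large rectangle on which one of these
functions is attained exactly.
-/

set_option autoImplicit false

namespace Pool.Agent.Lib.MP_ba5def_co

open Finset

section defs

variable {α β : Type}

/-- A system of value functions `T 0 ≤ T 1 ≤ ... ≤ T (n-1)` for the matrix `M`. -/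
structure Sys (L R n : ℕ) (M : α → β → ℝ) (T : ℕ → α → β → ℝ) : Prop where
  mono : ∀ i j, i ≤ j → j < n → ∀ x y, T i x y ≤ T j x y
  rank : ∀ i, i < n → HasRank R (fun x y => M x y - T i x y)
  norm : ∀ i j, i < j → j < n → ∃ N : α → β → ℝ, HasRank R N ∧
    (∀ x y, T i x y ≤ M x y → -(1 / (L : ℝ)) ≤ N x y) ∧
    (∀ x y, M x y = T i x y → N x y ≤ 0) ∧
    (∀ x y, M x y = T j x y → T i x y < T j x y → 1 ≤ N x y) ∧
    (∀ x y, T i x y ≤ M x y → M x y ≤ T j x y → N x y ≤ L + 1)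

/-- The entry `(x,y)` has type `i`. -/
def Ty (M : α → β → ℝ) (T : ℕ → α → β → ℝ) (i : ℕ) (x : α) (y : β) : Prop :=
  M x y = T i x y ∧ ∀ k < i, M x y ≠ T k x y

/-- Type smaller than `j`. -/
def Low (M : α → β → ℝ) (T : ℕ → α → β → ℝ) (j : ℕ) (x : α) (y : β) : Prop :=
  ∃ i < j, Ty M T i x y

/-- Type larger than `k`. -/
def High (n : ℕ) (M : α → β → ℝ) (T : ℕ → α → β → ℝ) (k : ℕ) (x : α) (y : β) : Prop :=
  ∃ i, k < i ∧ i < n ∧ Ty M T i x y

/-- Type at least `j`. -/
def Geq (n : ℕ) (M : α → β → ℝ) (T : ℕ → α → β → ℝ) (j : ℕ) (x : α) (y : β) : Prop :=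
  ∃ i, j ≤ i ∧ i < n ∧ Ty M T i x y

/-- Exceptional entries. -/
def Exc (n : ℕ) (M : α → β → ℝ) (T : ℕ → α → β → ℝ) (x : α) (y : β) : Prop :=
  ∀ i < n, M x y ≠ T i x y

lemma ty_or_exc (n : ℕ) (M : α → β → ℝ) (T : ℕ → α → β → ℝ) (x : α) (y : β) :
    (∃ i < n, Ty M T i x y) ∨ Exc n M T x y := by
  classical
  by_cases h : Exc n M T x y
  · exact Or.inr h
  · left
    unfold Exc at h
    push Not at h
    have hex : ∃ i, i < n ∧ M x y = T i x y := h
    refine ⟨Nat.find hex, (Nat.find_spec hex).1, (Nat.find_spec hex).2, fun k hk hne => ?_⟩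
    exact Nat.find_min hex hk ⟨hk.trans (Nat.find_spec hex).1, hne⟩

lemma low_or_geq_or_exc (n : ℕ) (M : α → β → ℝ) (T : ℕ → α → β → ℝ) (j : ℕ)
    (x : α) (y : β) : (Low M T j x y ∨ Geq n M T j x y) ∨ Exc n M T x y := by
  rcases ty_or_exc n M T x y with ⟨i, hi, h⟩ | h
  · left
    rcases lt_or_ge i j with h' | h'
    · exact Or.inl ⟨i, h', h⟩
    · exact Or.inr ⟨i, h', hi, h⟩
  · exact Or.inr h

variable [Fintype α] [Fintype β]

/-- Existence of an exact rectangle of relative mass `exp (-c)`. -/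
def ExactRect (n : ℕ) (M : α → β → ℝ) (T : ℕ → α → β → ℝ) (p : α → ℝ) (q : β → ℝ) (c : ℝ) :
    Prop :=
  ∃ i < n, ∃ (A : Finset α) (B : Finset β), (∀ x ∈ A, ∀ y ∈ B, M x y = T i x y) ∧
    Real.exp (-c) * ∑ x, p x ≤ ∑ x ∈ A, p x ∧ Real.exp (-c) * ∑ y, q y ≤ ∑ y ∈ B, q y

end defs

lemma mass_low_le {α β : Type} [Fintype α] [Fintype β] {p : α → ℝ} {q : β → ℝ}
    (hp : ∀ x, 0 ≤ p x) (hq : ∀ y, 0 ≤ q y) (M : α → β → ℝ) (T : ℕ → α → β → ℝ) (j : ℕ) :
    mass p q (Low M T j) ≤ ∑ i ∈ Finset.range j, mass p q (Ty M T i) := by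
  induction j with
  | zero =>
    have : mass p q (Low M T 0) = 0 := by
      unfold mass Low
      simp
    rw [this]; simp
  | succ j ih =>
    rw [Finset.sum_range_succ]
    refine (mass_mono hp hq (T := fun x y => Low M T j x y ∨ Ty M T j x y) ?_).trans
      ((mass_or_le hp hq _ _).trans (add_le_add ih le_rfl))
    rintro x y ⟨i, hi, hty⟩
    rcases Nat.lt_succ_iff_lt_or_eq.1 hi with h | h
    · exact Or.inl ⟨i, h, hty⟩
    · subst h
      exact Or.inr hty

lemma exp_large (s : ℕ) : ∃ L0 : ℕ, ∀ L : ℕ, L0 ≤ L → 800 * (L : ℝ) ^ s ≤ Real.exp L := by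
  refine ⟨800 * (s + 1).factorial, fun L hL => ?_⟩
  have h1 := Real.pow_div_factorial_le_exp (L : ℝ) (Nat.cast_nonneg L) (s + 1)
  refine le_trans ?_ h1
  rw [le_div_iff₀ (by positivity)]
  have h2 : (800 * (s + 1).factorial : ℝ) ≤ L := by exact_mod_cast hL
  calc 800 * (L : ℝ) ^ s * ((s + 1).factorial : ℝ)
      = (800 * (s + 1).factorial : ℝ) * (L : ℝ) ^ s := by ring
    _ ≤ L * (L : ℝ) ^ s := mul_le_mul_of_nonneg_right h2 (by positivity)
    _ = (L : ℝ) ^ (s + 1) := by ring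

/-- One round of the procedure. -/
lemma round_lemma (n a b1 : ℕ) : ∃ L0 : ℕ, ∀ L : ℕ, L0 ≤ L → ∀ (α β : Type) [Fintype α]
    [Fintype β] (M : α → β → ℝ) (T : ℕ → α → β → ℝ) (R : ℕ), R ≤ L ^ 16 → Sys L R n M T →
    ∀ (p : α → ℝ) (q : β → ℝ), (∀ x, 0 ≤ p x) → (∀ y, 0 ≤ q y) →
    0 < (∑ x, p x) * (∑ y, q y) → ∀ j k : ℕ, j < k → k < n → ∀ c : ℝ, 3 * (L : ℝ) ^ 13 ≤ c →
    (∑ x, p x) * (∑ y, q y) ≤ mass p q (Ty M T j) * (L : ℝ) ^ a →
    mass p q (Low M T j) * (L : ℝ) ^ (4 * a + b1 + 150) ≤ (∑ x, p x) * (∑ y, q y) →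
    mass p q (High n M T k) * (L : ℝ) ^ (4 * a + b1 + 150) ≤ (∑ x, p x) * (∑ y, q y) →
    mass p q (Exc n M T) * Real.exp c ≤ (∑ x, p x) * (∑ y, q y) →
    ∃ (F : α → ℝ) (G : β → ℝ), (∀ x, 0 ≤ F x ∧ F x ≤ 1) ∧ (∀ y, 0 ≤ G y ∧ G y ≤ 1) ∧
      Real.exp (-(3 * (L : ℝ) ^ 13)) * ((∑ x, p x) * (∑ y, q y))
        ≤ (∑ x, p x * F x) * (∑ y, q y * G y) ∧
      mass (fun x => p x * F x) (fun y => q y * G y) (Exc n M T)
        * Real.exp (c - 3 * (L : ℝ) ^ 13) ≤ (∑ x, p x * F x) * (∑ y, q y * G y) ∧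
      (((∑ x, p x * F x) * (∑ y, q y * G y)
          ≤ mass (fun x => p x * F x) (fun y => q y * G y) (Ty M T j) * (L : ℝ) ^ (a + 4) ∧
        mass (fun x => p x * F x) (fun y => q y * G y) (Low M T j) * (L : ℝ) ^ b1
          ≤ (∑ x, p x * F x) * (∑ y, q y * G y) ∧
        mass (fun x => p x * F x) (fun y => q y * G y) (High n M T (k - 1)) * (L : ℝ) ^ b1
          ≤ (∑ x, p x * F x) * (∑ y, q y * G y)) ∨
       ∃ i < j, (∑ x, p x * F x) * (∑ y, q y * G y)
          ≤ mass (fun x => p x * F x) (fun y => q y * G y) (Ty M T i)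
            * (L : ℝ) ^ (b1 + a + 11)) := by
  obtain ⟨L1, hL1⟩ := exp_large (2 * a + b1 + 200)
  refine ⟨max (max L1 3) (max ⌈4 * kap⌉₊ n), fun L hL α β _ _ M T R hR hsys p q hp hq hPQ j k
    hjk hkn c hc hTy hLow hHigh hExc => ?_⟩
  classical
  have hLL1 : L1 ≤ L := le_trans (le_trans (le_max_left _ _) (le_max_left _ _)) hL
  have hL3 : 3 ≤ L := le_trans (le_trans (le_max_right _ _) (le_max_left _ _)) hL
  have hLk : 4 * kap ≤ L := by
    have h1 : ⌈4 * kap⌉₊ ≤ L := le_trans (le_trans (le_max_left _ _) (le_max_right _ _)) hL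
    exact (Nat.le_ceil _).trans (by exact_mod_cast h1)
  have hLn : n ≤ L := le_trans (le_trans (le_max_right _ _) (le_max_right _ _)) hL
  have hexp := hL1 L hLL1
  have h3 : (3 : ℝ) ≤ L := by exact_mod_cast hL3
  have hLpos : (0 : ℝ) < L := by linarith
  have hLge1 : (1 : ℝ) ≤ L := by linarith
  have hpowpos : ∀ s : ℕ, (0 : ℝ) < (L : ℝ) ^ s := fun s => pow_pos hLpos s
  set P := ∑ x, p x with hP
  set Q := ∑ y, q y with hQ
  obtain ⟨N, hNR, hN1, hN2, hN3, hN4⟩ := hsys.norm j k hjk hkn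
  -- exponential bounds
  have hL13 : (L : ℝ) ≤ (L : ℝ) ^ 13 := le_self_pow₀ hLge1 (by norm_num)
  have hexp13 : 800 * (L : ℝ) ^ (2 * a + b1 + 200) ≤ Real.exp ((L : ℝ) ^ 13) :=
    hexp.trans (Real.exp_le_exp.2 hL13)
  -- bad set
  have hbad : mass p q (fun x y => (Low M T j x y ∨ High n M T k x y) ∨ Exc n M T x y)
      * ((L : ℝ) ^ (a + 35)) ^ 4 ≤ P * Q := by
    have e1 : mass p q (fun x y => (Low M T j x y ∨ High n M T k x y) ∨ Exc n M T x y)
        ≤ mass p q (Low M T j) + mass p q (High n M T k) + mass p q (Exc n M T) := by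
      refine (mass_or_le hp hq _ _).trans ?_
      exact add_le_add (mass_or_le hp hq _ _) le_rfl
    have e2 : mass p q (Exc n M T) * (L : ℝ) ^ (4 * a + b1 + 150) ≤ P * Q := by
      refine le_trans ?_ hExc
      refine mul_le_mul_of_nonneg_left ?_ (mass_nonneg hp hq _)
      calc (L : ℝ) ^ (4 * a + b1 + 150) ≤ (L : ℝ) ^ (2 * (2 * a + b1 + 200)) :=
            pow_le_pow_right₀ hLge1 (by omega)
        _ = (L : ℝ) ^ (2 * a + b1 + 200) * (L : ℝ) ^ (2 * a + b1 + 200) := by ring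
        _ ≤ Real.exp ((L : ℝ) ^ 13 / 2) * Real.exp ((L : ℝ) ^ 13 / 2) := by
            have e3 : (L : ℝ) ^ (2 * a + b1 + 200) ≤ Real.exp ((L : ℝ) ^ 13 / 2) := by
              have e4 : (L : ℝ) ≤ (L : ℝ) ^ 13 / 2 := by
                have : (L : ℝ) * 2 ≤ (L : ℝ) ^ 13 := by
                  calc (L : ℝ) * 2 ≤ (L : ℝ) * (L : ℝ) :=
                        mul_le_mul_of_nonneg_left (by linarith) hLpos.le
                    _ = (L : ℝ) ^ 2 := by ring
                    _ ≤ (L : ℝ) ^ 13 := pow_le_pow_right₀ hLge1 (by norm_num)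
                linarith
              have e5 : (L : ℝ) ^ (2 * a + b1 + 200) ≤ 800 * (L : ℝ) ^ (2 * a + b1 + 200) := by
                have := hpowpos (2 * a + b1 + 200)
                linarith
              exact (e5.trans hexp).trans (Real.exp_le_exp.2 e4)
            exact mul_le_mul e3 e3 (hpowpos _).le (Real.exp_pos _).le
        _ = Real.exp ((L : ℝ) ^ 13) := by rw [← Real.exp_add]; ring_nf
        _ ≤ Real.exp c := Real.exp_le_exp.2 (by have := hpowpos 13; linarith)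
    have e3 : (L : ℝ) * ((L : ℝ) ^ (a + 35)) ^ 4 ≤ (L : ℝ) ^ (4 * a + b1 + 150) := by
      rw [← pow_mul, ← pow_succ']
      exact pow_le_pow_right₀ hLge1 (by omega)
    have e4 : 0 ≤ mass p q (Low M T j) := mass_nonneg hp hq _
    have e5 : 0 ≤ mass p q (High n M T k) := mass_nonneg hp hq _
    have e6 : 0 ≤ mass p q (Exc n M T) := mass_nonneg hp hq _
    have e7 : (mass p q (Low M T j) + mass p q (High n M T k) + mass p q (Exc n M T))
        * (L : ℝ) ^ (4 * a + b1 + 150) ≤ 3 * (P * Q) := by linarith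
    have e8 : (mass p q (Low M T j) + mass p q (High n M T k) + mass p q (Exc n M T))
        * ((L : ℝ) * ((L : ℝ) ^ (a + 35)) ^ 4) ≤ 3 * (P * Q) :=
      (mul_le_mul_of_nonneg_left e3 (by linarith)).trans e7
    have e9 : 3 * (mass p q (fun x y => (Low M T j x y ∨ High n M T k x y) ∨ Exc n M T x y)
      * ((L : ℝ) ^ (a + 35)) ^ 4) ≤ 3 * (P * Q) := by
      refine le_trans ?_ e8
      calc _ ≤ (L : ℝ) * (mass p q (fun x y => (Low M T j x y ∨ High n M T k x y)
              ∨ Exc n M T x y) * ((L : ℝ) ^ (a + 35)) ^ 4) :=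
            mul_le_mul_of_nonneg_right h3 (mul_nonneg (mass_nonneg hp hq _) (by positivity))
        _ = mass p q (fun x y => (Low M T j x y ∨ High n M T k x y) ∨ Exc n M T x y)
            * ((L : ℝ) * ((L : ℝ) ^ (a + 35)) ^ 4) := by ring
        _ ≤ _ := mul_le_mul_of_nonneg_right e1 (by positivity)
    linarith
  have hNb : ∀ x y, ¬ ((Low M T j x y ∨ High n M T k x y) ∨ Exc n M T x y) →
      |N x y| ≤ L + 1 := by
    intro x y h
    push Not at h
    rcases ty_or_exc n M T x y with ⟨i, hi, hty⟩ | h'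
    · have hij : j ≤ i := by
        by_contra hcon
        exact h.1.1 ⟨i, not_le.1 hcon, hty⟩
      have hik : i ≤ k := by
        by_contra hcon
        exact h.1.2 ⟨i, not_le.1 hcon, hi, hty⟩
      have hM1 : T j x y ≤ M x y := by rw [hty.1]; exact hsys.mono j i hij hi x y
      have hM2 : M x y ≤ T k x y := by rw [hty.1]; exact hsys.mono i k hik hkn x y
      rw [abs_le]
      constructor
      · have h1 := hN1 x y hM1
        have h2 : 1 / (L : ℝ) ≤ 1 := by
          rw [div_le_one hLpos]; exact hLge1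
        linarith
      · exact hN4 x y hM1 hM2
    · exact absurd h' h.2
  obtain ⟨Ω, _, hΩne, F, G, hF, hG, hS0, hS1, hS2, hS3⟩ :=
    tilt_lemma hL3 hLk (m := a + 35) (by omega) hR hNR hp hq _ hNb hbad
  set nn : ℝ := (Fintype.card Ω : ℝ) with hnn
  have hnnpos : 0 < nn := by
    rw [hnn]
    exact_mod_cast Fintype.card_pos
  set τ : ℝ := (1 / 4 : ℝ) ^ (L ^ 13) with hτ
  have hτpos : 0 < τ := by positivity
  let mw : Ω → (α → β → Prop) → ℝ := fun w S =>
    mass (fun x => p x * F w x) (fun y => q y * G w y) S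
  have hpF : ∀ w x, 0 ≤ p x * F w x := fun w x => mul_nonneg (hp x) (hF w x).1
  have hqG : ∀ w y, 0 ≤ q y * G w y := fun w y => mul_nonneg (hq y) (hG w y).1
  have hmw0 : ∀ w S, 0 ≤ mw w S := fun w S => mass_nonneg (hpF w) (hqG w) S
  have hmass0 : ∀ S, 0 ≤ mass p q S := fun S => mass_nonneg hp hq S
  have hmassle : ∀ S, mass p q S ≤ P * Q := fun S => mass_le_total hp hq S
  -- the six sums
  have s1 : nn * τ * (P * Q) * (1 / (4 * (L : ℝ) ^ a)) ≤ ∑ w, mw w (Ty M T j) := by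
    refine le_trans ?_ (hS3 (Ty M T j) (fun x y h => hN2 x y h.1))
    rw [← hP, ← hQ]
    have e1 : P * Q * (1 / (L : ℝ) ^ a) ≤ mass p q (Ty M T j) := by
      rw [mul_one_div, div_le_iff₀ (hpowpos a)]
      exact hTy
    have e2 : 3 / (L : ℝ) ^ (a + 35) ≤ 1 / (2 * (L : ℝ) ^ a) := by
      rw [div_le_div_iff₀ (by positivity) (by positivity)]
      have e3 : (L : ℝ) ^ (a + 35) = (L : ℝ) ^ a * (L : ℝ) ^ 35 := by ring
      have e4 : (6 : ℝ) ≤ (L : ℝ) ^ 35 := by
        calc (6 : ℝ) ≤ (L : ℝ) ^ 2 := by nlinarith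
          _ ≤ (L : ℝ) ^ 35 := pow_le_pow_right₀ hLge1 (by norm_num)
      rw [e3]
      nlinarith [hpowpos a]
    have e5 : P * Q * (1 / (2 * (L : ℝ) ^ a)) ≤ mass p q (Ty M T j)
        - 3 / (L : ℝ) ^ (a + 35) * (P * Q) := by
      have e6 : 3 / (L : ℝ) ^ (a + 35) * (P * Q) ≤ 1 / (2 * (L : ℝ) ^ a) * (P * Q) :=
        mul_le_mul_of_nonneg_right e2 hPQ.le
      have e7 : P * Q * (1 / (L : ℝ) ^ a) = P * Q * (1 / (2 * (L : ℝ) ^ a))
          + 1 / (2 * (L : ℝ) ^ a) * (P * Q) := by field_simp; ring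
      linarith
    calc nn * τ * (P * Q) * (1 / (4 * (L : ℝ) ^ a))
        = (nn * (1 / 2 * τ)) * (P * Q * (1 / (2 * (L : ℝ) ^ a))) := by field_simp; ring
      _ ≤ (nn * (1 / 2 * τ)) * (mass p q (Ty M T j) - 3 / (L : ℝ) ^ (a + 35) * (P * Q)) :=
          mul_le_mul_of_nonneg_left e5 (by positivity)
  have s2 : ∑ w, mw w (Geq n M T j) ≤ nn * τ * (P * Q) * 4 := by
    refine (hS1 (Geq n M T j) (fun x y h => ?_)).trans ?_
    · obtain ⟨i, hji, hin, hty⟩ := h
      refine hN1 x y ?_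
      rw [hty.1]; exact hsys.mono j i hji hin x y
    · calc _ ≤ (nn * (4 * τ)) * (P * Q) := mul_le_mul_of_nonneg_left (hmassle _) (by positivity)
        _ = _ := by ring
  have s3 : ∑ w, mw w (High n M T k) ≤ nn * τ * (P * Q) * (4 / (L : ℝ) ^ (4 * a + b1 + 150)) := by
    refine (hS1 (High n M T k) (fun x y h => ?_)).trans ?_
    · obtain ⟨i, hki, hin, hty⟩ := h
      refine hN1 x y ?_
      rw [hty.1]; exact hsys.mono j i (by omega) hin x y
    · have e1 : mass p q (High n M T k) ≤ P * Q / (L : ℝ) ^ (4 * a + b1 + 150) := by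
        rw [le_div_iff₀ (hpowpos _)]; exact hHigh
      calc _ ≤ (nn * (4 * τ)) * (P * Q / (L : ℝ) ^ (4 * a + b1 + 150)) :=
            mul_le_mul_of_nonneg_left e1 (by positivity)
        _ = _ := by ring
  have s4 : ∑ w, mw w (Ty M T k) ≤ nn * τ * (P * Q) * (4 * Real.exp (-(L : ℝ))) := by
    refine (hS2 (Ty M T k) (fun x y h => ?_)).trans ?_
    · refine hN3 x y h.1 ?_
      have h1 := h.2 j hjk
      rw [h.1] at h1
      exact lt_of_le_of_ne (hsys.mono j k hjk.le hkn x y) (Ne.symm h1)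
    · calc _ ≤ (nn * ((4 * Real.exp (-(L : ℝ))) * τ)) * (P * Q) :=
            mul_le_mul_of_nonneg_left (hmassle _) (by positivity)
        _ = _ := by ring
  have s5 : ∑ w, mw w (Exc n M T) ≤ nn * τ * (P * Q) * (2 ^ (L ^ 13) * Real.exp (-c)) := by
    refine (hS0 (Exc n M T)).trans ?_
    have e1 : mass p q (Exc n M T) ≤ P * Q * Real.exp (-c) := by
      rw [Real.exp_neg, ← div_eq_mul_inv, le_div_iff₀ (Real.exp_pos _)]; exact hExc
    have e2 : (1 / 2 : ℝ) ^ (L ^ 13) = τ * 2 ^ (L ^ 13) := by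
      rw [hτ, ← mul_pow]; norm_num
    rw [e2]
    calc _ ≤ (nn * (τ * 2 ^ (L ^ 13))) * (P * Q * Real.exp (-c)) :=
          mul_le_mul_of_nonneg_left e1 (by positivity)
      _ = _ := by ring
  -- the factor for exceptional entries
  set E : ℝ := Real.exp (c - 3 * (L : ℝ) ^ 13) with hE
  have hEpos : 0 < E := Real.exp_pos _
  have hE1 : 1 ≤ E := Real.one_le_exp (by linarith)
  have h2exp : (2 : ℝ) ^ (L ^ 13) ≤ Real.exp ((L : ℝ) ^ 13) := by
    calc (2 : ℝ) ^ (L ^ 13) ≤ (Real.exp 1) ^ (L ^ 13) := by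
          refine pow_le_pow_left₀ (by norm_num) ?_ _
          have := Real.add_one_le_exp (1 : ℝ)
          linarith
      _ = Real.exp ((L : ℝ) ^ 13) := by
          rw [← Real.exp_nat_mul]; push_cast; ring_nf
  have h4exp : Real.exp (-(2 * (L : ℝ) ^ 13)) ≤ τ := by
    have e1 : τ = ((2 : ℝ) ^ (L ^ 13) * 2 ^ (L ^ 13))⁻¹ := by
      rw [hτ, ← mul_pow, ← inv_pow]
      norm_num
    rw [e1, Real.exp_neg]
    refine inv_anti₀ (by positivity) ?_
    calc (2 : ℝ) ^ (L ^ 13) * 2 ^ (L ^ 13)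
        ≤ Real.exp ((L : ℝ) ^ 13) * Real.exp ((L : ℝ) ^ 13) :=
          mul_le_mul h2exp h2exp (by positivity) (Real.exp_pos _).le
      _ = Real.exp (2 * (L : ℝ) ^ 13) := by rw [← Real.exp_add]; ring_nf
  have hEexc : E * (2 ^ (L ^ 13) * Real.exp (-c)) ≤ Real.exp (-(L : ℝ) ^ 13) := by
    calc E * (2 ^ (L ^ 13) * Real.exp (-c))
        ≤ E * (Real.exp ((L : ℝ) ^ 13) * Real.exp (-c)) :=
          mul_le_mul_of_nonneg_left (mul_le_mul_of_nonneg_right h2exp (Real.exp_pos _).le)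
            hEpos.le
      _ = Real.exp (-(2 * (L : ℝ) ^ 13)) := by
          rw [hE, ← Real.exp_add, ← Real.exp_add]; ring_nf
      _ ≤ Real.exp (-(L : ℝ) ^ 13) := by
          refine Real.exp_le_exp.2 ?_
          have := hpowpos 13
          linarith
  have hexpneg : Real.exp (-(L : ℝ) ^ 13) ≤ 1 / (800 * (L : ℝ) ^ (2 * a + b1 + 200)) := by
    rw [Real.exp_neg, ← one_div]
    exact one_div_le_one_div_of_le (by have := hpowpos (2 * a + b1 + 200); positivity) hexp13
  have hexpneg' : Real.exp (-(L : ℝ)) ≤ 1 / (800 * (L : ℝ) ^ (2 * a + b1 + 200)) := by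
    rw [Real.exp_neg, ← one_div]
    exact one_div_le_one_div_of_le (by have := hpowpos (2 * a + b1 + 200); positivity) hexp
  have hτexp : ∀ s : ℕ, s ≤ 2 * a + b1 + 200 →
      Real.exp (-(3 * (L : ℝ) ^ 13)) ≤ τ * (1 / (16 * (L : ℝ) ^ s)) := by
    intro s hs
    calc Real.exp (-(3 * (L : ℝ) ^ 13))
        = Real.exp (-(2 * (L : ℝ) ^ 13)) * Real.exp (-(L : ℝ) ^ 13) := by
          rw [← Real.exp_add]; ring_nf
      _ ≤ τ * (1 / (16 * (L : ℝ) ^ s)) := by
          refine mul_le_mul h4exp (hexpneg.trans ?_) (Real.exp_pos _).le hτpos.le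
          refine one_div_le_one_div_of_le (by have := hpowpos s; positivity) ?_
          have e1 : (L : ℝ) ^ s ≤ (L : ℝ) ^ (2 * a + b1 + 200) := pow_le_pow_right₀ hLge1 hs
          have := hpowpos s
          linarith
  have htot : ∀ w, (∑ x, p x * F w x) * (∑ y, q y * G w y)
      ≤ mw w (Geq n M T j) + mw w (Low M T j) + mw w (Exc n M T) := by
    intro w
    rw [← mass_true]
    refine (mass_mono (hpF w) (hqG w)
      (T := fun x y => (Low M T j x y ∨ Geq n M T j x y) ∨ Exc n M T x y)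
      (fun x y _ => low_or_geq_or_exc n M T j x y)).trans ?_
    refine (mass_or_le (hpF w) (hqG w) _ _).trans ?_
    have := mass_or_le (hpF w) (hqG w) (Low M T j) (Geq n M T j)
    simp only [mw]
    linarith
  have hmwtot : ∀ w S, mw w S ≤ (∑ x, p x * F w x) * (∑ y, q y * G w y) :=
    fun w S => mass_le_total (hpF w) (hqG w) S
  by_cases hcase : ∑ w, mw w (Low M T j) ≤ nn * τ * (P * Q) * (1 / (L : ℝ) ^ (b1 + a + 7))
  · -- case (b): the low types stay negligible
    let Φ : Ω → ℝ := fun w => mw w (Ty M T j) - (1 / (32 * (L : ℝ) ^ a)) * mw w (Geq n M T j)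
      - (L : ℝ) ^ (b1 + 1) * (mw w (High n M T k) + mw w (Ty M T k) + mw w (Low M T j))
      - E * mw w (Exc n M T)
    have hΦ : nn * (τ * (P * Q) * (1 / (16 * (L : ℝ) ^ a))) ≤ ∑ w, Φ w := by
      have e1 : ∑ w, Φ w = ∑ w, mw w (Ty M T j)
          - (1 / (32 * (L : ℝ) ^ a)) * ∑ w, mw w (Geq n M T j)
          - (L : ℝ) ^ (b1 + 1) * (∑ w, mw w (High n M T k) + ∑ w, mw w (Ty M T k)
            + ∑ w, mw w (Low M T j)) - E * ∑ w, mw w (Exc n M T) := by
        simp only [Φ, Finset.sum_sub_distrib, Finset.mul_sum, Finset.sum_add_distrib, mul_add]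
      have hZ : 0 ≤ nn * τ * (P * Q) := by positivity
      have f1 : (1 / (32 * (L : ℝ) ^ a)) * ∑ w, mw w (Geq n M T j)
          ≤ nn * τ * (P * Q) * (1 / (8 * (L : ℝ) ^ a)) := by
        calc _ ≤ (1 / (32 * (L : ℝ) ^ a)) * (nn * τ * (P * Q) * 4) :=
              mul_le_mul_of_nonneg_left s2 (by positivity)
          _ = _ := by field_simp; ring
      have f2 : (L : ℝ) ^ (b1 + 1) * (∑ w, mw w (High n M T k) + ∑ w, mw w (Ty M T k)
            + ∑ w, mw w (Low M T j)) ≤ nn * τ * (P * Q) * (1 / (32 * (L : ℝ) ^ a)) := by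
        have g1 : (L : ℝ) ^ (b1 + 1) * (4 / (L : ℝ) ^ (4 * a + b1 + 150)
            + 4 * Real.exp (-(L : ℝ)) + 1 / (L : ℝ) ^ (b1 + a + 7)) ≤ 1 / (32 * (L : ℝ) ^ a) := by
          have k1 : 4 / (L : ℝ) ^ (4 * a + b1 + 150) ≤ 4 / (L : ℝ) ^ (b1 + a + 7) :=
            div_le_div_of_nonneg_left (by norm_num) (hpowpos _)
              (pow_le_pow_right₀ hLge1 (by omega))
          have k2 : 4 * Real.exp (-(L : ℝ)) ≤ 1 / (L : ℝ) ^ (b1 + a + 7) := by
            calc 4 * Real.exp (-(L : ℝ)) ≤ 4 * (1 / (800 * (L : ℝ) ^ (2 * a + b1 + 200))) :=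
                  mul_le_mul_of_nonneg_left hexpneg' (by norm_num)
              _ ≤ 1 / (L : ℝ) ^ (2 * a + b1 + 200) := by
                  rw [mul_one_div, div_le_div_iff₀ (by positivity) (by positivity)]
                  have := hpowpos (2 * a + b1 + 200)
                  linarith
              _ ≤ _ := one_div_le_one_div_of_le (hpowpos _) (pow_le_pow_right₀ hLge1 (by omega))
          calc _ ≤ (L : ℝ) ^ (b1 + 1) * (6 / (L : ℝ) ^ (b1 + a + 7)) := by
                refine mul_le_mul_of_nonneg_left ?_ (by positivity)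
                have : 6 / (L : ℝ) ^ (b1 + a + 7) = 4 / (L : ℝ) ^ (b1 + a + 7)
                    + 1 / (L : ℝ) ^ (b1 + a + 7) + 1 / (L : ℝ) ^ (b1 + a + 7) := by
                  field_simp; norm_num
                rw [this]
                linarith
            _ = 6 / ((L : ℝ) ^ a * (L : ℝ) ^ 6) := by
                have : (L : ℝ) ^ (b1 + a + 7) = (L : ℝ) ^ (b1 + 1) * ((L : ℝ) ^ a * (L : ℝ) ^ 6) := by
                  ring
                rw [this]
                field_simp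
            _ ≤ 1 / (32 * (L : ℝ) ^ a) := by
                rw [div_le_div_iff₀ (by positivity) (by positivity)]
                have k3 : (192 : ℝ) ≤ (L : ℝ) ^ 6 := by
                  calc (192 : ℝ) ≤ 3 ^ 6 := by norm_num
                    _ ≤ (L : ℝ) ^ 6 := pow_le_pow_left₀ (by norm_num) h3 6
                have := mul_le_mul_of_nonneg_left k3 (hpowpos a).le
                linarith
        calc _ ≤ (L : ℝ) ^ (b1 + 1) * (nn * τ * (P * Q) * (4 / (L : ℝ) ^ (4 * a + b1 + 150))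
              + nn * τ * (P * Q) * (4 * Real.exp (-(L : ℝ)))
              + nn * τ * (P * Q) * (1 / (L : ℝ) ^ (b1 + a + 7))) := by
              refine mul_le_mul_of_nonneg_left ?_ (by positivity)
              linarith
          _ = nn * τ * (P * Q) * ((L : ℝ) ^ (b1 + 1) * (4 / (L : ℝ) ^ (4 * a + b1 + 150)
            + 4 * Real.exp (-(L : ℝ)) + 1 / (L : ℝ) ^ (b1 + a + 7))) := by ring
          _ ≤ _ := mul_le_mul_of_nonneg_left g1 hZ
      have f3 : E * ∑ w, mw w (Exc n M T) ≤ nn * τ * (P * Q) * (1 / (32 * (L : ℝ) ^ a)) := by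
        calc _ ≤ E * (nn * τ * (P * Q) * (2 ^ (L ^ 13) * Real.exp (-c))) :=
              mul_le_mul_of_nonneg_left s5 hEpos.le
          _ = nn * τ * (P * Q) * (E * (2 ^ (L ^ 13) * Real.exp (-c))) := by ring
          _ ≤ nn * τ * (P * Q) * (1 / (32 * (L : ℝ) ^ a)) := by
              refine mul_le_mul_of_nonneg_left ?_ hZ
              refine (hEexc.trans hexpneg).trans ?_
              refine one_div_le_one_div_of_le (by positivity) ?_
              have e1 : (L : ℝ) ^ a ≤ (L : ℝ) ^ (2 * a + b1 + 200) :=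
                pow_le_pow_right₀ hLge1 (by omega)
              have := hpowpos a
              linarith
      rw [e1]
      have e2 : nn * (τ * (P * Q) * (1 / (16 * (L : ℝ) ^ a)))
          = nn * τ * (P * Q) * (1 / (4 * (L : ℝ) ^ a))
          - nn * τ * (P * Q) * (1 / (8 * (L : ℝ) ^ a))
          - nn * τ * (P * Q) * (1 / (32 * (L : ℝ) ^ a))
          - nn * τ * (P * Q) * (1 / (32 * (L : ℝ) ^ a)) := by
        field_simp; ring
      rw [e2]
      linarith
    obtain ⟨w, -, hw⟩ : ∃ w ∈ (Finset.univ : Finset Ω),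
        τ * (P * Q) * (1 / (16 * (L : ℝ) ^ a)) ≤ Φ w := by
      refine Finset.exists_le_of_sum_le Finset.univ_nonempty ?_
      rw [Finset.sum_const, Finset.card_univ, nsmul_eq_mul]
      exact hΦ
    have hv : 0 < τ * (P * Q) * (1 / (16 * (L : ℝ) ^ a)) := by positivity
    have g0 := hmw0 w
    have q1 : 0 ≤ (1 / (32 * (L : ℝ) ^ a)) * mw w (Geq n M T j) :=
      mul_nonneg (by positivity) (g0 _)
    have q2 : 0 ≤ (L : ℝ) ^ (b1 + 1) * mw w (High n M T k) := mul_nonneg (by positivity) (g0 _)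
    have q3 : 0 ≤ (L : ℝ) ^ (b1 + 1) * mw w (Ty M T k) := mul_nonneg (by positivity) (g0 _)
    have q4 : 0 ≤ (L : ℝ) ^ (b1 + 1) * mw w (Low M T j) := mul_nonneg (by positivity) (g0 _)
    have q5 : 0 ≤ E * mw w (Exc n M T) := mul_nonneg hEpos.le (g0 _)
    simp only [Φ, mul_add] at hw
    have r1 : (1 / (32 * (L : ℝ) ^ a)) * mw w (Geq n M T j) ≤ mw w (Ty M T j) := by linarith
    have r2 : (L : ℝ) ^ (b1 + 1) * mw w (High n M T k) + (L : ℝ) ^ (b1 + 1) * mw w (Ty M T k)
        ≤ mw w (Ty M T j) := by linarith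
    have r3 : (L : ℝ) ^ (b1 + 1) * mw w (Low M T j) ≤ mw w (Ty M T j) := by linarith
    have r4 : E * mw w (Exc n M T) ≤ mw w (Ty M T j) := by linarith
    have r5 : τ * (P * Q) * (1 / (16 * (L : ℝ) ^ a)) ≤ mw w (Ty M T j) := by linarith
    refine ⟨F w, G w, hF w, hG w, ?_, ?_, Or.inl ⟨?_, ?_, ?_⟩⟩
    · calc _ ≤ (τ * (1 / (16 * (L : ℝ) ^ a))) * (P * Q) :=
            mul_le_mul_of_nonneg_right (hτexp a (by omega)) hPQ.le
        _ = τ * (P * Q) * (1 / (16 * (L : ℝ) ^ a)) := by ring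
        _ ≤ mw w (Ty M T j) := r5
        _ ≤ _ := hmwtot w _
    · calc _ = E * mw w (Exc n M T) := by simp only [mw]; ring
        _ ≤ mw w (Ty M T j) := r4
        _ ≤ _ := hmwtot w _
    · -- target mass
      have t1 : mw w (Geq n M T j) ≤ mw w (Ty M T j) * (32 * (L : ℝ) ^ a) := by
        rw [← div_le_iff₀ (by positivity)]
        calc _ = (1 / (32 * (L : ℝ) ^ a)) * mw w (Geq n M T j) := by ring
          _ ≤ _ := r1
      have t2 : mw w (Low M T j) ≤ mw w (Ty M T j) := by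
        refine le_trans ?_ r3
        calc mw w (Low M T j) = 1 * mw w (Low M T j) := (one_mul _).symm
          _ ≤ _ := mul_le_mul_of_nonneg_right (one_le_pow₀ hLge1) (g0 _)
      have t3 : mw w (Exc n M T) ≤ mw w (Ty M T j) := by
        refine le_trans ?_ r4
        calc mw w (Exc n M T) = 1 * mw w (Exc n M T) := (one_mul _).symm
          _ ≤ _ := mul_le_mul_of_nonneg_right hE1 (g0 _)
      have t4 := htot w
      have t5 : (32 : ℝ) * (L : ℝ) ^ a + 2 ≤ (L : ℝ) ^ (a + 4) := by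
        have u1 : (L : ℝ) ^ (a + 4) = (L : ℝ) ^ a * (L : ℝ) ^ 4 := by ring
        have u2 : (81 : ℝ) ≤ (L : ℝ) ^ 4 := by
          calc (81 : ℝ) = 3 ^ 4 := by norm_num
            _ ≤ (L : ℝ) ^ 4 := pow_le_pow_left₀ (by norm_num) h3 4
        have u3 : (1 : ℝ) ≤ (L : ℝ) ^ a := one_le_pow₀ hLge1
        rw [u1]
        nlinarith [mul_le_mul_of_nonneg_left u2 (hpowpos a).le]
      calc _ ≤ mw w (Geq n M T j) + mw w (Low M T j) + mw w (Exc n M T) := t4
        _ ≤ mw w (Ty M T j) * (32 * (L : ℝ) ^ a + 2) := by linarith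
        _ ≤ mw w (Ty M T j) * (L : ℝ) ^ (a + 4) := mul_le_mul_of_nonneg_left t5 (g0 _)
    · calc _ = (L : ℝ) ^ b1 * mw w (Low M T j) := by simp only [mw]; ring
        _ ≤ (L : ℝ) ^ (b1 + 1) * mw w (Low M T j) :=
            mul_le_mul_of_nonneg_right (pow_le_pow_right₀ hLge1 (by omega)) (g0 _)
        _ ≤ mw w (Ty M T j) := r3
        _ ≤ _ := hmwtot w _
    · have t1 : mw w (High n M T (k - 1)) ≤ mw w (High n M T k) + mw w (Ty M T k) := by
        refine (mass_mono (hpF w) (hqG w) (T := fun x y => High n M T k x y ∨ Ty M T k x y)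
          ?_).trans (mass_or_le (hpF w) (hqG w) _ _)
        rintro x y ⟨i, hi1, hi2, hty⟩
        rcases Nat.lt_or_ge k i with h | h
        · exact Or.inl ⟨i, h, hi2, hty⟩
        · have : i = k := by omega
          subst this
          exact Or.inr hty
      calc _ = (L : ℝ) ^ b1 * mw w (High n M T (k - 1)) := by simp only [mw]; ring
        _ ≤ (L : ℝ) ^ b1 * (mw w (High n M T k) + mw w (Ty M T k)) :=
            mul_le_mul_of_nonneg_left t1 (by positivity)
        _ ≤ (L : ℝ) ^ (b1 + 1) * (mw w (High n M T k) + mw w (Ty M T k)) :=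
            mul_le_mul_of_nonneg_right (pow_le_pow_right₀ hLge1 (by omega))
              (add_nonneg (g0 _) (g0 _))
        _ ≤ mw w (Ty M T j) := by rw [mul_add]; exact r2
        _ ≤ _ := hmwtot w _
  · -- case (a): a lower type becomes non-negligible
    push Not at hcase
    let Φ : Ω → ℝ := fun w => mw w (Low M T j)
      - (1 / (16 * (L : ℝ) ^ (b1 + a + 7))) * mw w (Geq n M T j) - E * mw w (Exc n M T)
    have hΦ : nn * (τ * (P * Q) * (1 / (16 * (L : ℝ) ^ (b1 + a + 7)))) ≤ ∑ w, Φ w := by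
      have e1 : ∑ w, Φ w = ∑ w, mw w (Low M T j)
          - (1 / (16 * (L : ℝ) ^ (b1 + a + 7))) * ∑ w, mw w (Geq n M T j)
          - E * ∑ w, mw w (Exc n M T) := by
        simp only [Φ, Finset.sum_sub_distrib, Finset.mul_sum]
      have hZ : 0 ≤ nn * τ * (P * Q) := by positivity
      have f1 : (1 / (16 * (L : ℝ) ^ (b1 + a + 7))) * ∑ w, mw w (Geq n M T j)
          ≤ nn * τ * (P * Q) * (1 / (4 * (L : ℝ) ^ (b1 + a + 7))) := by
        calc _ ≤ (1 / (16 * (L : ℝ) ^ (b1 + a + 7))) * (nn * τ * (P * Q) * 4) :=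
              mul_le_mul_of_nonneg_left s2 (by positivity)
          _ = _ := by field_simp; ring
      have f3 : E * ∑ w, mw w (Exc n M T)
          ≤ nn * τ * (P * Q) * (1 / (4 * (L : ℝ) ^ (b1 + a + 7))) := by
        calc _ ≤ E * (nn * τ * (P * Q) * (2 ^ (L ^ 13) * Real.exp (-c))) :=
              mul_le_mul_of_nonneg_left s5 hEpos.le
          _ = nn * τ * (P * Q) * (E * (2 ^ (L ^ 13) * Real.exp (-c))) := by ring
          _ ≤ _ := by
              refine mul_le_mul_of_nonneg_left ?_ hZ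
              refine (hEexc.trans hexpneg).trans ?_
              refine one_div_le_one_div_of_le (by positivity) ?_
              have e1 : (L : ℝ) ^ (b1 + a + 7) ≤ (L : ℝ) ^ (2 * a + b1 + 200) :=
                pow_le_pow_right₀ hLge1 (by omega)
              have := hpowpos (b1 + a + 7)
              linarith
      rw [e1]
      have e2 : nn * (τ * (P * Q) * (1 / (16 * (L : ℝ) ^ (b1 + a + 7))))
          ≤ nn * τ * (P * Q) * (1 / (L : ℝ) ^ (b1 + a + 7))
          - nn * τ * (P * Q) * (1 / (4 * (L : ℝ) ^ (b1 + a + 7)))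
          - nn * τ * (P * Q) * (1 / (4 * (L : ℝ) ^ (b1 + a + 7))) := by
        have h9 : nn * τ * (P * Q) * (1 / (L : ℝ) ^ (b1 + a + 7))
          - nn * τ * (P * Q) * (1 / (4 * (L : ℝ) ^ (b1 + a + 7)))
          - nn * τ * (P * Q) * (1 / (4 * (L : ℝ) ^ (b1 + a + 7)))
          - nn * (τ * (P * Q) * (1 / (16 * (L : ℝ) ^ (b1 + a + 7))))
          = 7 * (nn * τ * (P * Q)) * (1 / (16 * (L : ℝ) ^ (b1 + a + 7))) := by
          field_simp; ring
        have h10 : 0 ≤ 7 * (nn * τ * (P * Q)) * (1 / (16 * (L : ℝ) ^ (b1 + a + 7))) := by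
          positivity
        linarith
      linarith
    obtain ⟨w, -, hw⟩ : ∃ w ∈ (Finset.univ : Finset Ω),
        τ * (P * Q) * (1 / (16 * (L : ℝ) ^ (b1 + a + 7))) ≤ Φ w := by
      refine Finset.exists_le_of_sum_le Finset.univ_nonempty ?_
      rw [Finset.sum_const, Finset.card_univ, nsmul_eq_mul]
      exact hΦ
    have hv : 0 < τ * (P * Q) * (1 / (16 * (L : ℝ) ^ (b1 + a + 7))) := by positivity
    have g0 := hmw0 w
    have q1 : 0 ≤ (1 / (16 * (L : ℝ) ^ (b1 + a + 7))) * mw w (Geq n M T j) :=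
      mul_nonneg (by positivity) (g0 _)
    have q5 : 0 ≤ E * mw w (Exc n M T) := mul_nonneg hEpos.le (g0 _)
    simp only [Φ] at hw
    have r1 : (1 / (16 * (L : ℝ) ^ (b1 + a + 7))) * mw w (Geq n M T j)
        ≤ mw w (Low M T j) := by linarith
    have r4 : E * mw w (Exc n M T) ≤ mw w (Low M T j) := by linarith
    have r5 : τ * (P * Q) * (1 / (16 * (L : ℝ) ^ (b1 + a + 7))) ≤ mw w (Low M T j) := by linarith
    refine ⟨F w, G w, hF w, hG w, ?_, ?_, Or.inr ?_⟩
    · calc _ ≤ (τ * (1 / (16 * (L : ℝ) ^ (b1 + a + 7)))) * (P * Q) :=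
            mul_le_mul_of_nonneg_right (hτexp _ (by omega)) hPQ.le
        _ = τ * (P * Q) * (1 / (16 * (L : ℝ) ^ (b1 + a + 7))) := by ring
        _ ≤ mw w (Low M T j) := r5
        _ ≤ _ := hmwtot w _
    · calc _ = E * mw w (Exc n M T) := by simp only [mw]; ring
        _ ≤ mw w (Low M T j) := r4
        _ ≤ _ := hmwtot w _
    · -- total mass against the low mass
      have t1 : mw w (Geq n M T j) ≤ mw w (Low M T j) * (16 * (L : ℝ) ^ (b1 + a + 7)) := by
        rw [← div_le_iff₀ (by positivity)]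
        calc _ = (1 / (16 * (L : ℝ) ^ (b1 + a + 7))) * mw w (Geq n M T j) := by ring
          _ ≤ _ := r1
      have t3 : mw w (Exc n M T) ≤ mw w (Low M T j) := by
        refine le_trans ?_ r4
        calc mw w (Exc n M T) = 1 * mw w (Exc n M T) := (one_mul _).symm
          _ ≤ _ := mul_le_mul_of_nonneg_right hE1 (g0 _)
      have t4 := htot w
      have t5 : (16 : ℝ) * (L : ℝ) ^ (b1 + a + 7) + 2 ≤ (L : ℝ) ^ (b1 + a + 10) := by
        have u1 : (L : ℝ) ^ (b1 + a + 10) = (L : ℝ) ^ (b1 + a + 7) * (L : ℝ) ^ 3 := by ring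
        have u2 : (27 : ℝ) ≤ (L : ℝ) ^ 3 := by
          calc (27 : ℝ) = 3 ^ 3 := by norm_num
            _ ≤ (L : ℝ) ^ 3 := pow_le_pow_left₀ (by norm_num) h3 3
        have u3 : (1 : ℝ) ≤ (L : ℝ) ^ (b1 + a + 7) := one_le_pow₀ hLge1
        rw [u1]
        nlinarith [mul_le_mul_of_nonneg_left u2 (hpowpos (b1 + a + 7)).le]
      have t6 : (∑ x, p x * F w x) * (∑ y, q y * G w y)
          ≤ mw w (Low M T j) * (L : ℝ) ^ (b1 + a + 10) := by
        calc _ ≤ mw w (Geq n M T j) + mw w (Low M T j) + mw w (Exc n M T) := t4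
          _ ≤ mw w (Low M T j) * (16 * (L : ℝ) ^ (b1 + a + 7) + 2) := by linarith
          _ ≤ mw w (Low M T j) * (L : ℝ) ^ (b1 + a + 10) := mul_le_mul_of_nonneg_left t5 (g0 _)
      -- some lower type carries a `1/j` proportion
      have t7 : mw w (Low M T j) ≤ ∑ i ∈ Finset.range j, mw w (Ty M T i) :=
        mass_low_le (hpF w) (hqG w) M T j
      by_contra hcon
      push Not at hcon
      have t8 : ∀ i ∈ Finset.range j, mw w (Ty M T i) * (L : ℝ) ^ (b1 + a + 11)
          ≤ (∑ x, p x * F w x) * (∑ y, q y * G w y) := by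
        intro i hi
        exact (hcon i (Finset.mem_range.1 hi)).le
      have hjpos : 0 < j := by
        rcases Nat.eq_zero_or_pos j with h | h
        · exfalso
          rw [h, Finset.range_zero, Finset.sum_empty] at t7
          rw [h] at r5
          linarith
        · exact h
      have t9 : (∑ i ∈ Finset.range j, mw w (Ty M T i)) * (L : ℝ) ^ (b1 + a + 11)
          < j * ((∑ x, p x * F w x) * (∑ y, q y * G w y)) := by
        rw [Finset.sum_mul]
        calc _ < ∑ i ∈ Finset.range j, (∑ x, p x * F w x) * (∑ y, q y * G w y) := by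
              refine Finset.sum_lt_sum_of_nonempty ⟨0, Finset.mem_range.2 hjpos⟩ (fun i hi => ?_)
              exact hcon i (Finset.mem_range.1 hi)
          _ = _ := by rw [Finset.sum_const, Finset.card_range, nsmul_eq_mul]
      have t10 : mw w (Low M T j) * (L : ℝ) ^ (b1 + a + 11)
          < j * ((∑ x, p x * F w x) * (∑ y, q y * G w y)) :=
        lt_of_le_of_lt (mul_le_mul_of_nonneg_right t7 (by positivity)) t9
      have t11 : (j : ℝ) ≤ L := by
        have : j ≤ L := by omega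
        exact_mod_cast this
      have t12 : j * ((∑ x, p x * F w x) * (∑ y, q y * G w y))
          ≤ L * (mw w (Low M T j) * (L : ℝ) ^ (b1 + a + 10)) := by
        refine mul_le_mul t11 t6 ?_ hLpos.le
        exact mul_nonneg (Finset.sum_nonneg (fun x _ => hpF w x))
          (Finset.sum_nonneg (fun y _ => hqG w y))
      have t13 : L * (mw w (Low M T j) * (L : ℝ) ^ (b1 + a + 10))
          = mw w (Low M T j) * (L : ℝ) ^ (b1 + a + 11) := by ring
      linarith

end Pool.Agent.Lib.MP_ba5def_co
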