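import Pool.Agent.Lib.MP_ba5def_co.Core

/-!
The double induction on the target type and on the number of relevant larger types.
-/

set_option autoImplicit false

namespace Pool.Agent.Lib.MP_ba5def_co

open Finset

/-- Statement: a non-negligible mass of type `j` forces an exact rectangle. -/
def StB (n j a c L0 : ℕ) : Prop := ∀ L : ℕ, L0 ≤ L → ∀ (α β : Type) [Fintype α] [Fintype β]
  (M : α → β → ℝ) (T : ℕ → α → β → ℝ) (R : ℕ), R ≤ L ^ 16 → Sys L R n M T →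
  ∀ (p : α → ℝ) (q : β → ℝ), (∀ x, 0 ≤ p x) → (∀ y, 0 ≤ q y) →
  0 < (∑ x, p x) * (∑ y, q y) →
  (∑ x, p x) * (∑ y, q y) ≤ mass p q (Ty M T j) * (L : ℝ) ^ a →
  mass p q (Exc n M T) * Real.exp (c * (L : ℝ) ^ 13) ≤ (∑ x, p x) * (∑ y, q y) →
  ExactRect n M T p q (c * (L : ℝ) ^ 13)

/-- The same with the smaller types and the types above `j + d` negligible. -/
def StC (n j d a b c L0 : ℕ) : Prop := ∀ L : ℕ, L0 ≤ L → ∀ (α β : Type) [Fintype α] [Fintype β]
  (M : α → β → ℝ) (T : ℕ → α → β → ℝ) (R : ℕ), R ≤ L ^ 16 → Sys L R n M T →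
  ∀ (p : α → ℝ) (q : β → ℝ), (∀ x, 0 ≤ p x) → (∀ y, 0 ≤ q y) →
  0 < (∑ x, p x) * (∑ y, q y) →
  (∑ x, p x) * (∑ y, q y) ≤ mass p q (Ty M T j) * (L : ℝ) ^ a →
  mass p q (Low M T j) * (L : ℝ) ^ b ≤ (∑ x, p x) * (∑ y, q y) →
  mass p q (High n M T (j + d)) * (L : ℝ) ^ b ≤ (∑ x, p x) * (∑ y, q y) →
  mass p q (Exc n M T) * Real.exp (c * (L : ℝ) ^ 13) ≤ (∑ x, p x) * (∑ y, q y) →
  ExactRect n M T p q (c * (L : ℝ) ^ 13)

lemma exactRect_mono {n : ℕ} {α β : Type} [Fintype α] [Fintype β] {M : α → β → ℝ}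
    {T : ℕ → α → β → ℝ} {p : α → ℝ} {q : β → ℝ} (hp : ∀ x, 0 ≤ p x) (hq : ∀ y, 0 ≤ q y)
    {c c' : ℝ} (h : ExactRect n M T p q c) (hc : c ≤ c') : ExactRect n M T p q c' := by
  obtain ⟨i, hi, A, B, hAB, hA, hB⟩ := h
  have e : Real.exp (-c') ≤ Real.exp (-c) := Real.exp_le_exp.2 (by linarith)
  refine ⟨i, hi, A, B, hAB, le_trans ?_ hA, le_trans ?_ hB⟩
  · exact mul_le_mul_of_nonneg_right e (Finset.sum_nonneg (fun x _ => hp x))
  · exact mul_le_mul_of_nonneg_right e (Finset.sum_nonneg (fun y _ => hq y))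

lemma exactRect_of_tilt {n : ℕ} {α β : Type} [Fintype α] [Fintype β] {M : α → β → ℝ}
    {T : ℕ → α → β → ℝ} {p : α → ℝ} {q : β → ℝ} (hp : ∀ x, 0 ≤ p x) (hq : ∀ y, 0 ≤ q y)
    (hPQ : 0 < (∑ x, p x) * (∑ y, q y))
    {F : α → ℝ} {G : β → ℝ} (hF : ∀ x, 0 ≤ F x ∧ F x ≤ 1) (hG : ∀ y, 0 ≤ G y ∧ G y ≤ 1)
    {c s : ℝ} (hs : Real.exp (-s) * ((∑ x, p x) * (∑ y, q y))
        ≤ (∑ x, p x * F x) * (∑ y, q y * G y))
    (h : ExactRect n M T (fun x => p x * F x) (fun y => q y * G y) c) :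
    ExactRect n M T p q (c + s) := by
  obtain ⟨i, hi, A, B, hAB, hA, hB⟩ := h
  have hP0 : 0 ≤ ∑ x, p x := Finset.sum_nonneg (fun x _ => hp x)
  have hQ0 : 0 ≤ ∑ y, q y := Finset.sum_nonneg (fun y _ => hq y)
  have hPpos : 0 < ∑ x, p x := by
    rcases hP0.eq_or_lt with h | h
    · rw [← h] at hPQ; simp at hPQ
    · exact h
  have hQpos : 0 < ∑ y, q y := by
    rcases hQ0.eq_or_lt with h | h
    · rw [← h] at hPQ; simp at hPQ
    · exact h
  have hPF : ∑ x, p x * F x ≤ ∑ x, p x :=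
    Finset.sum_le_sum (fun x _ => mul_le_of_le_one_right (hp x) (hF x).2)
  have hQG : ∑ y, q y * G y ≤ ∑ y, q y :=
    Finset.sum_le_sum (fun y _ => mul_le_of_le_one_right (hq y) (hG y).2)
  have hPF0 : 0 ≤ ∑ x, p x * F x := Finset.sum_nonneg (fun x _ => mul_nonneg (hp x) (hF x).1)
  have hQG0 : 0 ≤ ∑ y, q y * G y := Finset.sum_nonneg (fun y _ => mul_nonneg (hq y) (hG y).1)
  have h1 : Real.exp (-s) * ∑ x, p x ≤ ∑ x, p x * F x := by
    have : (Real.exp (-s) * ∑ x, p x) * (∑ y, q y) ≤ (∑ x, p x * F x) * (∑ y, q y) := by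
      calc _ = Real.exp (-s) * ((∑ x, p x) * (∑ y, q y)) := by ring
        _ ≤ (∑ x, p x * F x) * (∑ y, q y * G y) := hs
        _ ≤ _ := mul_le_mul_of_nonneg_left hQG hPF0
    exact le_of_mul_le_mul_right this hQpos
  have h2 : Real.exp (-s) * ∑ y, q y ≤ ∑ y, q y * G y := by
    have : (Real.exp (-s) * ∑ y, q y) * (∑ x, p x) ≤ (∑ y, q y * G y) * (∑ x, p x) := by
      calc _ = Real.exp (-s) * ((∑ x, p x) * (∑ y, q y)) := by ring
        _ ≤ (∑ x, p x * F x) * (∑ y, q y * G y) := hs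
        _ ≤ (∑ x, p x) * (∑ y, q y * G y) := mul_le_mul_of_nonneg_right hPF hQG0
        _ = _ := by ring
    exact le_of_mul_le_mul_right this hPpos
  refine ⟨i, hi, A, B, hAB, ?_, ?_⟩
  · calc Real.exp (-(c + s)) * ∑ x, p x = Real.exp (-c) * (Real.exp (-s) * ∑ x, p x) := by
          rw [← mul_assoc, ← Real.exp_add]; ring_nf
      _ ≤ Real.exp (-c) * ∑ x, p x * F x := mul_le_mul_of_nonneg_left h1 (Real.exp_pos _).le
      _ ≤ ∑ x ∈ A, p x * F x := hA
      _ ≤ ∑ x ∈ A, p x := Finset.sum_le_sum (fun x _ => mul_le_of_le_one_right (hp x) (hF x).2)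
  · calc Real.exp (-(c + s)) * ∑ y, q y = Real.exp (-c) * (Real.exp (-s) * ∑ y, q y) := by
          rw [← mul_assoc, ← Real.exp_add]; ring_nf
      _ ≤ Real.exp (-c) * ∑ y, q y * G y := mul_le_mul_of_nonneg_left h2 (Real.exp_pos _).le
      _ ≤ ∑ y ∈ B, q y * G y := hB
      _ ≤ ∑ y ∈ B, q y := Finset.sum_le_sum (fun y _ => mul_le_of_le_one_right (hq y) (hG y).2)

lemma stC_zero (n j a : ℕ) (hj : j < n) : ∃ b c L0, StC n j 0 a b c L0 := by
  obtain ⟨L1, hL1⟩ := exp_large 20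
  refine ⟨20, 1, max L1 3, fun L hL α β _ _ M T R hR hsys p q hp hq hPQ hTy hLow hHigh hExc => ?_⟩
  classical
  have hLL1 : L1 ≤ L := le_trans (le_max_left _ _) hL
  have hL3 : 3 ≤ L := le_trans (le_max_right _ _) hL
  have h3 : (3 : ℝ) ≤ L := by exact_mod_cast hL3
  have hLpos : (0 : ℝ) < L := by linarith
  have hLge1 : (1 : ℝ) ≤ L := by linarith
  have hexp := hL1 L hLL1
  have hL13 : (L : ℝ) ≤ (L : ℝ) ^ 13 := le_self_pow₀ hLge1 (by norm_num)
  have hexp13 : 800 * (L : ℝ) ^ 20 ≤ Real.exp ((L : ℝ) ^ 13) :=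
    hexp.trans (Real.exp_le_exp.2 hL13)
  simp only [Nat.cast_one, one_mul, add_zero] at hExc hHigh ⊢
  -- entries different from `T j`
  have e1 : mass p q (fun x y => M x y ≠ T j x y)
      ≤ mass p q (Low M T j) + mass p q (High n M T j) + mass p q (Exc n M T) := by
    refine (mass_mono hp hq (T := fun x y => (Low M T j x y ∨ High n M T j x y) ∨ Exc n M T x y)
      ?_).trans ?_
    · intro x y h
      rcases ty_or_exc n M T x y with ⟨i, hi, hty⟩ | h'
      · rcases lt_trichotomy i j with h1 | h1 | h1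
        · exact Or.inl (Or.inl ⟨i, h1, hty⟩)
        · subst h1; exact absurd hty.1 h
        · exact Or.inl (Or.inr ⟨i, h1, hi, hty⟩)
      · exact Or.inr h'
    · refine (mass_or_le hp hq _ _).trans ?_
      exact add_le_add (mass_or_le hp hq _ _) le_rfl
  have e2 : mass p q (Exc n M T) * (L : ℝ) ^ 20 ≤ (∑ x, p x) * (∑ y, q y) := by
    refine le_trans (mul_le_mul_of_nonneg_left ?_ (mass_nonneg hp hq _)) hExc
    have := pow_pos hLpos 20
    linarith
  have e3 : mass p q (fun x y => M x y ≠ T j x y) * (L : ℝ) ^ 20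
      ≤ 3 * ((∑ x, p x) * (∑ y, q y)) := by
    have := mul_le_mul_of_nonneg_right e1 (pow_pos hLpos 20).le
    linarith
  have e4 : mass p q (fun x y => M x y ≠ T j x y) * (4 * (R : ℝ))
      ≤ (∑ x, p x) * (∑ y, q y) := by
    have hR' : (R : ℝ) ≤ (L : ℝ) ^ 16 := by exact_mod_cast hR
    have e5 : 3 * (4 * (R : ℝ)) ≤ (L : ℝ) ^ 20 := by
      calc 3 * (4 * (R : ℝ)) ≤ 81 * (L : ℝ) ^ 16 := by
            have := pow_pos hLpos 16
            linarith
        _ = 3 ^ 4 * (L : ℝ) ^ 16 := by norm_num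
        _ ≤ (L : ℝ) ^ 4 * (L : ℝ) ^ 16 := by
            refine mul_le_mul_of_nonneg_right ?_ (by positivity)
            exact pow_le_pow_left₀ (by norm_num) h3 4
        _ = (L : ℝ) ^ 20 := by ring
    have e6 := mul_le_mul_of_nonneg_left e5
      (mass_nonneg hp hq (fun x y => M x y ≠ T j x y))
    linarith
  obtain ⟨A, B, hAB, hA, hB⟩ := exact_rect (hsys.rank j hj) p q hp hq
    (fun x y => M x y ≠ T j x y) (fun x y h => fun h' => h (by rw [h']; ring)) e4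
  have e7 : Real.exp (-(L : ℝ) ^ 13) ≤ 1 / 2 := by
    rw [Real.exp_neg, ← one_div]
    refine one_div_le_one_div_of_le (by norm_num) ?_
    have : (1 : ℝ) ≤ (L : ℝ) ^ 20 := one_le_pow₀ hLge1
    linarith
  have hP0 : 0 ≤ ∑ x, p x := Finset.sum_nonneg (fun x _ => hp x)
  have hQ0 : 0 ≤ ∑ y, q y := Finset.sum_nonneg (fun y _ => hq y)
  refine ⟨j, hj, A, B, fun x hx y hy => ?_, ?_, ?_⟩
  · have := hAB x hx y hy
    linarith
  · have := mul_le_mul_of_nonneg_right e7 hP0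
    linarith
  · have := mul_le_mul_of_nonneg_right e7 hQ0
    linarith

lemma unif {P : ℕ → ℕ → ℕ → Prop} (j : ℕ) (h : ∀ i < j, ∃ c L0, P i c L0) :
    ∃ c2 L2 : ℕ, ∀ i < j, ∃ c L0, c ≤ c2 ∧ L0 ≤ L2 ∧ P i c L0 := by
  induction j with
  | zero => exact ⟨0, 0, fun i hi => absurd hi (Nat.not_lt_zero i)⟩
  | succ j ih =>
    obtain ⟨c2, L2, h2⟩ := ih (fun i hi => h i (hi.trans (Nat.lt_succ_self j)))
    obtain ⟨c, L0, h3⟩ := h j (Nat.lt_succ_self j)
    refine ⟨max c2 c, max L2 L0, fun i hi => ?_⟩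
    rcases Nat.lt_succ_iff_lt_or_eq.1 hi with h' | h'
    · obtain ⟨c', L', h4, h5, h6⟩ := h2 i h'
      exact ⟨c', L', h4.trans (le_max_left _ _), h5.trans (le_max_left _ _), h6⟩
    · subst h'
      exact ⟨c, L0, le_max_right _ _, le_max_right _ _, h3⟩

lemma mass_high_eq_zero {n k : ℕ} (h : n ≤ k + 1) {α β : Type} [Fintype α] [Fintype β]
    (M : α → β → ℝ) (T : ℕ → α → β → ℝ) (p : α → ℝ) (q : β → ℝ) :
    mass p q (High n M T k) = 0 := by
  classical
  have : ∀ x y, ¬ High n M T k x y := by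
    rintro x y ⟨i, h1, h2, -⟩
    omega
  unfold mass
  simp [this]

lemma stC_succ (n j d : ℕ) (hB : ∀ i < j, ∀ a, ∃ c L0, StB n i a c L0)
    (hC : ∀ a, ∃ b c L0, StC n j d a b c L0) (a : ℕ) : ∃ b c L0, StC n j (d + 1) a b c L0 := by
  by_cases hn : n ≤ j + d + 1
  · -- nothing to do
    obtain ⟨b, c, L0, h⟩ := hC a
    refine ⟨b, c, L0, fun L hL α β _ _ M T R hR hsys p q hp hq hPQ hTy hLow _ hExc => ?_⟩
    refine h L hL α β M T R hR hsys p q hp hq hPQ hTy hLow ?_ hExc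
    rw [mass_high_eq_zero hn, zero_mul]
    exact hPQ.le
  push Not at hn
  obtain ⟨b1, c1, L1, h1⟩ := hC (a + 4)
  obtain ⟨c2, L2, h2⟩ := unif j (fun i hi => hB i hi (b1 + a + 11))
  obtain ⟨L3, h3⟩ := round_lemma n a b1
  refine ⟨4 * a + b1 + 150, c1 + c2 + 6, max (max L1 L2) L3,
    fun L hL α β _ _ M T R hR hsys p q hp hq hPQ hTy hLow hHigh hExc => ?_⟩
  have hLL1 : L1 ≤ L := le_trans (le_trans (le_max_left _ _) (le_max_left _ _)) hL
  have hLL2 : L2 ≤ L := le_trans (le_trans (le_max_right _ _) (le_max_left _ _)) hL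
  have hLL3 : L3 ≤ L := le_trans (le_max_right _ _) hL
  have hL13 : (0 : ℝ) ≤ (L : ℝ) ^ 13 := by positivity
  have hc1 : (0 : ℝ) ≤ c1 := Nat.cast_nonneg _
  have hc2 : (0 : ℝ) ≤ c2 := Nat.cast_nonneg _
  have hcast : ((c1 + c2 + 6 : ℕ) : ℝ) = (c1 : ℝ) + c2 + 6 := by push_cast; ring
  rw [hcast] at hExc ⊢
  obtain ⟨F, G, hF, hG, hmass, hE', hcases⟩ := h3 L hLL3 α β M T R hR hsys p q hp hq hPQ j
    (j + (d + 1)) (by omega) (by omega) (((c1 : ℝ) + c2 + 6) * (L : ℝ) ^ 13)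
    (by nlinarith) hTy hLow hHigh hExc
  have hpF : ∀ x, 0 ≤ p x * F x := fun x => mul_nonneg (hp x) (hF x).1
  have hqG : ∀ y, 0 ≤ q y * G y := fun y => mul_nonneg (hq y) (hG y).1
  have hPQ' : 0 < (∑ x, p x * F x) * (∑ y, q y * G y) :=
    lt_of_lt_of_le (mul_pos (Real.exp_pos _) hPQ) hmass
  have hExc' : ∀ c' : ℕ, (c' : ℝ) ≤ c1 + c2 →
      mass (fun x => p x * F x) (fun y => q y * G y) (Exc n M T)
        * Real.exp (c' * (L : ℝ) ^ 13) ≤ (∑ x, p x * F x) * (∑ y, q y * G y) := by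
    intro c' hc'
    refine le_trans (mul_le_mul_of_nonneg_left (Real.exp_le_exp.2 ?_)
      (mass_nonneg hpF hqG _)) hE'
    nlinarith
  rcases hcases with ⟨hT, hLo, hHi⟩ | ⟨i, hi, hT⟩
  · have hk : j + (d + 1) - 1 = j + d := by omega
    rw [hk] at hHi
    have := h1 L hLL1 α β M T R hR hsys (fun x => p x * F x) (fun y => q y * G y) hpF hqG hPQ'
      hT hLo hHi (hExc' c1 (by linarith))
    refine exactRect_mono hp hq (exactRect_of_tilt hp hq hPQ hF hG hmass this) ?_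
    nlinarith
  · obtain ⟨c', L', hc', hL', hB'⟩ := h2 i hi
    have hc'' : (c' : ℝ) ≤ c2 := by exact_mod_cast hc'
    have := hB' L (hL'.trans hLL2) α β M T R hR hsys (fun x => p x * F x)
      (fun y => q y * G y) hpF hqG hPQ' hT (hExc' c' (by linarith))
    refine exactRect_mono hp hq (exactRect_of_tilt hp hq hPQ hF hG hmass this) ?_
    nlinarith

lemma exists_type_of_mass {j : ℕ} {α β : Type} [Fintype α] [Fintype β]
    {M : α → β → ℝ} {T : ℕ → α → β → ℝ} {p : α → ℝ} {q : β → ℝ} {Z W : ℝ} (hZ : 0 < Z)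
    (h : Z < W * ∑ i ∈ Finset.range j, mass p q (Ty M T i)) :
    ∃ i < j, Z ≤ mass p q (Ty M T i) * (W * j) := by
  by_contra hcon
  push Not at hcon
  have hjpos : 0 < j := by
    rcases Nat.eq_zero_or_pos j with h' | h'
    · exfalso
      rw [h', Finset.range_zero, Finset.sum_empty, mul_zero] at h
      linarith
    · exact h'
  have hj' : (0 : ℝ) < j := by exact_mod_cast hjpos
  have h2 : ∑ i ∈ Finset.range j, mass p q (Ty M T i) * (W * j) ≤ ∑ i ∈ Finset.range j, Z :=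
    Finset.sum_le_sum (fun i hi => (hcon i (Finset.mem_range.1 hi)).le)
  rw [← Finset.sum_mul, Finset.sum_const, Finset.card_range, nsmul_eq_mul] at h2
  have h3 : (W * ∑ i ∈ Finset.range j, mass p q (Ty M T i)) * j ≤ Z * j := by linarith
  have := le_of_mul_le_mul_right h3 hj'
  linarith

lemma stB_all (n : ℕ) : ∀ j < n, ∀ a, ∃ c L0, StB n j a c L0 := by
  intro j
  induction j using Nat.strong_induction_on with
  | _ j ih =>
  intro hj a
  have hB : ∀ i < j, ∀ a, ∃ c L0, StB n i a c L0 := fun i hi => ih i hi (hi.trans hj)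
  have hC : ∀ d a, ∃ b c L0, StC n j d a b c L0 := by
    intro d
    induction d with
    | zero => exact fun a => stC_zero n j a hj
    | succ d ihd => exact fun a => stC_succ n j d hB ihd a
  obtain ⟨b, c, L1, h1⟩ := hC n a
  obtain ⟨c2, L2, h2⟩ := unif j (fun i hi => hB i hi (b + 1))
  refine ⟨c + c2, max (max L1 L2) (max n 1), fun L hL α β _ _ M T R hR hsys p q hp hq hPQ hTy
    hExc => ?_⟩
  have hLL1 : L1 ≤ L := le_trans (le_trans (le_max_left _ _) (le_max_left _ _)) hL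
  have hLL2 : L2 ≤ L := le_trans (le_trans (le_max_right _ _) (le_max_left _ _)) hL
  have hLn : n ≤ L := le_trans (le_trans (le_max_left _ _) (le_max_right _ _)) hL
  have hL1 : 1 ≤ L := le_trans (le_trans (le_max_right _ _) (le_max_right _ _)) hL
  have hLpos : (0 : ℝ) < L := by
    have : (1 : ℝ) ≤ L := by exact_mod_cast hL1
    linarith
  have hL13 : (0 : ℝ) ≤ (L : ℝ) ^ 13 := by positivity
  have hcast : ((c + c2 : ℕ) : ℝ) = (c : ℝ) + c2 := by push_cast; ring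
  have hc1 : (0 : ℝ) ≤ c := Nat.cast_nonneg _
  have hc2 : (0 : ℝ) ≤ c2 := Nat.cast_nonneg _
  rw [hcast] at hExc ⊢
  have hExc' : ∀ c' : ℕ, (c' : ℝ) ≤ c + c2 → mass p q (Exc n M T)
        * Real.exp (c' * (L : ℝ) ^ 13) ≤ (∑ x, p x) * (∑ y, q y) := by
    intro c' hc'
    refine le_trans (mul_le_mul_of_nonneg_left (Real.exp_le_exp.2 ?_)
      (mass_nonneg hp hq _)) hExc
    exact mul_le_mul_of_nonneg_right hc' hL13
  by_cases hcase : mass p q (Low M T j) * (L : ℝ) ^ b ≤ (∑ x, p x) * (∑ y, q y)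
  · have := h1 L hLL1 α β M T R hR hsys p q hp hq hPQ hTy hcase
      (by rw [mass_high_eq_zero (by omega), zero_mul]; exact hPQ.le) (hExc' c (by linarith))
    refine exactRect_mono hp hq this ?_
    nlinarith
  · push Not at hcase
    have h3 : (∑ x, p x) * (∑ y, q y)
        < (L : ℝ) ^ b * ∑ i ∈ Finset.range j, mass p q (Ty M T i) := by
      refine lt_of_lt_of_le hcase ?_
      rw [mul_comm]
      exact mul_le_mul_of_nonneg_left (mass_low_le hp hq M T j) (by positivity)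
    obtain ⟨i, hi, h4⟩ := exists_type_of_mass hPQ h3
    obtain ⟨c', L', hc', hL', hB'⟩ := h2 i hi
    have hc'' : (c' : ℝ) ≤ c2 := by exact_mod_cast hc'
    have h5 : (∑ x, p x) * (∑ y, q y) ≤ mass p q (Ty M T i) * (L : ℝ) ^ (b + 1) := by
      refine h4.trans (mul_le_mul_of_nonneg_left ?_ (mass_nonneg hp hq _))
      rw [pow_succ]
      refine mul_le_mul_of_nonneg_left ?_ (by positivity)
      have : j ≤ L := by omega
      exact_mod_cast this
    have := hB' L (hL'.trans hLL2) α β M T R hR hsys p q hp hq hPQ h5 (hExc' c' (by linarith))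
    refine exactRect_mono hp hq this ?_
    nlinarith

/-- The core theorem. -/
theorem core (n : ℕ) : ∃ c L0 : ℕ, ∀ L : ℕ, L0 ≤ L → ∀ (α β : Type) [Fintype α]
    [Fintype β] (M : α → β → ℝ) (T : ℕ → α → β → ℝ) (R : ℕ), R ≤ L ^ 16 → Sys L R n M T →
    ∀ (p : α → ℝ) (q : β → ℝ), (∀ x, 0 ≤ p x) → (∀ y, 0 ≤ q y) →
    0 < (∑ x, p x) * (∑ y, q y) →
    mass p q (Exc n M T) * Real.exp (c * (L : ℝ) ^ 13) ≤ (∑ x, p x) * (∑ y, q y) →
    ExactRect n M T p q (c * (L : ℝ) ^ 13) := by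
  obtain ⟨c2, L2, h2⟩ := unif n (fun i hi => stB_all n i hi 2)
  refine ⟨c2 + 1, max L2 (max n 3), fun L hL α β _ _ M T R hR hsys p q hp hq hPQ hExc => ?_⟩
  have hLL2 : L2 ≤ L := le_trans (le_max_left _ _) hL
  have hLn : n ≤ L := le_trans (le_trans (le_max_left _ _) (le_max_right _ _)) hL
  have hL3 : 3 ≤ L := le_trans (le_trans (le_max_right _ _) (le_max_right _ _)) hL
  have h3 : (3 : ℝ) ≤ L := by exact_mod_cast hL3
  have hLpos : (0 : ℝ) < L := by linarith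
  have hL13 : (1 : ℝ) ≤ (L : ℝ) ^ 13 := one_le_pow₀ (by linarith)
  have hcast : ((c2 + 1 : ℕ) : ℝ) = (c2 : ℝ) + 1 := by push_cast; ring
  have hc2 : (0 : ℝ) ≤ c2 := Nat.cast_nonneg _
  rw [hcast] at hExc ⊢
  have hE0 := mass_nonneg hp hq (Exc n M T)
  have hExc2 : mass p q (Exc n M T) * 2 ≤ (∑ x, p x) * (∑ y, q y) := by
    refine le_trans (mul_le_mul_of_nonneg_left ?_ hE0) hExc
    have h4 : (1 : ℝ) ≤ (c2 + 1) * (L : ℝ) ^ 13 := by nlinarith
    have h5 := Real.add_one_le_exp ((c2 + 1) * (L : ℝ) ^ 13 : ℝ)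
    linarith
  have htot : (∑ x, p x) * (∑ y, q y)
      ≤ ∑ i ∈ Finset.range n, mass p q (Ty M T i) + mass p q (Exc n M T) := by
    rw [← mass_true]
    refine (mass_mono hp hq (T := fun x y => Low M T n x y ∨ Exc n M T x y) ?_).trans
      ((mass_or_le hp hq _ _).trans (add_le_add (mass_low_le hp hq M T n) le_rfl))
    intro x y _
    rcases ty_or_exc n M T x y with ⟨i, hi, hty⟩ | h
    · exact Or.inl ⟨i, hi, hty⟩
    · exact Or.inr h
  have h5 : (∑ x, p x) * (∑ y, q y)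
      < 3 * ∑ i ∈ Finset.range n, mass p q (Ty M T i) := by linarith
  obtain ⟨i, hi, h6⟩ := exists_type_of_mass hPQ h5
  obtain ⟨c', L', hc', hL', hB'⟩ := h2 i hi
  have hc'' : (c' : ℝ) ≤ c2 := by exact_mod_cast hc'
  have h7 : (∑ x, p x) * (∑ y, q y) ≤ mass p q (Ty M T i) * (L : ℝ) ^ 2 := by
    refine h6.trans (mul_le_mul_of_nonneg_left ?_ (mass_nonneg hp hq _))
    rw [sq]
    refine mul_le_mul h3 ?_ (by positivity) hLpos.le
    exact_mod_cast hLn
  have h8 : mass p q (Exc n M T) * Real.exp (c' * (L : ℝ) ^ 13)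
      ≤ (∑ x, p x) * (∑ y, q y) := by
    refine le_trans (mul_le_mul_of_nonneg_left (Real.exp_le_exp.2 ?_) hE0) hExc
    nlinarith
  have := hB' L (hL'.trans hLL2) α β M T R hR hsys p q hp hq hPQ h7 h8
  refine exactRect_mono hp hq this ?_
  nlinarith

end Pool.Agent.Lib.MP_ba5def_co
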