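import Mathlib

/-!
D-optimal design: for finitely many vectors there is a probability weight making all of them
short with respect to the associated ellipsoid (Kiefer and Wolfowitz, John).
-/

set_option autoImplicit false

namespace Pool.Agent.Lib.MP_ba5def_co

open Finset Matrix
open scoped MatrixOrder

section design

variable {β : Type*} [Fintype β] {R : ℕ}

/-- The moment matrix with a small multiple of the identity added. -/
noncomputable def moment (v : β → Fin R → ℝ) (η : ℝ) (w : β → ℝ) : Matrix (Fin R) (Fin R) ℝ :=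
  ∑ y, w y • vecMulVec (v y) (v y) + η • (1 : Matrix (Fin R) (Fin R) ℝ)

lemma moment_posDef (v : β → Fin R → ℝ) {η : ℝ} (hη : 0 < η) {w : β → ℝ} (hw : ∀ y, 0 ≤ w y) :
    (moment v η w).PosDef := by
  unfold moment
  refine Matrix.PosDef.posSemidef_add ?_ (Matrix.PosDef.one.smul hη)
  refine Matrix.posSemidef_sum _ (fun y _ => ?_)
  refine Matrix.PosSemidef.smul ?_ (hw y)
  simpa using Matrix.posSemidef_vecMulVec_self_star (v y)

lemma moment_quad (v : β → Fin R → ℝ) (η : ℝ) (w : β → ℝ) (c : Fin R → ℝ) :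
    c ⬝ᵥ (moment v η w *ᵥ c) = ∑ y, w y * (c ⬝ᵥ v y) ^ 2 + η * (c ⬝ᵥ c) := by
  unfold moment
  rw [Matrix.add_mulVec, dotProduct_add, Matrix.sum_mulVec, dotProduct_sum]
  congr 1
  · refine Finset.sum_congr rfl (fun y _ => ?_)
    rw [Matrix.smul_mulVec, dotProduct_smul, Matrix.vecMulVec_mulVec]
    simp only [smul_eq_mul, dotProduct_smul, op_smul_eq_mul]
    rw [dotProduct_comm (v y) c]
    ring
  · rw [Matrix.smul_mulVec, dotProduct_smul, Matrix.one_mulVec, smul_eq_mul]

lemma moment_continuous (v : β → Fin R → ℝ) (η : ℝ) : Continuous (fun w => (moment v η w).det) := by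
  unfold moment
  refine Continuous.matrix_det ?_
  refine Continuous.add ?_ continuous_const
  refine continuous_finsetSum _ (fun y _ => ?_)
  exact (continuous_apply y).smul continuous_const

lemma trace_nonpos_of_det_le {n : Type*} [Fintype n] [DecidableEq n] (E : Matrix n n ℝ)
    (h : ∀ ε : ℝ, 0 < ε → ε ≤ 1 → (1 + ε • E).det ≤ 1) : E.trace ≤ 0 := by
  set P : Polynomial ℝ := (1 + (Polynomial.X : Polynomial ℝ) • E.map ⇑Polynomial.C).det.divX.divX with hP
  have h1 : ∀ ε : ℝ, 0 < ε → ε ≤ 1 → E.trace + Polynomial.eval ε P * ε ≤ 0 := by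
    intro ε h0 h1
    have := h ε h0 h1
    rw [Matrix.det_one_add_smul] at this
    have h2 : (E.trace + Polynomial.eval ε P * ε) * ε ≤ 0 := by
      rw [← hP] at this
      nlinarith
    by_contra hcon
    push Not at hcon
    have := mul_pos hcon h0
    linarith
  have hlim : Filter.Tendsto (fun ε : ℝ => E.trace + Polynomial.eval ε P * ε)
      (nhdsWithin 0 (Set.Ioi 0)) (nhds E.trace) := by
    have hc : Continuous (fun ε : ℝ => E.trace + Polynomial.eval ε P * ε) := by fun_prop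
    have := (hc.tendsto 0).mono_left (nhdsWithin_le_nhds (s := Set.Ioi 0))
    simpa using this
  refine le_of_tendsto hlim ?_
  have : Set.Ioc (0 : ℝ) 1 ∈ nhdsWithin (0 : ℝ) (Set.Ioi 0) := Ioc_mem_nhdsGT one_pos
  filter_upwards [this] with ε hε
  exact h1 ε hε.1 hε.2

lemma exists_opt [Nonempty β] (v : β → Fin R → ℝ) {η : ℝ} (hη : 0 < η) :
    ∃ w : β → ℝ, (∀ y, 0 ≤ w y) ∧ ∑ y, w y = 1 ∧
      ∀ y, v y ⬝ᵥ ((moment v η w)⁻¹ *ᵥ v y) ≤ R := by
  classical
  obtain ⟨y0⟩ := ‹Nonempty β›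
  obtain ⟨w, hw, hmax⟩ := (isCompact_stdSimplex ℝ β).exists_isMaxOn
    ⟨Pi.single y0 1, single_mem_stdSimplex ℝ y0⟩ (moment_continuous v η).continuousOn
  refine ⟨w, hw.1, hw.2, fun y => ?_⟩
  set S := moment v η w with hS
  have hpd : S.PosDef := moment_posDef v hη hw.1
  have hdet : 0 < S.det := hpd.det_pos
  have hunit : IsUnit S.det := isUnit_iff_ne_zero.2 hdet.ne'
  set E := S⁻¹ * (vecMulVec (v y) (v y) + η • (1 : Matrix (Fin R) (Fin R) ℝ) - S) with hE
  have hSE : ∀ ε : ℝ, S * (1 + ε • E)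
      = S + ε • (vecMulVec (v y) (v y) + η • (1 : Matrix (Fin R) (Fin R) ℝ) - S) := by
    intro ε
    rw [Matrix.mul_add, Matrix.mul_one, Matrix.mul_smul, hE, Matrix.mul_nonsing_inv_cancel_left _ _ hunit]
  have htr : E.trace ≤ 0 := by
    refine trace_nonpos_of_det_le E (fun ε h0 h1 => ?_)
    have hmem : (1 - ε) • w + ε • (Pi.single y 1 : β → ℝ) ∈ stdSimplex ℝ β :=
      (convex_stdSimplex ℝ β) hw (single_mem_stdSimplex ℝ y) (by linarith) h0.le (by ring)
    have h2 := hmax hmem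
    simp only [Set.mem_ofPred_eq] at h2
    have h3 : moment v η ((1 - ε) • w + ε • (Pi.single y 1 : β → ℝ)) = S * (1 + ε • E) := by
      rw [hSE, hS]
      unfold moment
      have : ∑ z, ((1 - ε) • w + ε • (Pi.single y 1 : β → ℝ)) z • vecMulVec (v z) (v z)
          = (1 - ε) • (∑ z, w z • vecMulVec (v z) (v z)) + ε • vecMulVec (v y) (v y) := by
        simp only [Pi.add_apply, Pi.smul_apply, add_smul, smul_eq_mul, Finset.sum_add_distrib,
          mul_smul, Finset.smul_sum]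
        congr 1
        rw [Finset.sum_eq_single y]
        · simp
        · intro b _ hb
          simp [Pi.single_eq_of_ne hb]
        · simp
      rw [this]
      module
    rw [h3, Matrix.det_mul] at h2
    have h4 : S.det * (1 + ε • E).det ≤ S.det * 1 := by simpa [hS] using h2
    exact le_of_mul_le_mul_left h4 hdet
  have htr2 : E.trace = v y ⬝ᵥ (S⁻¹ *ᵥ v y) + η * S⁻¹.trace - R := by
    rw [hE, Matrix.mul_sub, Matrix.mul_add, Matrix.nonsing_inv_mul _ hunit, Matrix.trace_sub,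
      Matrix.trace_add, Matrix.mul_smul, Matrix.mul_one, Matrix.trace_smul, Matrix.trace_one,
      Matrix.mul_vecMulVec, Matrix.trace_vecMulVec, dotProduct_comm]
    simp
  have h5 : 0 ≤ S⁻¹.trace := hpd.inv.posSemidef.trace_nonneg
  have h6 : 0 ≤ η * S⁻¹.trace := mul_nonneg hη.le h5
  linarith

/-- The form used later: new coordinates in which all `v y` have length at most one, and the dual
vectors have length controlled by a weighted square mean. -/
lemma design [Nonempty β] (hR : 0 < R) (v : β → Fin R → ℝ) {η : ℝ} (hη : 0 < η) :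
    ∃ w : β → ℝ, (∀ y, 0 ≤ w y) ∧ ∑ y, w y = 1 ∧
      ∃ f g : (Fin R → ℝ) → (Fin R → ℝ), (∀ c d, f c ⬝ᵥ g d = c ⬝ᵥ d) ∧
        (∀ y, g (v y) ⬝ᵥ g (v y) ≤ 1) ∧
        ∀ c, f c ⬝ᵥ f c = R * (∑ y, w y * (c ⬝ᵥ v y) ^ 2 + η * (c ⬝ᵥ c)) := by
  classical
  obtain ⟨w, hw, hw1, hopt⟩ := exists_opt v hη
  refine ⟨w, hw, hw1, ?_⟩
  set S := moment v η w with hS
  have hpd : S.PosDef := moment_posDef v hη hw
  have hdet : 0 < S.det := hpd.det_pos
  have hunit : IsUnit S.det := isUnit_iff_ne_zero.2 hdet.ne'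
  set B := CFC.sqrt S with hB
  have hnn : (0 : Matrix (Fin R) (Fin R) ℝ) ≤ S := Matrix.nonneg_iff_posSemidef.2 hpd.posSemidef
  have hBB : B * B = S := CFC.sqrt_mul_sqrt_self S hnn
  have hBps : B.PosSemidef := Matrix.nonneg_iff_posSemidef.1 (CFC.sqrt_nonneg S)
  have hBt : Bᵀ = B := by
    have := hBps.1
    rw [Matrix.IsHermitian, Matrix.conjTranspose_eq_transpose_of_trivial] at this
    exact this
  have hBu : IsUnit B.det := by
    have : IsUnit (B.det * B.det) := by rw [← Matrix.det_mul, hBB]; exact hunit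
    exact isUnit_of_mul_isUnit_left this
  have hR' : (0 : ℝ) < R := by exact_mod_cast hR
  have hsq : 0 < Real.sqrt R := Real.sqrt_pos.2 hR'
  refine ⟨fun c => Real.sqrt R • (B *ᵥ c), fun d => (Real.sqrt R)⁻¹ • (B⁻¹ *ᵥ d), ?_, ?_, ?_⟩
  · intro c d
    rw [smul_dotProduct, dotProduct_smul, smul_smul, mul_inv_cancel₀ hsq.ne', one_smul]
    rw [Matrix.dotProduct_mulVec, ← Matrix.mulVec_transpose, Matrix.mulVec_mulVec]
    rw [Matrix.transpose_nonsing_inv, hBt, Matrix.nonsing_inv_mul _ hBu, Matrix.one_mulVec]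
  · intro y
    have h1 : (B⁻¹ *ᵥ v y) ⬝ᵥ (B⁻¹ *ᵥ v y) = v y ⬝ᵥ (S⁻¹ *ᵥ v y) := by
      rw [Matrix.dotProduct_mulVec, ← Matrix.mulVec_transpose, Matrix.mulVec_mulVec,
        Matrix.transpose_nonsing_inv, hBt, ← hBB, Matrix.mul_inv_rev, dotProduct_comm]
    rw [smul_dotProduct, dotProduct_smul, h1, smul_smul]
    have h2 := hopt y
    have h3 : (Real.sqrt R)⁻¹ * (Real.sqrt R)⁻¹ = (R : ℝ)⁻¹ := by
      rw [← mul_inv, Real.mul_self_sqrt hR'.le]
    rw [h3, smul_eq_mul, inv_mul_le_iff₀ hR', mul_one]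
    exact h2
  · intro c
    have h1 : (B *ᵥ c) ⬝ᵥ (B *ᵥ c) = c ⬝ᵥ (S *ᵥ c) := by
      rw [Matrix.dotProduct_mulVec, ← Matrix.mulVec_transpose, Matrix.mulVec_mulVec, hBt, hBB,
        dotProduct_comm]
    rw [smul_dotProduct, dotProduct_smul, h1, smul_smul, Real.mul_self_sqrt hR'.le, smul_eq_mul,
      hS, moment_quad]

end design

end Pool.Agent.Lib.MP_ba5def_co
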