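import Pool.Agent.Lib.MP_ba5def_co.Palette2
import Pool.Agent.Lib.MP_ba5def_co.Clique2

/-!
Squared distances have small rank; an exact rectangle for squared distances gives two sets with
orthogonal direction spaces.  Hence a dimension-halving recursion for the largest size of a set
without `n` points with distinct distances.
-/

set_option autoImplicit false

namespace Pool.Agent.Lib.MP_ba5def_co

open Finset Module

section

variable {E : Type} [NormedAddCommGroup E] [InnerProductSpace ℝ E] [FiniteDimensional ℝ E]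

lemma hasRank_dist (V : Finset E) (k : ℕ) (hk : finrank ℝ (vectorSpan ℝ (V : Set E)) ≤ k) :
    HasRank (k + 2) (fun (x y : {x // x ∈ V}) => dist (x : E) (y : E) ^ 2) := by
  rcases V.eq_empty_or_nonempty with h | ⟨p, hp⟩
  · subst h
    refine ⟨fun _ _ => 0, fun _ _ => 0, fun x => ?_⟩
    exact absurd x.2 (Finset.notMem_empty _)
  · let W := vectorSpan ℝ (V : Set E)
    let b := stdOrthonormalBasis ℝ W
    have hm : ∀ x : {x // x ∈ V}, (x : E) - p ∈ W := fun x => vsub_mem_vectorSpan ℝ x.2 hp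
    have h1 : HasRank (finrank ℝ W) (fun (x y : {x // x ∈ V}) =>
        inner ℝ ((x : E) - p) ((y : E) - p)) := by
      refine ⟨fun x i => inner ℝ (⟨x - p, hm x⟩ : W) (b i),
        fun y i => inner ℝ (b i) (⟨y - p, hm y⟩ : W), fun x y => ?_⟩
      rw [b.sum_inner_mul_inner]
      rfl
    have h2 := ((hasRank_row (β := {x // x ∈ V}) (fun x : {x // x ∈ V} => ‖(x : E) - p‖ ^ 2)).add
      (hasRank_col (α := {x // x ∈ V}) (fun y : {x // x ∈ V} => ‖(y : E) - p‖ ^ 2))).add
      (h1.row_mul (fun _ => (-2 : ℝ)))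
    refine (h2.congr ?_).mono (by
      have : finrank ℝ W ≤ k := hk
      omega)
    intro x y
    beta_reduce
    rw [dist_eq_norm]
    have : (x : E) - y = ((x : E) - p) - ((y : E) - p) := by abel
    rw [this, norm_sub_sq_real]
    ring

lemma orth_of_inner (A B : Finset E)
    (h : ∀ x ∈ A, ∀ x' ∈ A, ∀ y ∈ B, ∀ y' ∈ B,
      dist x y ^ 2 - dist x y' ^ 2 - dist x' y ^ 2 + dist x' y' ^ 2 = 0) :
    vectorSpan ℝ (A : Set E) ⟂ vectorSpan ℝ (B : Set E) := by
  rw [vectorSpan_def, vectorSpan_def, Submodule.isOrtho_span]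
  rintro u ⟨x, hx, x', hx', rfl⟩ v ⟨y, hy, y', hy', rfl⟩
  have := h x hx x' hx' y hy y' hy'
  simp only [dist_eq_norm, norm_sub_sq_real] at this
  simp only [vsub_eq_sub, inner_sub_left, inner_sub_right]
  linarith

lemma finrank_add_le (V A B : Finset E) (hA : A ⊆ V) (hB : B ⊆ V)
    (h : vectorSpan ℝ (A : Set E) ⟂ vectorSpan ℝ (B : Set E)) :
    finrank ℝ (vectorSpan ℝ (A : Set E)) + finrank ℝ (vectorSpan ℝ (B : Set E))
      ≤ finrank ℝ (vectorSpan ℝ (V : Set E)) := by
  have h1 := Submodule.finrank_sup_add_finrank_inf_eq (vectorSpan ℝ (A : Set E))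
    (vectorSpan ℝ (B : Set E))
  have h2 : vectorSpan ℝ (A : Set E) ⊓ vectorSpan ℝ (B : Set E) = ⊥ :=
    disjoint_iff.1 h.disjoint
  rw [h2, finrank_bot, add_zero] at h1
  rw [← h1]
  refine Submodule.finrank_mono (sup_le ?_ ?_)
  · exact vectorSpan_mono ℝ (by exact_mod_cast hA)
  · exact vectorSpan_mono ℝ (by exact_mod_cast hB)

/-- No `n` points of `V` have distinct mutual distances. -/
def NoRainbow (n : ℕ) (V : Finset E) : Prop :=
  ¬ ∃ w : Fin n → E, (∀ i, w i ∈ V) ∧
      ∀ i j i' j', i < j → i' < j' → dist (w i) (w j) = dist (w i') (w j') → i = i' ∧ j = j'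

lemma NoRainbow.mono {n : ℕ} {V V' : Finset E} (h : NoRainbow n V) (hV : V' ⊆ V) :
    NoRainbow n V' := fun ⟨w, hw, hw'⟩ => h ⟨w, fun i => hV (hw i), hw'⟩

end

/-- Sets of dimension at most `k` without `n` points with distinct distances have size
at most `exp t`. -/
def Bd (E : Type) [NormedAddCommGroup E] [InnerProductSpace ℝ E] (n k : ℕ) (t : ℝ) : Prop :=
  ∀ V : Finset E, finrank ℝ (vectorSpan ℝ (V : Set E)) ≤ k → NoRainbow n V →
    (V.card : ℝ) ≤ Real.exp t

theorem recursion (n : ℕ) : ∃ c L0 : ℕ, ∀ L, L0 ≤ L → ∀ (E : Type) [NormedAddCommGroup E]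
    [InnerProductSpace ℝ E] [FiniteDimensional ℝ E] (k : ℕ) (t : ℝ), 0 ≤ t → k + 3 ≤ L ^ 16 →
    Bd E n (k / 2) t → Bd E n k (t + c * (L : ℝ) ^ 13) := by
  classical
  obtain ⟨c1, L1, hpal⟩ := palette (3 * n ^ 2)
  obtain ⟨C, hcl⟩ := clique n
  refine ⟨(C + 1) * c1 + 1, max L1 (2 * (6 * n ^ 3 + 2) ^ C), ?_⟩
  intro L hL E _ _ _ k t ht hkL hB V hV hno
  have hLL1 : L1 ≤ L := (le_max_left _ _).trans hL
  have hLL2 : 2 * (6 * n ^ 3 + 2) ^ C ≤ L := (le_max_right _ _).trans hL
  have hL1 : 1 ≤ L := by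
    have : 0 < (6 * n ^ 3 + 2) ^ C := by positivity
    omega
  have hLr : (1 : ℝ) ≤ L := by exact_mod_cast hL1
  by_contra hcon
  rw [not_le] at hcon
  obtain ⟨e, he⟩ : ∃ e : ℝ, e = (L : ℝ) ^ 13 := ⟨_, rfl⟩
  obtain ⟨δ0, hδ0⟩ : ∃ δ0 : ℝ, δ0 = 1 / (6 * (n : ℝ) ^ 3 + 2) := ⟨_, rfl⟩
  have hden : (0 : ℝ) < 6 * (n : ℝ) ^ 3 + 2 := by positivity
  have hδ0pos : 0 < δ0 := by rw [hδ0]; positivity
  have hδ0half : δ0 ≤ 1 / 2 := by
    rw [hδ0]
    have : (2 : ℝ) ≤ 6 * (n : ℝ) ^ 3 + 2 := by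
      have : (0 : ℝ) ≤ 6 * (n : ℝ) ^ 3 := by positivity
      linarith
    exact one_div_le_one_div_of_le (by norm_num) this
  have hδ0n : δ0 * (6 * (n : ℝ) ^ 3) ≤ 1 := by
    rw [hδ0, one_div, inv_mul_le_iff₀ hden]
    linarith
  have he0 : 0 ≤ e := by rw [he]; positivity
  have hexp1 : Real.exp (-(c1 * e)) ≤ 1 := by
    rw [Real.exp_le_one_iff]
    have : 0 ≤ (c1 : ℝ) * e := by positivity
    linarith
  have hexppos : 0 < Real.exp (-(c1 * e)) := Real.exp_pos _
  obtain ⟨δ, hδ⟩ : ∃ δ : ℝ, δ = δ0 * Real.exp (-(c1 * e)) := ⟨_, rfl⟩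
  have hδpos : 0 < δ := by rw [hδ]; positivity
  obtain ⟨M0, hM0⟩ : ∃ M0 : ℝ, M0 = 2 * Real.exp (c1 * e) * Real.exp t := ⟨_, rfl⟩
  have hM01 : 1 ≤ M0 := by
    have h1 : 1 ≤ Real.exp (c1 * e) := Real.one_le_exp (by positivity)
    have h2 : 1 ≤ Real.exp t := Real.one_le_exp ht
    rw [hM0]
    nlinarith
  have hexpinv : Real.exp (-(c1 * e)) * Real.exp (c1 * e) = 1 := by
    rw [← Real.exp_add]; simp
  -- the set of points as a type
  let c : {x // x ∈ V} → {x // x ∈ V} → ℝ := fun x y => dist (x : E) (y : E) ^ 2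
  have hrank : HasRank (k + 2) c := hasRank_dist V k hV
  have hbig : ∀ A' : Finset {x // x ∈ V}, Real.exp (-(c1 * e)) * M0 ≤ A'.card →
      ¬ finrank ℝ (vectorSpan ℝ ((A'.map (Function.Embedding.subtype _) : Finset E) : Set E))
        ≤ k / 2 := by
    intro A' hA' hfr
    have h1 := hB (A'.map (Function.Embedding.subtype _)) hfr (hno.mono (by
      intro x hx
      obtain ⟨z, hz, rfl⟩ := Finset.mem_map.1 hx
      exact z.2))
    rw [Finset.card_map] at h1
    have h2 : Real.exp (-(c1 * e)) * M0 = 2 * Real.exp t := by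
      rw [hM0]
      calc _ = 2 * (Real.exp (-(c1 * e)) * Real.exp (c1 * e)) * Real.exp t := by ring
        _ = _ := by rw [hexpinv]; ring
    have h3 := Real.exp_pos t
    linarith
  have hHyp : Hyp (Finset.univ : Finset {x // x ∈ V}) c (3 * n ^ 2) (2 * δ) M0 := by
    intro A _ B _ hA hBc a b
    by_contra hlt
    rw [not_le] at hlt
    have hAne : A.Nonempty := by
      rw [← Finset.card_pos]
      have : (0 : ℝ) < A.card := by linarith
      exact_mod_cast this
    have hBne : B.Nonempty := by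
      rw [← Finset.card_pos]
      have : (0 : ℝ) < B.card := by linarith
      exact_mod_cast this
    have h2δ : 2 * δ ≤ Real.exp (-(c1 * e)) := by
      rw [hδ]; nlinarith
    obtain ⟨A', hA', B', hB', hAc, hBc', hex⟩ := hpal L hLL1 _ _ c (k + 2) (by omega) hrank
      a b A B hAne hBne (by
        rw [← he]
        have h1 : (0 : ℝ) < Real.exp (c1 * e) := Real.exp_pos _
        have h2 : 2 * δ * ((A.card : ℝ) * B.card) ≤
            Real.exp (-(c1 * e)) * ((A.card : ℝ) * B.card) :=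
          mul_le_mul_of_nonneg_right h2δ (by positivity)
        have h3 := mul_le_mul_of_nonneg_right (hlt.le.trans h2) h1.le
        refine (le_trans (le_of_eq ?_) h3).trans (le_of_eq ?_)
        · congr!
        · calc Real.exp (-(c1 * e)) * ((A.card : ℝ) * B.card) * Real.exp (c1 * e)
              = (Real.exp (-(c1 * e)) * Real.exp (c1 * e)) * ((A.card : ℝ) * B.card) := by ring
            _ = _ := by rw [hexpinv, one_mul])
    rw [← he] at hAc hBc'
    have hAc2 : Real.exp (-(c1 * e)) * M0 ≤ A'.card :=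
      (mul_le_mul_of_nonneg_left hA hexppos.le).trans hAc
    have hBc2 : Real.exp (-(c1 * e)) * M0 ≤ B'.card :=
      (mul_le_mul_of_nonneg_left hBc hexppos.le).trans hBc'
    have h4 := finrank_add_le V (A'.map (Function.Embedding.subtype _))
      (B'.map (Function.Embedding.subtype _))
      (by
        intro x hx
        obtain ⟨z, hz, rfl⟩ := Finset.mem_map.1 hx
        exact z.2)
      (by
        intro x hx
        obtain ⟨z, hz, rfl⟩ := Finset.mem_map.1 hx
        exact z.2)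
      (orth_of_inner _ _ (by
        intro x hx x' hx' y hy y' hy'
        obtain ⟨z, hz, rfl⟩ := Finset.mem_map.1 hx
        obtain ⟨z', hz', rfl⟩ := Finset.mem_map.1 hx'
        obtain ⟨u, hu, rfl⟩ := Finset.mem_map.1 hy
        obtain ⟨u', hu', rfl⟩ := Finset.mem_map.1 hy'
        simp only [Function.Embedding.subtype_apply]
        rcases hex with ⟨i, hi⟩ | ⟨j, hj⟩
        · have e1 := hi z hz u hu
          have e2 := hi z hz u' hu'
          have e3 := hi z' hz' u hu
          have e4 := hi z' hz' u' hu'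
          simp only [c] at e1 e2 e3 e4
          linarith
        · have e1 := hj z hz u hu
          have e2 := hj z hz u' hu'
          have e3 := hj z' hz' u hu
          have e4 := hj z' hz' u' hu'
          simp only [c] at e1 e2 e3 e4
          linarith))
    have h5 := hbig A' hAc2
    have h6 := hbig B' hBc2
    omega
  obtain ⟨w, -, hw⟩ := hcl _ _ c δ M0 hδpos (by
      rw [hδ]
      calc δ0 * Real.exp (-(c1 * e)) * (6 * (n : ℝ) ^ 3)
          = (δ0 * (6 * (n : ℝ) ^ 3)) * Real.exp (-(c1 * e)) := by ring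
        _ ≤ 1 * 1 := mul_le_mul hδ0n hexp1 hexppos.le zero_le_one
        _ = 1 := one_mul _) hM01 hHyp (by
      -- size
      have hcard : ((Finset.univ : Finset {x // x ∈ V}).card : ℝ) = V.card := by simp
      rw [hcard]
      have h1 : δ ^ C = δ0 ^ C * Real.exp (-(C * (c1 * e))) := by
        rw [hδ, mul_pow, ← Real.exp_nat_mul]
        congr 2
        ring
      have h2 : 2 ≤ δ0 ^ C * Real.exp e := by
        have h3 : (2 : ℝ) * (6 * (n : ℝ) ^ 3 + 2) ^ C ≤ L := by exact_mod_cast hLL2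
        have h4 : (L : ℝ) ≤ e := by rw [he]; exact le_self_pow₀ hLr (by norm_num)
        have h5 := Real.add_one_le_exp e
        have h6 : (2 : ℝ) * (6 * (n : ℝ) ^ 3 + 2) ^ C ≤ Real.exp e := by linarith
        rw [hδ0, one_div, inv_pow, ← div_eq_inv_mul, le_div_iff₀ (by positivity)]
        exact h6
      calc M0 = 2 * (Real.exp (c1 * e) * Real.exp t) := by rw [hM0]; ring
        _ ≤ (δ0 ^ C * Real.exp e) * (Real.exp (c1 * e) * Real.exp t) :=
          mul_le_mul_of_nonneg_right h2 (by positivity)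
        _ = δ ^ C * Real.exp (t + (((C + 1) * c1 + 1 : ℕ) : ℝ) * (L : ℝ) ^ 13) := by
          rw [h1, ← he]
          push_cast
          have : Real.exp (-(C * (c1 * e))) * Real.exp (t + ((C + 1) * c1 + 1) * e)
              = Real.exp e * (Real.exp (c1 * e) * Real.exp t) := by
            rw [← Real.exp_add, ← Real.exp_add, ← Real.exp_add]
            congr 1
            ring
          rw [mul_assoc (δ0 ^ C) (Real.exp (-(C * (c1 * e)))), this]
          ring
        _ ≤ δ ^ C * V.card := mul_le_mul_of_nonneg_left hcon.le (by positivity))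
  refine hno ⟨fun i => (w i : E), fun i => (w i).2, ?_⟩
  intro i j i' j' hij hij' hd
  refine hw i j i' j' hij hij' ?_
  simp only [c]
  rw [hd]

lemma bd_zero (E : Type) [NormedAddCommGroup E] [InnerProductSpace ℝ E] [FiniteDimensional ℝ E]
    (n : ℕ) : Bd E n 0 0 := by
  intro V hV _
  have h1 : vectorSpan ℝ (V : Set E) = ⊥ := by
    rw [← Submodule.finrank_eq_zero (R := ℝ)]
    omega
  rw [vectorSpan_eq_bot_iff_subsingleton] at h1
  rw [Real.exp_zero]
  have : V.card ≤ 1 := Finset.card_le_one.2 (fun a ha b hb => h1 ha hb)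
  exact_mod_cast this

lemma choose_L (c L0 : ℕ) (η : ℝ) (hη : 0 < η) : ∃ K0 : ℕ, ∀ k, K0 ≤ k → ∃ L, L0 ≤ L ∧
    k + 3 ≤ L ^ 16 ∧ c * (L : ℝ) ^ 13 ≤ η * k := by
  obtain ⟨m, hm⟩ := exists_nat_ge (c * 2 ^ 17 / η)
  set L1 := max L0 (m + 1) with hL1
  obtain ⟨K1, hK1⟩ := exists_nat_ge (c * (L1 : ℝ) ^ 13 / η)
  refine ⟨max 3 K1, fun k hk => ?_⟩
  have hk3 : 3 ≤ k := (le_max_left _ _).trans hk
  have hkK1 : K1 ≤ k := (le_max_right _ _).trans hk
  have hex : ∃ L, L1 ≤ L ∧ k + 3 ≤ L ^ 16 := by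
    refine ⟨L1 + k + 3, by omega, ?_⟩
    calc k + 3 ≤ L1 + k + 3 := by omega
      _ ≤ (L1 + k + 3) ^ 16 := Nat.le_self_pow (by norm_num) _
  classical
  obtain ⟨hL1', hL2⟩ := Nat.find_spec hex
  set L := Nat.find hex with hLdef
  refine ⟨L, (le_max_left _ _).trans hL1', hL2, ?_⟩
  rcases hL1'.eq_or_lt with h | h
  · rw [← h]
    rw [div_le_iff₀ hη] at hK1
    have : (K1 : ℝ) ≤ k := by exact_mod_cast hkK1
    nlinarith
  · have h1 : ¬ (L1 ≤ L - 1 ∧ k + 3 ≤ (L - 1) ^ 16) := Nat.find_min hex (by omega)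
    have h2 : (L - 1) ^ 16 < k + 3 := by
      by_contra h3
      exact h1 ⟨by omega, not_lt.1 h3⟩
    have hm1 : m + 1 ≤ L1 := le_max_right _ _
    have h4 : L ≤ 2 * (L - 1) := by omega
    have h5 : L ^ 16 ≤ 2 ^ 17 * k := by
      calc L ^ 16 ≤ (2 * (L - 1)) ^ 16 := Nat.pow_le_pow_left h4 _
        _ = 2 ^ 16 * (L - 1) ^ 16 := by rw [mul_pow]
        _ ≤ 2 ^ 16 * (2 * k) := Nat.mul_le_mul_left _ (by omega)
        _ = 2 ^ 17 * k := by ring
    have h6 : (L : ℝ) ^ 16 ≤ 2 ^ 17 * k := by exact_mod_cast h5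
    have hLpos : (1 : ℝ) ≤ L := by exact_mod_cast (by omega : 1 ≤ L)
    have h7 : (c : ℝ) * 2 ^ 17 ≤ η * L := by
      rw [div_le_iff₀ hη] at hm
      have : (m : ℝ) ≤ L := by exact_mod_cast (by omega : m ≤ L)
      nlinarith
    have h8 : η * L ≤ η * (L : ℝ) ^ 3 :=
      mul_le_mul_of_nonneg_left (le_self_pow₀ hLpos (by norm_num)) hη.le
    have h9 : (c * (L : ℝ) ^ 13) * (L : ℝ) ^ 3 ≤ (η * k) * (L : ℝ) ^ 3 := by
      calc ((c : ℝ) * (L : ℝ) ^ 13) * (L : ℝ) ^ 3 = (c : ℝ) * (L : ℝ) ^ 16 := by ring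
        _ ≤ (c : ℝ) * (2 ^ 17 * (k : ℝ)) := mul_le_mul_of_nonneg_left h6 (Nat.cast_nonneg _)
        _ = ((c : ℝ) * 2 ^ 17) * (k : ℝ) := by ring
        _ ≤ (η * (L : ℝ) ^ 3) * k :=
          mul_le_mul_of_nonneg_right (h7.trans h8) (Nat.cast_nonneg _)
        _ = _ := by ring
    exact le_of_mul_le_mul_right h9 (by positivity)

theorem main_bound (n : ℕ) (η : ℝ) (hη : 0 < η) : ∃ B : ℝ, ∀ (E : Type) [NormedAddCommGroup E]
    [InnerProductSpace ℝ E] [FiniteDimensional ℝ E] (k : ℕ), Bd E n k (2 * η * k + B) := by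
  obtain ⟨c, L0, hrec⟩ := recursion n
  obtain ⟨K0, hK0⟩ := choose_L c L0 η hη
  set L2 := L0 + K0 + 3 with hL2
  set W : ℝ := c * (L2 : ℝ) ^ 13 with hW
  have hW0 : 0 ≤ W := by positivity
  refine ⟨K0 * W, ?_⟩
  intro E _ _ _
  have key : ∀ k, Bd E n k (2 * η * k + (min k K0 : ℕ) * W) := by
    intro k
    induction k using Nat.strong_induction_on with
    | _ k ih =>
      rcases Nat.eq_zero_or_pos k with h0 | hpos
      · subst h0
        have := bd_zero E n
        simpa using this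
      · have ih' := ih (k / 2) (by omega)
        have ht : 0 ≤ 2 * η * ((k / 2 : ℕ) : ℝ) + (min (k / 2) K0 : ℕ) * W := by positivity
        have hhalf : (((k / 2 : ℕ) : ℝ)) * 2 ≤ k := by
          exact_mod_cast (by omega : (k / 2) * 2 ≤ k)
        rcases lt_or_ge k K0 with hk | hk
        · have h1 := hrec L2 (by omega) E k _ ht (by
            calc k + 3 ≤ L2 := by omega
              _ ≤ L2 ^ 16 := Nat.le_self_pow (by norm_num) _) ih'
          intro V hV hno
          refine (h1 V hV hno).trans (Real.exp_le_exp.2 ?_)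
          have h2 : ((min (k / 2) K0 : ℕ) : ℝ) + 1 ≤ ((min k K0 : ℕ) : ℝ) := by
            exact_mod_cast (by omega : min (k / 2) K0 + 1 ≤ min k K0)
          have h3 := mul_le_mul_of_nonneg_right h2 hW0
          have h4 : 2 * η * ((k / 2 : ℕ) : ℝ) ≤ 2 * η * k := by
            refine mul_le_mul_of_nonneg_left ?_ (by positivity)
            have : (0 : ℝ) ≤ ((k / 2 : ℕ) : ℝ) := Nat.cast_nonneg _
            linarith
          rw [add_mul, one_mul] at h3
          linarith
        · obtain ⟨L, hL, hkL, hcost⟩ := hK0 k hk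
          have h1 := hrec L hL E k _ ht hkL ih'
          intro V hV hno
          refine (h1 V hV hno).trans (Real.exp_le_exp.2 ?_)
          have h2 : ((min (k / 2) K0 : ℕ) : ℝ) ≤ ((min k K0 : ℕ) : ℝ) := by
            exact_mod_cast (by omega : min (k / 2) K0 ≤ min k K0)
          have h3 := mul_le_mul_of_nonneg_right h2 hW0
          have h4 : 2 * η * ((k / 2 : ℕ) : ℝ) ≤ η * k := by
            have := mul_le_mul_of_nonneg_left hhalf hη.le
            linarith
          linarith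
  intro k V hV hno
  refine (key k V hV hno).trans (Real.exp_le_exp.2 ?_)
  have h2 : ((min k K0 : ℕ) : ℝ) ≤ (K0 : ℝ) := by
    exact_mod_cast (by omega : min k K0 ≤ K0)
  have h3 := mul_le_mul_of_nonneg_right h2 hW0
  linarith

end Pool.Agent.Lib.MP_ba5def_co
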