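import Pool.Agent.Lib.MP_ba5def_co.Core2

/-!
From a palette of row functions and column functions to an ordered normalisable system.
-/

set_option autoImplicit false

namespace Pool.Agent.Lib.MP_ba5def_co

open Finset

section halving

variable {α β : Type}

/-- Median of a real function on a nonempty finite set. -/
lemma median (A : Finset α) (hA : A.Nonempty) (f : α → ℝ) :
    ∃ θ : ℝ, A.card ≤ 2 * (A.filter (fun x => f x ≤ θ)).card ∧
      A.card ≤ 2 * (A.filter (fun x => θ ≤ f x)).card := by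
  classical
  -- values with at least half of the points below
  let V := (A.image f).filter (fun θ => A.card ≤ 2 * (A.filter (fun x => f x ≤ θ)).card)
  have hV : V.Nonempty := by
    obtain ⟨x, hx, hmax⟩ := A.exists_max_image f hA
    refine ⟨f x, Finset.mem_filter.2 ⟨Finset.mem_image_of_mem _ hx, ?_⟩⟩
    have : A.filter (fun y => f y ≤ f x) = A := Finset.filter_true_of_mem hmax
    rw [this]; omega
  obtain ⟨θ, hθ, hmin⟩ := V.exists_min_image id hV
  have hθ2 := (Finset.mem_filter.1 hθ).2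
  refine ⟨θ, hθ2, ?_⟩
  have hlt : 2 * (A.filter (fun x => f x < θ)).card ≤ A.card := by
    by_contra hcon
    push Not at hcon
    have hne : (A.filter (fun x => f x < θ)).Nonempty := by
      rw [← Finset.card_pos]
      have := hA.card_pos
      omega
    obtain ⟨x, hx, hmax⟩ := (A.filter (fun x => f x < θ)).exists_max_image f hne
    have hxA := (Finset.mem_filter.1 hx).1
    have hxθ := (Finset.mem_filter.1 hx).2
    have hsub : A.filter (fun y => f y < θ) ⊆ A.filter (fun y => f y ≤ f x) := by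
      intro y hy
      exact Finset.mem_filter.2 ⟨(Finset.mem_filter.1 hy).1, hmax y hy⟩
    have hcard := Finset.card_le_card hsub
    have hfx : f x ∈ V := Finset.mem_filter.2 ⟨Finset.mem_image_of_mem _ hxA, by omega⟩
    have := hmin (f x) hfx
    simp only [id] at this
    linarith
  have hsum : (A.filter (fun x => f x < θ)).card + (A.filter (fun x => θ ≤ f x)).card = A.card := by
    have h1 := Finset.card_filter_add_card_filter_not (s := A) (fun x => f x < θ)
    have h2 : A.filter (fun x => ¬ f x < θ) = A.filter (fun x => θ ≤ f x) := by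
      ext y; simp
    rw [h2] at h1
    exact h1
  omega

/-- Two functions can be separated by a constant after halving both sides. -/
lemma split_lemma (A : Finset α) (B : Finset β) (hA : A.Nonempty) (f : α → ℝ) (g : β → ℝ) :
    ∃ A' ⊆ A, ∃ B' ⊆ B, A.card ≤ 2 * A'.card ∧ B.card ≤ 2 * B'.card ∧ ∃ θ : ℝ,
      ((∀ x ∈ A', f x ≤ θ) ∧ (∀ y ∈ B', θ ≤ g y)) ∨
      ((∀ x ∈ A', θ ≤ f x) ∧ (∀ y ∈ B', g y ≤ θ)) := by
  classical
  obtain ⟨θ, h1, h2⟩ := median A hA f
  have hsum := Finset.card_filter_add_card_filter_not (s := B) (fun y => θ ≤ g y)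
  by_cases h : B.card ≤ 2 * (B.filter (fun y => θ ≤ g y)).card
  · exact ⟨A.filter (fun x => f x ≤ θ), Finset.filter_subset _ _,
      B.filter (fun y => θ ≤ g y), Finset.filter_subset _ _, h1, h, θ,
      Or.inl ⟨fun x hx => (Finset.mem_filter.1 hx).2, fun y hy => (Finset.mem_filter.1 hy).2⟩⟩
  · refine ⟨A.filter (fun x => θ ≤ f x), Finset.filter_subset _ _,
      B.filter (fun y => ¬ θ ≤ g y), Finset.filter_subset _ _, h2, by omega, θ,
      Or.inr ⟨fun x hx => (Finset.mem_filter.1 hx).2, fun y hy => ?_⟩⟩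
    have := (Finset.mem_filter.1 hy).2
    push Not at this
    exact this.le

/-- Finitely many hereditary properties, each attainable after a bounded loss, are simultaneously
attainable. -/
lemma all_props {ι : Type} (I : Finset ι) (Pr : ι → Finset α → Finset β → Prop)
    (hher : ∀ i A A' B B', A' ⊆ A → B' ⊆ B → Pr i A B → Pr i A' B')
    (hatt : ∀ i A B, A.Nonempty → B.Nonempty → ∃ A' ⊆ A, ∃ B' ⊆ B,
      A.card ≤ 4 * A'.card ∧ B.card ≤ 4 * B'.card ∧ Pr i A' B')
    (A : Finset α) (B : Finset β) (hA : A.Nonempty) (hB : B.Nonempty) :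
    ∃ A' ⊆ A, ∃ B' ⊆ B, A.card ≤ 4 ^ I.card * A'.card ∧ B.card ≤ 4 ^ I.card * B'.card ∧
      ∀ i ∈ I, Pr i A' B' := by
  classical
  induction I using Finset.induction_on with
  | empty => exact ⟨A, subset_rfl, B, subset_rfl, by simp, by simp, by simp⟩
  | insert i I hi ih =>
    obtain ⟨A1, hA1, B1, hB1, hcA, hcB, hP⟩ := ih
    have hA1ne : A1.Nonempty := by
      rw [← Finset.card_pos]
      rcases Nat.eq_zero_or_pos A1.card with h | h
      · rw [h, mul_zero] at hcA
        have := hA.card_pos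
        omega
      · exact h
    have hB1ne : B1.Nonempty := by
      rw [← Finset.card_pos]
      rcases Nat.eq_zero_or_pos B1.card with h | h
      · rw [h, mul_zero] at hcB
        have := hB.card_pos
        omega
      · exact h
    obtain ⟨A2, hA2, B2, hB2, hcA2, hcB2, hP2⟩ := hatt i A1 B1 hA1ne hB1ne
    refine ⟨A2, hA2.trans hA1, B2, hB2.trans hB1, ?_, ?_, ?_⟩
    · rw [Finset.card_insert_of_notMem hi, pow_succ]
      calc A.card ≤ 4 ^ I.card * A1.card := hcA
        _ ≤ 4 ^ I.card * (4 * A2.card) := Nat.mul_le_mul_left _ hcA2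
        _ = _ := by ring
    · rw [Finset.card_insert_of_notMem hi, pow_succ]
      calc B.card ≤ 4 ^ I.card * B1.card := hcB
        _ ≤ 4 ^ I.card * (4 * B2.card) := Nat.mul_le_mul_left _ hcB2
        _ = _ := by ring
    · intro k hk
      rcases Finset.mem_insert.1 hk with h | h
      · subst h; exact hP2
      · exact hher k A1 A2 B1 B2 hA2 hB2 (hP k h)

end halving

section norm

variable {α β : Type}

/-- `T' ≥ T` can be normalised against each other on `A × B`. -/
def NormOn (L R : ℕ) (M T T' : α → β → ℝ) (A : Finset α) (B : Finset β) : Prop :=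
  (∀ x ∈ A, ∀ y ∈ B, T x y ≤ T' x y) ∧ ∃ N : α → β → ℝ, HasRank R N ∧
    ∀ x ∈ A, ∀ y ∈ B, (T x y ≤ M x y → -(1 / (L : ℝ)) ≤ N x y) ∧
      (M x y = T x y → N x y ≤ 0) ∧
      (M x y = T' x y → T x y < T' x y → 1 ≤ N x y) ∧
      (T x y ≤ M x y → M x y ≤ T' x y → N x y ≤ L + 1)

/-- Comparable and normalisable. -/
def CompOn (L R : ℕ) (M T T' : α → β → ℝ) (A : Finset α) (B : Finset β) : Prop :=
  NormOn L R M T T' A B ∨ NormOn L R M T' T A B

lemma CompOn.symm {L R : ℕ} {M T T' : α → β → ℝ} {A : Finset α} {B : Finset β}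
    (h : CompOn L R M T T' A B) : CompOn L R M T' T A B := Or.symm h

lemma NormOn.mono {L R : ℕ} {M T T' : α → β → ℝ} {A A' : Finset α} {B B' : Finset β}
    (hA : A' ⊆ A) (hB : B' ⊆ B) (h : NormOn L R M T T' A B) : NormOn L R M T T' A' B' := by
  obtain ⟨h1, N, h2, h3⟩ := h
  exact ⟨fun x hx y hy => h1 x (hA hx) y (hB hy), N, h2,
    fun x hx y hy => h3 x (hA hx) y (hB hy)⟩

lemma CompOn.mono {L R : ℕ} {M T T' : α → β → ℝ} {A A' : Finset α} {B B' : Finset β}
    (hA : A' ⊆ A) (hB : B' ⊆ B) (h : CompOn L R M T T' A B) : CompOn L R M T T' A' B' :=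
  h.imp (NormOn.mono hA hB) (NormOn.mono hA hB)

/-- Two row functions in the right order are normalisable. -/
lemma normOn_row_row {L R : ℕ} {M : α → β → ℝ} (hM : HasRank R M) (a a' : α → ℝ)
    (A : Finset α) (B : Finset β) (h : ∀ x ∈ A, a x ≤ a' x) :
    NormOn L (R + 1) M (fun x _ => a x) (fun x _ => a' x) A B := by
  refine ⟨fun x hx y _ => h x hx, fun x y => (M x y - a x) * (a' x - a x)⁻¹,
    (hM.sub_row a).row_mul _, fun x hx y hy => ⟨?_, ?_, ?_, ?_⟩⟩
  · intro h1
    beta_reduce at *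
    have : 0 ≤ (M x y - a x) * (a' x - a x)⁻¹ :=
      mul_nonneg (by linarith) (inv_nonneg.2 (by linarith [h x hx]))
    have h2 : 0 ≤ 1 / (L : ℝ) := by positivity
    linarith
  · intro h1
    beta_reduce at *
    rw [h1]; simp
  · intro h1 h2
    beta_reduce at *
    rw [h1, mul_inv_cancel₀ (by linarith)]
  · intro h1 h2
    beta_reduce at *
    have h4 : (M x y - a x) * (a' x - a x)⁻¹ ≤ 1 := by
      rcases (h x hx).eq_or_lt with h3 | h3
      · have : M x y - a x = 0 := by linarith
        rw [this, zero_mul]; norm_num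
      · rw [← div_eq_mul_inv, div_le_one (by linarith)]
        linarith
    have : (0 : ℝ) ≤ L := Nat.cast_nonneg _
    linarith

lemma normOn_col_col {L R : ℕ} {M : α → β → ℝ} (hM : HasRank R M) (b b' : β → ℝ)
    (A : Finset α) (B : Finset β) (h : ∀ y ∈ B, b y ≤ b' y) :
    NormOn L (R + 1) M (fun _ y => b y) (fun _ y => b' y) A B := by
  refine ⟨fun x _ y hy => h y hy, fun x y => (M x y - b y) * (b' y - b y)⁻¹,
    (hM.sub_col b).col_mul _, fun x hx y hy => ⟨?_, ?_, ?_, ?_⟩⟩
  · intro h1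
    beta_reduce at *
    have : 0 ≤ (M x y - b y) * (b' y - b y)⁻¹ :=
      mul_nonneg (by linarith) (inv_nonneg.2 (by linarith [h y hy]))
    have h2 : 0 ≤ 1 / (L : ℝ) := by positivity
    linarith
  · intro h1
    beta_reduce at *
    rw [h1]; simp
  · intro h1 h2
    beta_reduce at *
    rw [h1, mul_inv_cancel₀ (by linarith)]
  · intro h1 h2
    beta_reduce at *
    have h4 : (M x y - b y) * (b' y - b y)⁻¹ ≤ 1 := by
      rcases (h y hy).eq_or_lt with h3 | h3
      · have : M x y - b y = 0 := by linarith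
        rw [this, zero_mul]; norm_num
      · rw [← div_eq_mul_inv, div_le_one (by linarith)]
        linarith
    have : (0 : ℝ) ≤ L := Nat.cast_nonneg _
    linarith

/-- Row below column, first case: the row gap dominates. -/
lemma normOn_row_col₁ {L R : ℕ} (hL : 1 ≤ L) {M : α → β → ℝ} (hM : HasRank R M) (a : α → ℝ)
    (b : β → ℝ) (θ : ℝ) (A : Finset α) (B : Finset β) (ha : ∀ x ∈ A, a x ≤ θ)
    (hb : ∀ y ∈ B, θ ≤ b y) (hab : ∀ x ∈ A, ∀ y ∈ B, b y - θ ≤ L * (θ - a x)) :
    NormOn L (R + 1) M (fun x _ => a x) (fun _ y => b y) A B := by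
  have hL' : (1 : ℝ) ≤ L := by exact_mod_cast hL
  refine ⟨fun x hx y hy => (ha x hx).trans (hb y hy), fun x y => (M x y - a x) * (θ - a x)⁻¹,
    (hM.sub_row a).row_mul _, fun x hx y hy => ⟨?_, ?_, ?_, ?_⟩⟩
  · intro h1
    beta_reduce at *
    have : 0 ≤ (M x y - a x) * (θ - a x)⁻¹ :=
      mul_nonneg (by linarith) (inv_nonneg.2 (by linarith [ha x hx]))
    have h2 : 0 ≤ 1 / (L : ℝ) := by positivity
    linarith
  · intro h1
    beta_reduce at *
    rw [h1]; simp
  · intro h1 h2
    beta_reduce at *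
    have h3 : 0 < θ - a x := by
      rcases (ha x hx).eq_or_lt with h4 | h4
      · exfalso
        have := hab x hx y hy
        rw [h4] at this h2
        simp only [sub_self, mul_zero] at this
        linarith [hb y hy]
      · linarith
    rw [h1, ← div_eq_mul_inv, one_le_div h3]
    linarith [hb y hy]
  · intro h1 h2
    beta_reduce at *
    rcases (ha x hx).eq_or_lt with h4 | h4
    · have : (θ - a x)⁻¹ = 0 := by rw [h4]; simp
      simp only [this, mul_zero]
      linarith
    · have h3 : 0 < θ - a x := by linarith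
      rw [← div_eq_mul_inv, div_le_iff₀ h3]
      have := hab x hx y hy
      linarith

/-- Row below column, second case: the column gap dominates. -/
lemma normOn_row_col₂ {L R : ℕ} (hL : 1 ≤ L) {M : α → β → ℝ} (hM : HasRank R M) (a : α → ℝ)
    (b : β → ℝ) (θ : ℝ) (A : Finset α) (B : Finset β) (ha : ∀ x ∈ A, a x ≤ θ)
    (hb : ∀ y ∈ B, θ ≤ b y) (hab : ∀ x ∈ A, ∀ y ∈ B, L * (θ - a x) ≤ b y - θ) :
    NormOn L (R + 1) M (fun x _ => a x) (fun _ y => b y) A B := by
  have hL' : (1 : ℝ) ≤ L := by exact_mod_cast hL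
  have hL0 : (0 : ℝ) < L := by linarith
  refine ⟨fun x hx y hy => (ha x hx).trans (hb y hy), fun x y => (M x y - θ) * (b y - θ)⁻¹,
    ((hM.sub_row (fun _ => θ)).col_mul _), fun x hx y hy => ⟨?_, ?_, ?_, ?_⟩⟩
  · intro h1
    beta_reduce at *
    rcases (hb y hy).eq_or_lt with h4 | h4
    · have : (b y - θ)⁻¹ = 0 := by rw [← h4]; simp
      simp only [this, mul_zero]
      have h2 : 0 ≤ 1 / (L : ℝ) := by positivity
      linarith
    · have h3 : 0 < b y - θ := by linarith
      rw [← div_eq_mul_inv, neg_le_iff_add_nonneg, div_add_div _ _ h3.ne' hL0.ne']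
      refine div_nonneg ?_ (by positivity)
      have := hab x hx y hy
      nlinarith
  · intro h1
    beta_reduce at *
    rw [h1]
    exact mul_nonpos_of_nonpos_of_nonneg (by linarith [ha x hx])
      (inv_nonneg.2 (by linarith [hb y hy]))
  · intro h1 h2
    beta_reduce at *
    have h3 : 0 < b y - θ := by
      rcases (hb y hy).eq_or_lt with h4 | h4
      · exfalso
        have := hab x hx y hy
        rw [← h4] at this h2
        have h5 : 0 ≤ θ - a x := by linarith [ha x hx]
        nlinarith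
      · linarith
    rw [h1, mul_inv_cancel₀ h3.ne']
  · intro h1 h2
    beta_reduce at *
    rcases (hb y hy).eq_or_lt with h4 | h4
    · have : (b y - θ)⁻¹ = 0 := by rw [← h4]; simp
      simp only [this, mul_zero]
      linarith
    · have h3 : 0 < b y - θ := by linarith
      rw [← div_eq_mul_inv, div_le_iff₀ h3]
      nlinarith

/-- Column below row, first case: the column gap dominates. -/
lemma normOn_col_row₁ {L R : ℕ} (hL : 1 ≤ L) {M : α → β → ℝ} (hM : HasRank R M) (a : α → ℝ)
    (b : β → ℝ) (θ : ℝ) (A : Finset α) (B : Finset β) (ha : ∀ x ∈ A, θ ≤ a x)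
    (hb : ∀ y ∈ B, b y ≤ θ) (hab : ∀ x ∈ A, ∀ y ∈ B, a x - θ ≤ L * (θ - b y)) :
    NormOn L (R + 1) M (fun _ y => b y) (fun x _ => a x) A B := by
  have hL' : (1 : ℝ) ≤ L := by exact_mod_cast hL
  refine ⟨fun x hx y hy => (hb y hy).trans (ha x hx), fun x y => (M x y - b y) * (θ - b y)⁻¹,
    (hM.sub_col b).col_mul _, fun x hx y hy => ⟨?_, ?_, ?_, ?_⟩⟩
  · intro h1
    beta_reduce at *
    have : 0 ≤ (M x y - b y) * (θ - b y)⁻¹ :=
      mul_nonneg (by linarith) (inv_nonneg.2 (by linarith [hb y hy]))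
    have h2 : 0 ≤ 1 / (L : ℝ) := by positivity
    linarith
  · intro h1
    beta_reduce at *
    rw [h1]; simp
  · intro h1 h2
    beta_reduce at *
    have h3 : 0 < θ - b y := by
      rcases (hb y hy).eq_or_lt with h4 | h4
      · exfalso
        have := hab x hx y hy
        rw [h4] at this h2
        simp only [sub_self, mul_zero] at this
        linarith [ha x hx]
      · linarith
    rw [h1, ← div_eq_mul_inv, one_le_div h3]
    linarith [ha x hx]
  · intro h1 h2
    beta_reduce at *
    rcases (hb y hy).eq_or_lt with h4 | h4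
    · have : (θ - b y)⁻¹ = 0 := by rw [h4]; simp
      simp only [this, mul_zero]
      linarith
    · have h3 : 0 < θ - b y := by linarith
      rw [← div_eq_mul_inv, div_le_iff₀ h3]
      have := hab x hx y hy
      linarith

/-- Column below row, second case: the row gap dominates. -/
lemma normOn_col_row₂ {L R : ℕ} (hL : 1 ≤ L) {M : α → β → ℝ} (hM : HasRank R M) (a : α → ℝ)
    (b : β → ℝ) (θ : ℝ) (A : Finset α) (B : Finset β) (ha : ∀ x ∈ A, θ ≤ a x)
    (hb : ∀ y ∈ B, b y ≤ θ) (hab : ∀ x ∈ A, ∀ y ∈ B, L * (θ - b y) ≤ a x - θ) :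
    NormOn L (R + 1) M (fun _ y => b y) (fun x _ => a x) A B := by
  have hL' : (1 : ℝ) ≤ L := by exact_mod_cast hL
  have hL0 : (0 : ℝ) < L := by linarith
  refine ⟨fun x hx y hy => (hb y hy).trans (ha x hx), fun x y => (M x y - θ) * (a x - θ)⁻¹,
    ((hM.sub_row (fun _ => θ)).row_mul _), fun x hx y hy => ⟨?_, ?_, ?_, ?_⟩⟩
  · intro h1
    beta_reduce at *
    rcases (ha x hx).eq_or_lt with h4 | h4
    · have : (a x - θ)⁻¹ = 0 := by rw [← h4]; simp
      simp only [this, mul_zero]
      have h2 : 0 ≤ 1 / (L : ℝ) := by positivity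
      linarith
    · have h3 : 0 < a x - θ := by linarith
      rw [← div_eq_mul_inv, neg_le_iff_add_nonneg, div_add_div _ _ h3.ne' hL0.ne']
      refine div_nonneg ?_ (by positivity)
      have := hab x hx y hy
      nlinarith
  · intro h1
    beta_reduce at *
    rw [h1]
    exact mul_nonpos_of_nonpos_of_nonneg (by linarith [hb y hy])
      (inv_nonneg.2 (by linarith [ha x hx]))
  · intro h1 h2
    beta_reduce at *
    have h3 : 0 < a x - θ := by
      rcases (ha x hx).eq_or_lt with h4 | h4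
      · exfalso
        have := hab x hx y hy
        rw [← h4] at this h2
        have h5 : 0 ≤ θ - b y := by linarith [hb y hy]
        nlinarith
      · linarith
    rw [h1, mul_inv_cancel₀ h3.ne']
  · intro h1 h2
    beta_reduce at *
    rcases (ha x hx).eq_or_lt with h4 | h4
    · have : (a x - θ)⁻¹ = 0 := by rw [← h4]; simp
      simp only [this, mul_zero]
      linarith
    · have h3 : 0 < a x - θ := by linarith
      rw [← div_eq_mul_inv, div_le_iff₀ h3]
      nlinarith

/-- Row against column: attainable after two halvings. -/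
lemma comp_row_col {L R : ℕ} (hL : 1 ≤ L) {M : α → β → ℝ} (hM : HasRank R M) (a : α → ℝ)
    (b : β → ℝ) (A : Finset α) (B : Finset β) (hA : A.Nonempty) :
    ∃ A' ⊆ A, ∃ B' ⊆ B, A.card ≤ 4 * A'.card ∧ B.card ≤ 4 * B'.card ∧
      CompOn L (R + 1) M (fun x _ => a x) (fun _ y => b y) A' B' := by
  obtain ⟨A1, hA1, B1, hB1, hcA, hcB, θ, hθ⟩ := split_lemma A B hA a b
  have hA1ne : A1.Nonempty := by
    rw [← Finset.card_pos]
    have := hA.card_pos
    omega
  rcases hθ with ⟨h1, h2⟩ | ⟨h1, h2⟩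
  · obtain ⟨A2, hA2, B2, hB2, hcA2, hcB2, φ, hφ⟩ :=
      split_lemma A1 B1 hA1ne (fun x => (L : ℝ) * (θ - a x)) (fun y => b y - θ)
    refine ⟨A2, hA2.trans hA1, B2, hB2.trans hB1, by omega, by omega, Or.inl ?_⟩
    rcases hφ with ⟨h3, h4⟩ | ⟨h3, h4⟩
    · exact normOn_row_col₂ hL hM a b θ A2 B2 (fun x hx => h1 x (hA2 hx))
        (fun y hy => h2 y (hB2 hy)) (fun x hx y hy => (h3 x hx).trans (h4 y hy))
    · exact normOn_row_col₁ hL hM a b θ A2 B2 (fun x hx => h1 x (hA2 hx))
        (fun y hy => h2 y (hB2 hy)) (fun x hx y hy => (h4 y hy).trans (h3 x hx))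
  · obtain ⟨A2, hA2, B2, hB2, hcA2, hcB2, φ, hφ⟩ :=
      split_lemma A1 B1 hA1ne (fun x => a x - θ) (fun y => (L : ℝ) * (θ - b y))
    refine ⟨A2, hA2.trans hA1, B2, hB2.trans hB1, by omega, by omega, Or.inr ?_⟩
    rcases hφ with ⟨h3, h4⟩ | ⟨h3, h4⟩
    · exact normOn_col_row₁ hL hM a b θ A2 B2 (fun x hx => h1 x (hA2 hx))
        (fun y hy => h2 y (hB2 hy)) (fun x hx y hy => (h3 x hx).trans (h4 y hy))
    · exact normOn_col_row₂ hL hM a b θ A2 B2 (fun x hx => h1 x (hA2 hx))
        (fun y hy => h2 y (hB2 hy)) (fun x hx y hy => (h4 y hy).trans (h3 x hx))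

lemma comp_row_row {L R : ℕ} {M : α → β → ℝ} (hM : HasRank R M) (a a' : α → ℝ)
    (A : Finset α) (B : Finset β) :
    ∃ A' ⊆ A, ∃ B' ⊆ B, A.card ≤ 4 * A'.card ∧ B.card ≤ 4 * B'.card ∧
      CompOn L (R + 1) M (fun x _ => a x) (fun x _ => a' x) A' B' := by
  classical
  have hsum := Finset.card_filter_add_card_filter_not (s := A) (fun x => a x ≤ a' x)
  by_cases h : A.card ≤ 4 * (A.filter (fun x => a x ≤ a' x)).card
  · exact ⟨_, Finset.filter_subset _ _, B, subset_rfl, h, by omega,
      Or.inl (normOn_row_row hM a a' _ _ (fun x hx => (Finset.mem_filter.1 hx).2))⟩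
  · refine ⟨_, Finset.filter_subset (fun x => ¬ a x ≤ a' x) _, B, subset_rfl, by omega, by omega,
      Or.inr (normOn_row_row hM a' a _ _ (fun x hx => ?_))⟩
    have := (Finset.mem_filter.1 hx).2
    push Not at this
    exact this.le

lemma comp_col_col {L R : ℕ} {M : α → β → ℝ} (hM : HasRank R M) (b b' : β → ℝ)
    (A : Finset α) (B : Finset β) :
    ∃ A' ⊆ A, ∃ B' ⊆ B, A.card ≤ 4 * A'.card ∧ B.card ≤ 4 * B'.card ∧
      CompOn L (R + 1) M (fun _ y => b y) (fun _ y => b' y) A' B' := by
  classical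
  have hsum := Finset.card_filter_add_card_filter_not (s := B) (fun y => b y ≤ b' y)
  by_cases h : B.card ≤ 4 * (B.filter (fun y => b y ≤ b' y)).card
  · exact ⟨A, subset_rfl, _, Finset.filter_subset _ _, by omega, h,
      Or.inl (normOn_col_col hM b b' _ _ (fun x hx => (Finset.mem_filter.1 hx).2))⟩
  · refine ⟨A, subset_rfl, _, Finset.filter_subset (fun y => ¬ b y ≤ b' y) _, by omega, by omega,
      Or.inr (normOn_col_col hM b' b _ _ (fun x hx => ?_))⟩
    have := (Finset.mem_filter.1 hx).2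
    push Not at this
    exact this.le

end norm

end Pool.Agent.Lib.MP_ba5def_co
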