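import Pool.Agent.Lib.MP_ba5def_co.Palette

/-!
The palette theorem: a real matrix of rank at most `L ^ 16 - 1` whose entries, up to an
`exp (- c L ^ 13)` proportion, lie in a palette of `s` row functions and `s` column functions,
has a rectangle of relative size `exp (- c L ^ 13)` on which it is equal to one of them.
-/

set_option autoImplicit false

namespace Pool.Agent.Lib.MP_ba5def_co

open Finset

/-- The family of row functions and column functions. -/
def TT {α β : Type} {s : ℕ} (a : Fin s → α → ℝ) (b : Fin s → β → ℝ) :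
    Fin s ⊕ Fin s → α → β → ℝ
  | Sum.inl i => fun x _ => a i x
  | Sum.inr j => fun _ y => b j y

lemma comp_TT {α β : Type} {s L R : ℕ} (hL : 1 ≤ L) {M : α → β → ℝ} (hM : HasRank R M)
    (a : Fin s → α → ℝ) (b : Fin s → β → ℝ) (k l : Fin s ⊕ Fin s)
    (A : Finset α) (B : Finset β) (hA : A.Nonempty) :
    ∃ A' ⊆ A, ∃ B' ⊆ B, A.card ≤ 4 * A'.card ∧ B.card ≤ 4 * B'.card ∧
      CompOn L (R + 1) M (TT a b k) (TT a b l) A' B' := by
  rcases k with i | j <;> rcases l with i' | j'
  · exact comp_row_row hM (a i) (a i') A B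
  · exact comp_row_col hL hM (a i) (b j') A B hA
  · obtain ⟨A', h1, B', h2, h3, h4, h5⟩ := comp_row_col hL hM (a i') (b j) A B hA
    exact ⟨A', h1, B', h2, h3, h4, h5.symm⟩
  · exact comp_col_col hM (b j) (b j') A B

lemma rank_TT {α β : Type} {s R : ℕ} {M : α → β → ℝ} (hM : HasRank R M)
    (a : Fin s → α → ℝ) (b : Fin s → β → ℝ) (k : Fin s ⊕ Fin s) :
    HasRank (R + 1) (fun x y => M x y - TT a b k x y) := by
  rcases k with i | j
  · exact hM.sub_row (a i)
  · exact hM.sub_col (b j)

open Classical in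
lemma card_eq_mass {α β : Type} (A : Finset α) (B : Finset β) (S : α → β → Prop) :
    mass (fun _ : A => (1 : ℝ)) (fun _ : B => (1 : ℝ)) (fun x y => S x y)
      = (((A ×ˢ B).filter (fun z : α × β => S z.1 z.2)).card : ℝ) := by
  unfold mass
  rw [Finset.card_filter, Finset.sum_product]
  push_cast
  rw [← Finset.sum_coe_sort A]
  refine Finset.sum_congr rfl (fun x _ => ?_)
  rw [← Finset.sum_coe_sort B]
  refine Finset.sum_congr rfl (fun y _ => ?_)
  simp

theorem palette (s : ℕ) : ∃ c L0 : ℕ, ∀ L : ℕ, L0 ≤ L → ∀ (α β : Type) (M : α → β → ℝ) (R : ℕ),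
    R + 1 ≤ L ^ 16 → HasRank R M → ∀ (a : Fin s → α → ℝ) (b : Fin s → β → ℝ)
    (A : Finset α) (B : Finset β), A.Nonempty → B.Nonempty →
    (((A ×ˢ B).filter (fun z => (∀ i, M z.1 z.2 ≠ a i z.1) ∧
      (∀ j, M z.1 z.2 ≠ b j z.2))).card : ℝ) * Real.exp (c * (L : ℝ) ^ 13)
      ≤ A.card * B.card →
    ∃ A' ⊆ A, ∃ B' ⊆ B, Real.exp (-(c * (L : ℝ) ^ 13)) * A.card ≤ A'.card ∧
      Real.exp (-(c * (L : ℝ) ^ 13)) * B.card ≤ B'.card ∧
      ((∃ i, ∀ x ∈ A', ∀ y ∈ B', M x y = a i x) ∨ (∃ j, ∀ x ∈ A', ∀ y ∈ B', M x y = b j y)) := by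
  classical
  obtain ⟨c, L1, hcore⟩ := core (Finset.univ : Finset (Fin s ⊕ Fin s)).toList.length
  set K : ℕ := 4 ^ (Finset.univ : Finset ((Fin s ⊕ Fin s) × (Fin s ⊕ Fin s))).card with hK
  have hKpos : 0 < K := by positivity
  refine ⟨c + 1, max L1 (K * K + 1), fun L hL α β M R hR hM a b A B hA hB hcard => ?_⟩
  have hLL1 : L1 ≤ L := le_trans (le_max_left _ _) hL
  have hLK : K * K + 1 ≤ L := le_trans (le_max_right _ _) hL
  have hL1 : 1 ≤ L := by omega
  have hLr : (1 : ℝ) ≤ L := by exact_mod_cast hL1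
  -- common restriction
  obtain ⟨A0, hA0, B0, hB0, hcA, hcB, hP⟩ := all_props
    (Finset.univ : Finset ((Fin s ⊕ Fin s) × (Fin s ⊕ Fin s)))
    (fun kl A B => CompOn L (R + 1) M (TT a b kl.1) (TT a b kl.2) A B)
    (fun i A A' B B' h1 h2 h => CompOn.mono h1 h2 h)
    (fun i A B hA hB => comp_TT hL1 hM a b i.1 i.2 A B hA) A B hA hB
  rw [← hK] at hcA hcB
  have hA0ne : A0.Nonempty := by
    rw [← Finset.card_pos]
    rcases Nat.eq_zero_or_pos A0.card with h | h
    · rw [h, mul_zero] at hcA
      have := hA.card_pos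
      omega
    · exact h
  have hB0ne : B0.Nonempty := by
    rw [← Finset.card_pos]
    rcases Nat.eq_zero_or_pos B0.card with h | h
    · rw [h, mul_zero] at hcB
      have := hB.card_pos
      omega
    · exact h
  -- the order relation
  let r : Fin s ⊕ Fin s → Fin s ⊕ Fin s → Prop := fun k l =>
    ∀ x ∈ A0, ∀ y ∈ B0, TT a b k x y ≤ TT a b l x y
  have htot : Std.Total r := ⟨fun k l => by
    rcases hP (k, l) (Finset.mem_univ _) with h | h
    · exact Or.inl h.1
    · exact Or.inr h.1⟩
  have htrans : IsTrans (Fin s ⊕ Fin s) r :=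
    ⟨fun k l m h1 h2 x hx y hy => (h1 x hx y hy).trans (h2 x hx y hy)⟩
  set lst := List.insertionSort r (Finset.univ : Finset (Fin s ⊕ Fin s)).toList with hlst
  have hlen : lst.length = (Finset.univ : Finset (Fin s ⊕ Fin s)).toList.length := by
    rw [hlst, List.length_insertionSort]
  have hpair : lst.Pairwise r := List.pairwise_insertionSort r _
  have hmem : ∀ k, k ∈ lst := by
    intro k
    rw [hlst, List.mem_insertionSort]
    simp
  set n := (Finset.univ : Finset (Fin s ⊕ Fin s)).toList.length with hn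
  let T : ℕ → A0 → B0 → ℝ := fun i x y => if h : i < lst.length then TT a b lst[i] x y else 0
  have hT : ∀ i (h : i < lst.length) x y, T i x y = TT a b lst[i] x y := by
    intro i h x y
    simp only [T, h, dif_pos]
  have hr : ∀ i j (hi : i < lst.length) (hj : j < lst.length), i < j → r lst[i] lst[j] := by
    intro i j hi hj hij
    exact List.pairwise_iff_getElem.1 hpair i j hi hj hij
  have hsys : Sys L (R + 1) n (fun (x : A0) (y : B0) => M x y) T := by
    refine ⟨?_, ?_, ?_⟩
    · intro i j hij hj x y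
      have hj' : j < lst.length := by omega
      have hi' : i < lst.length := by omega
      rcases hij.eq_or_lt with h | h
      · subst h; exact le_rfl
      · rw [hT i hi', hT j hj']
        exact hr i j hi' hj' h x x.2 y y.2
    · intro i hi
      have hi' : i < lst.length := by omega
      have := (rank_TT hM a b lst[i]).comp (fun x : A0 => (x : α)) (fun y : B0 => (y : β))
      exact this.congr (fun x y => by rw [hT i hi'])
    · intro i j hij hj
      have hj' : j < lst.length := by omega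
      have hi' : i < lst.length := by omega
      have hij' := hr i j hi' hj' hij
      rcases hP (lst[i], lst[j]) (Finset.mem_univ _) with h | h
      · obtain ⟨-, N, hN, hN'⟩ := h
        refine ⟨fun x y => N x y, hN.comp _ _, ?_, ?_, ?_, ?_⟩
        · intro x y h
          rw [hT i hi'] at h
          exact (hN' x x.2 y y.2).1 h
        · intro x y h
          rw [hT i hi'] at h
          exact (hN' x x.2 y y.2).2.1 h
        · intro x y h h'
          rw [hT j hj'] at h h'
          rw [hT i hi'] at h'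
          exact (hN' x x.2 y y.2).2.2.1 h h'
        · intro x y h h'
          rw [hT i hi'] at h
          rw [hT j hj'] at h'
          exact (hN' x x.2 y y.2).2.2.2 h h'
      · -- equal functions
        refine ⟨fun _ _ => 0, hasRank_zero.mono (by omega), ?_, ?_, ?_, ?_⟩
        · intro x y _
          have : 0 ≤ 1 / (L : ℝ) := by positivity
          linarith
        · intro x y _; exact le_rfl
        · intro x y _ h'
          exfalso
          rw [hT i hi', hT j hj'] at h'
          have := h.1 x x.2 y y.2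
          simp only at this
          linarith
        · intro x y _ _
          linarith
  -- apply the core theorem
  have hA0c : ∑ x : A0, (1 : ℝ) = A0.card := by simp
  have hB0c : ∑ y : B0, (1 : ℝ) = B0.card := by simp
  have hA0pos : (0 : ℝ) < A0.card := by exact_mod_cast hA0ne.card_pos
  have hB0pos : (0 : ℝ) < B0.card := by exact_mod_cast hB0ne.card_pos
  have hKr : (0 : ℝ) < K := by exact_mod_cast hKpos
  have hcA' : (A.card : ℝ) ≤ K * A0.card := by exact_mod_cast hcA
  have hcB' : (B.card : ℝ) ≤ K * B0.card := by exact_mod_cast hcB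
  have hL13 : (L : ℝ) ≤ (L : ℝ) ^ 13 := le_self_pow₀ hLr (by norm_num)
  have hKexp : (K : ℝ) * K ≤ Real.exp ((L : ℝ) ^ 13) := by
    have h1 : (K : ℝ) * K + 1 ≤ L := by exact_mod_cast hLK
    have h2 := Real.add_one_le_exp ((L : ℝ) ^ 13)
    linarith
  have hKexp' : (K : ℝ) ≤ Real.exp ((L : ℝ) ^ 13) := by
    refine le_trans ?_ hKexp
    have : (1 : ℝ) ≤ K := by exact_mod_cast hKpos
    nlinarith
  have hexc : mass (fun _ : A0 => (1 : ℝ)) (fun _ : B0 => (1 : ℝ))
      (Exc n (fun (x : A0) (y : B0) => M x y) T) * Real.exp (c * (L : ℝ) ^ 13)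
      ≤ (∑ x : A0, (1 : ℝ)) * (∑ y : B0, (1 : ℝ)) := by
    rw [hA0c, hB0c]
    have h1 : mass (fun _ : A0 => (1 : ℝ)) (fun _ : B0 => (1 : ℝ))
        (Exc n (fun (x : A0) (y : B0) => M x y) T)
        ≤ (((A ×ˢ B).filter (fun z => (∀ i, M z.1 z.2 ≠ a i z.1) ∧
      (∀ j, M z.1 z.2 ≠ b j z.2))).card : ℝ) := by
      have h2 : mass (fun _ : A0 => (1 : ℝ)) (fun _ : B0 => (1 : ℝ))
          (Exc n (fun (x : A0) (y : B0) => M x y) T)
          ≤ mass (fun _ : A0 => (1 : ℝ)) (fun _ : B0 => (1 : ℝ))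
          (fun x y => (∀ i, M x y ≠ a i x) ∧ (∀ j, M x y ≠ b j y)) := by
        refine mass_mono (fun _ => zero_le_one) (fun _ => zero_le_one) ?_
        intro x y h
        have key : ∀ k, M x y ≠ TT a b k x y := by
          intro k hk
          obtain ⟨i, hi, hik⟩ := List.getElem_of_mem (hmem k)
          refine h i (by omega) ?_
          rw [hT i hi, hik]
          exact hk
        exact ⟨fun i => key (Sum.inl i), fun j => key (Sum.inr j)⟩
      refine h2.trans ?_
      have h3 := card_eq_mass A0 B0 (fun x y => (∀ i, M x y ≠ a i x) ∧ (∀ j, M x y ≠ b j y))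
      rw [h3]
      have h4 : ((A0 ×ˢ B0).filter (fun z => (∀ i, M z.1 z.2 ≠ a i z.1) ∧
          (∀ j, M z.1 z.2 ≠ b j z.2))) ⊆ ((A ×ˢ B).filter (fun z =>
          (∀ i, M z.1 z.2 ≠ a i z.1) ∧ (∀ j, M z.1 z.2 ≠ b j z.2))) :=
        Finset.filter_subset_filter _ (Finset.product_subset_product hA0 hB0)
      have h5 := Finset.card_le_card h4
      refine le_trans (le_of_eq ?_) (Nat.cast_le.2 h5)
      congr!
    have hcast : ((c + 1 : ℕ) : ℝ) * (L : ℝ) ^ 13 = c * (L : ℝ) ^ 13 + (L : ℝ) ^ 13 := by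
      push_cast; ring
    rw [hcast, Real.exp_add] at hcard
    have h6 : mass (fun _ : A0 => (1 : ℝ)) (fun _ : B0 => (1 : ℝ))
        (Exc n (fun (x : A0) (y : B0) => M x y) T)
        * (Real.exp (c * (L : ℝ) ^ 13) * Real.exp ((L : ℝ) ^ 13))
        ≤ (K * A0.card) * (K * B0.card) :=
      (mul_le_mul_of_nonneg_right h1 (by positivity)).trans
        (hcard.trans (mul_le_mul hcA' hcB' (by positivity) (by positivity)))
    have h7 : (mass (fun _ : A0 => (1 : ℝ)) (fun _ : B0 => (1 : ℝ))
        (Exc n (fun (x : A0) (y : B0) => M x y) T) * Real.exp (c * (L : ℝ) ^ 13))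
        * (K * K) ≤ (A0.card * B0.card) * (K * K) := by
      have h8 : 0 ≤ mass (fun _ : A0 => (1 : ℝ)) (fun _ : B0 => (1 : ℝ))
        (Exc n (fun (x : A0) (y : B0) => M x y) T) * Real.exp (c * (L : ℝ) ^ 13) :=
        mul_nonneg (mass_nonneg (fun _ => zero_le_one) (fun _ => zero_le_one) _)
          (Real.exp_pos _).le
      have h9 := mul_le_mul_of_nonneg_left hKexp h8
      linarith
    exact le_of_mul_le_mul_right h7 (by positivity)
  obtain ⟨i, hi, A1, B1, hAB, hA1, hB1⟩ := hcore L hLL1 A0 B0 (fun x y => M x y) T (R + 1) hR hsys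
    (fun _ => 1) (fun _ => 1) (fun _ => zero_le_one) (fun _ => zero_le_one)
    (by rw [hA0c, hB0c]; positivity) hexc
  have hi' : i < lst.length := by omega
  refine ⟨A1.map (Function.Embedding.subtype _), ?_, B1.map (Function.Embedding.subtype _), ?_,
    ?_, ?_, ?_⟩
  · intro x hx
    obtain ⟨z, hz, rfl⟩ := Finset.mem_map.1 hx
    exact hA0 z.2
  · intro y hy
    obtain ⟨z, hz, rfl⟩ := Finset.mem_map.1 hy
    exact hB0 z.2
  · rw [Finset.card_map]
    rw [hA0c] at hA1
    have h1 : ∑ x ∈ A1, (1 : ℝ) = A1.card := by simp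
    rw [h1] at hA1
    have hcast : -(((c + 1 : ℕ) : ℝ) * (L : ℝ) ^ 13) = -(c * (L : ℝ) ^ 13) + -(L : ℝ) ^ 13 := by
      push_cast; ring
    rw [hcast, Real.exp_add]
    refine le_trans ?_ hA1
    rw [mul_assoc]
    refine mul_le_mul_of_nonneg_left ?_ (Real.exp_pos _).le
    rw [Real.exp_neg, ← div_eq_inv_mul, div_le_iff₀ (Real.exp_pos _)]
    calc (A.card : ℝ) ≤ K * A0.card := hcA'
      _ ≤ Real.exp ((L : ℝ) ^ 13) * A0.card := mul_le_mul_of_nonneg_right hKexp' hA0pos.le
      _ = _ := by ring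
  · rw [Finset.card_map]
    rw [hB0c] at hB1
    have h1 : ∑ x ∈ B1, (1 : ℝ) = B1.card := by simp
    rw [h1] at hB1
    have hcast : -(((c + 1 : ℕ) : ℝ) * (L : ℝ) ^ 13) = -(c * (L : ℝ) ^ 13) + -(L : ℝ) ^ 13 := by
      push_cast; ring
    rw [hcast, Real.exp_add]
    refine le_trans ?_ hB1
    rw [mul_assoc]
    refine mul_le_mul_of_nonneg_left ?_ (Real.exp_pos _).le
    rw [Real.exp_neg, ← div_eq_inv_mul, div_le_iff₀ (Real.exp_pos _)]
    calc (B.card : ℝ) ≤ K * B0.card := hcB'
      _ ≤ Real.exp ((L : ℝ) ^ 13) * B0.card := mul_le_mul_of_nonneg_right hKexp' hB0pos.le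
      _ = _ := by ring
  · have hall : ∀ x ∈ A1.map (Function.Embedding.subtype _),
        ∀ y ∈ B1.map (Function.Embedding.subtype _), M x y = TT a b lst[i] x y := by
      intro x hx y hy
      obtain ⟨z, hz, rfl⟩ := Finset.mem_map.1 hx
      obtain ⟨w, hw, rfl⟩ := Finset.mem_map.1 hy
      have := hAB z hz w hw
      rw [hT i hi'] at this
      exact this
    rcases hk : lst[i] with i' | j'
    · left
      refine ⟨i', fun x hx y hy => ?_⟩
      have := hall x hx y hy
      rw [hk] at this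
      exact this
    · right
      refine ⟨j', fun x hx y hy => ?_⟩
      have := hall x hx y hy
      rw [hk] at this
      exact this

end Pool.Agent.Lib.MP_ba5def_co
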