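import Mathlib

/-!
Matrices of bounded rank, given by a factorisation, and two linear algebra lemmas:
an Auerbach type lemma (spanning rows with coefficients bounded by one) and the
elimination of exceptional entries.
-/

set_option autoImplicit false

namespace Pool.Agent.Lib.MP_ba5def_co

open Finset

/-- `M` factors through `R`-dimensional space. -/
def HasRank {α β : Type*} (R : ℕ) (M : α → β → ℝ) : Prop :=
  ∃ (u : α → Fin R → ℝ) (v : β → Fin R → ℝ), ∀ x y, M x y = ∑ i, u x i * v y i

section basic

variable {α β : Type*}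

lemma HasRank.congr {R : ℕ} {M N : α → β → ℝ} (h : HasRank R M) (e : ∀ x y, N x y = M x y) :
    HasRank R N := by
  obtain ⟨u, v, h⟩ := h
  exact ⟨u, v, fun x y => (e x y).trans (h x y)⟩

lemma HasRank.add {R S : ℕ} {M N : α → β → ℝ} (hM : HasRank R M) (hN : HasRank S N) :
    HasRank (R + S) (fun x y => M x y + N x y) := by
  obtain ⟨u, v, h⟩ := hM
  obtain ⟨u', v', h'⟩ := hN
  refine ⟨fun x => Fin.append (u x) (u' x), fun y => Fin.append (v y) (v' y), fun x y => ?_⟩
  simp only [h, h', Fin.sum_univ_add, Fin.append_left, Fin.append_right]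

lemma hasRank_zero : HasRank 0 (fun (_ : α) (_ : β) => (0 : ℝ)) :=
  ⟨fun _ => Fin.elim0, fun _ => Fin.elim0, fun _ _ => by simp⟩

lemma HasRank.mono {R S : ℕ} {M : α → β → ℝ} (hM : HasRank R M) (h : R ≤ S) : HasRank S M := by
  obtain ⟨k, rfl⟩ := Nat.exists_eq_add_of_le h
  have hz : HasRank k (fun (_ : α) (_ : β) => (0 : ℝ)) :=
    ⟨fun _ _ => 0, fun _ _ => 0, fun _ _ => by simp⟩
  exact (hM.add hz).congr (fun x y => by simp)

lemma HasRank.row_mul {R : ℕ} {M : α → β → ℝ} (hM : HasRank R M) (c : α → ℝ) :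
    HasRank R (fun x y => M x y * c x) := by
  obtain ⟨u, v, h⟩ := hM
  refine ⟨fun x i => u x i * c x, v, fun x y => ?_⟩
  simp only [h, Finset.sum_mul]
  exact Finset.sum_congr rfl (fun i _ => by ring)

lemma HasRank.col_mul {R : ℕ} {M : α → β → ℝ} (hM : HasRank R M) (c : β → ℝ) :
    HasRank R (fun x y => M x y * c y) := by
  obtain ⟨u, v, h⟩ := hM
  refine ⟨u, fun y i => v y i * c y, fun x y => ?_⟩
  simp only [h, Finset.sum_mul]
  exact Finset.sum_congr rfl (fun i _ => by ring)

lemma hasRank_row (a : α → ℝ) : HasRank 1 (fun x (_ : β) => a x) :=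
  ⟨fun x _ => a x, fun _ _ => 1, fun _ _ => by simp⟩

lemma hasRank_col (b : β → ℝ) : HasRank 1 (fun (_ : α) y => b y) :=
  ⟨fun _ _ => 1, fun y _ => b y, fun _ _ => by simp⟩

lemma HasRank.sub_row {R : ℕ} {M : α → β → ℝ} (hM : HasRank R M) (a : α → ℝ) :
    HasRank (R + 1) (fun x y => M x y - a x) :=
  (hM.add (hasRank_row (fun x => -a x))).congr (fun x y => by ring)

lemma HasRank.sub_col {R : ℕ} {M : α → β → ℝ} (hM : HasRank R M) (b : β → ℝ) :
    HasRank (R + 1) (fun x y => M x y - b y) :=
  (hM.add (hasRank_col (fun y => -b y))).congr (fun x y => by ring)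

lemma HasRank.comp {R : ℕ} {M : α → β → ℝ} {α' β' : Type*} (hM : HasRank R M)
    (f : α' → α) (g : β' → β) : HasRank R (fun x y => M (f x) (g y)) := by
  obtain ⟨u, v, h⟩ := hM
  exact ⟨fun x => u (f x), fun y => v (g y), fun x y => h _ _⟩

end basic

/-- Auerbach type lemma: among finitely many vectors of `ℝ^R` there are at most `R` such that
all the others are combinations of these with coefficients in `[-1,1]`. -/
lemma auerbach {ι : Type*} {R : ℕ} (u : ι → Fin R → ℝ) (A : Finset ι) :
    ∃ (k : ℕ) (x : Fin k → ι), k ≤ R ∧ (∀ i, x i ∈ A) ∧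
      ∀ y ∈ A, ∃ c : Fin k → ℝ, (∀ i, |c i| ≤ 1) ∧ u y = ∑ i, c i • u (x i) := by
  classical
  let W : Submodule ℝ (Fin R → ℝ) := Submodule.span ℝ (u '' (A : Set ι))
  have hmem : ∀ z ∈ A, u z ∈ W := fun z hz => Submodule.subset_span ⟨z, hz, rfl⟩
  let f : ι → W := fun z => if h : z ∈ A then ⟨u z, hmem z h⟩ else 0
  have hf : ∀ z ∈ A, (f z : Fin R → ℝ) = u z := by
    intro z hz
    simp [f, hz]
  let k := Module.finrank ℝ W
  have hk : k ≤ R := by
    have := Submodule.finrank_le W
    simpa using this
  let b := Module.finBasis ℝ W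
  -- a tuple from `A` which is a basis
  obtain ⟨s, hs, hspan, hli⟩ := exists_linearIndependent ℝ (u '' (A : Set ι))
  have hsfin : s.Finite := (A.finite_toSet.image u).subset hs
  have : Fintype s := hsfin.fintype
  have hcard : Fintype.card s = k := by
    have h1 := finrank_span_set_eq_card hli
    have h2 : Module.finrank ℝ (Submodule.span ℝ s) = k := by
      rw [hspan]
    rw [← h2, h1, Set.toFinset_card]
  let e : Fin k ≃ s := (Fintype.equivFinOfCardEq hcard).symm
  have hpre : ∀ i : Fin k, ∃ z ∈ A, u z = (e i : Fin R → ℝ) := by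
    intro i
    obtain ⟨z, hz, hz'⟩ := hs (e i).2
    exact ⟨z, hz, hz'⟩
  choose x0 hx0 hx0' using hpre
  have hli0 : LinearIndependent ℝ (fun i => f (x0 i)) := by
    have h1 : LinearIndependent ℝ (fun i => ((e i : s) : Fin R → ℝ)) :=
      hli.comp e e.injective
    have h2 : LinearIndependent ℝ (fun i => W.subtype (f (x0 i))) := by
      convert h1 using 2 with i
      simp only [Submodule.subtype_apply]
      rw [hf _ (hx0 i), hx0']
    exact LinearIndependent.of_comp W.subtype h2
  have hdet0 : b.det (fun i => f (x0 i)) ≠ 0 := by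
    have hsp : ⊤ ≤ Submodule.span ℝ (Set.range (fun i => f (x0 i))) := by
      rw [hli0.span_eq_top_of_card_eq_finrank' (by simp [k])]
    exact ((Module.Basis.is_basis_iff_det b).1 ⟨hli0, by simpa using hsp⟩).ne_zero
  -- a maximal tuple
  obtain ⟨x, hx, hmax⟩ := Finset.exists_max_image (Fintype.piFinset (fun _ : Fin k => A))
    (fun x => |b.det (fun i => f (x i))|) ⟨x0, by simpa using hx0⟩
  have hxA : ∀ i, x i ∈ A := by simpa using hx
  have hdet : b.det (fun i => f (x i)) ≠ 0 := by
    intro h0
    have := hmax x0 (by simpa using hx0)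
    simp only [h0, abs_zero] at this
    exact hdet0 (abs_nonpos_iff.1 this)
  have hbasis := (Module.Basis.is_basis_iff_det b).2 (isUnit_iff_ne_zero.2 hdet)
  let B : Module.Basis (Fin k) ℝ W := Module.Basis.mk hbasis.1 (le_of_eq hbasis.2.symm)
  have hB : ∀ i, B i = f (x i) := fun i => by simp [B]
  refine ⟨k, x, hk, hxA, fun y hy => ⟨fun i => B.repr (f y) i, fun i => ?_, ?_⟩⟩
  · -- Cramer
    have hrep : f y = ∑ j, B.repr (f y) j • f (x j) := by
      conv_lhs => rw [← B.sum_repr (f y)]
      simp only [hB]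
    have hup : b.det (Function.update (fun i => f (x i)) i (f y))
        = B.repr (f y) i * b.det (fun i => f (x i)) := by
      conv_lhs => rw [hrep]
      rw [b.det.map_update_sum]
      rw [Finset.sum_eq_single i]
      · rw [b.det.map_update_smul]
        simp
      · intro j _ hji
        rw [b.det.map_update_smul]
        have := b.det.map_update_self (fun i => f (x i)) hji.symm
        rw [this, smul_zero]
      · simp
    have h2 : (Function.update (fun i => f (x i)) i (f y))
        = fun j => f ((Function.update x i y) j) := by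
      funext j
      by_cases hj : j = i
      · subst hj; simp
      · simp [hj]
    have h3 := hmax (Function.update x i y) (by
      rw [Fintype.mem_piFinset]
      intro j
      by_cases hj : j = i
      · subst hj; simpa using hy
      · simpa [hj] using hxA j)
    rw [← h2, hup, abs_mul] at h3
    exact le_of_mul_le_mul_right (by simpa using h3) (abs_pos.2 hdet)
  · have hrep : f y = ∑ j, B.repr (f y) j • f (x j) := by
      conv_lhs => rw [← B.sum_repr (f y)]
      simp only [hB]
    have h4 := congrArg W.subtype hrep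
    rw [map_sum] at h4
    simp only [map_smul, Submodule.subtype_apply] at h4
    rw [hf y hy] at h4
    rw [h4]
    exact Finset.sum_congr rfl (fun i _ => by rw [hf _ (hxA i)])

/-- Elimination of exceptional entries: if `M` has rank at most `R` and its nonzero entries have
small mass, then `M` vanishes on a rectangle of large mass. -/
lemma exact_rect {α β : Type*} [Fintype α] [Fintype β] {R : ℕ} {M : α → β → ℝ}
    (hM : HasRank R M) (p : α → ℝ) (q : β → ℝ) (hp : ∀ x, 0 ≤ p x) (hq : ∀ y, 0 ≤ q y)
    (E : α → β → Prop) (hE : ∀ x y, M x y ≠ 0 → E x y)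
    (hbad : (∑ x, ∑ y, (open Classical in if E x y then p x * q y else 0)) * (4 * R)
      ≤ (∑ x, p x) * (∑ y, q y)) :
    ∃ (A : Finset α) (B : Finset β), (∀ x ∈ A, ∀ y ∈ B, M x y = 0) ∧
      (∑ x, p x) ≤ 2 * ∑ x ∈ A, p x ∧ (∑ y, q y) ≤ 2 * ∑ y ∈ B, q y := by
  classical
  set P := ∑ x, p x with hP
  set Q := ∑ y, q y with hQ
  have hP0 : 0 ≤ P := Finset.sum_nonneg (fun x _ => hp x)
  have hQ0 : 0 ≤ Q := Finset.sum_nonneg (fun y _ => hq y)
  rcases Nat.eq_zero_or_pos R with hR | hR
  · subst hR
    obtain ⟨u, v, h⟩ := hM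
    refine ⟨Finset.univ, Finset.univ, fun x _ y _ => ?_, ?_, ?_⟩
    · rw [h]; simp
    · linarith
    · linarith
  have hR' : (0 : ℝ) < R := by exact_mod_cast hR
  rcases hQ0.eq_or_lt with hQz | hQpos
  · refine ⟨Finset.univ, ∅, by simp, by linarith, ?_⟩
    rw [← hQz]; simp
  let bq : α → ℝ := fun x => ∑ y, if E x y then q y else 0
  have hbq : ∀ x, 0 ≤ bq x := fun x => Finset.sum_nonneg (fun y _ => by
    split_ifs
    · exact hq y
    · exact le_rfl)
  have hsum : (∑ x, ∑ y, (if E x y then p x * q y else 0)) = ∑ x, p x * bq x := by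
    refine Finset.sum_congr rfl (fun x _ => ?_)
    simp only [bq, Finset.mul_sum]
    exact Finset.sum_congr rfl (fun y _ => by split_ifs <;> simp)
  rw [hsum] at hbad
  let A : Finset α := Finset.univ.filter (fun x => bq x * (2 * R) ≤ Q)
  obtain ⟨u, v, huv⟩ := id hM
  obtain ⟨k, z, hkR, hzA, hz⟩ := auerbach u A
  let B : Finset β := Finset.univ.filter (fun y => ∀ i, ¬ E (z i) y)
  refine ⟨A, B, ?_, ?_, ?_⟩
  · intro x hx y hy
    obtain ⟨c, -, hc⟩ := hz x hx
    have hy' : ∀ i, M (z i) y = 0 := by
      intro i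
      by_contra hne
      exact (Finset.mem_filter.1 hy).2 i (hE _ _ hne)
    rw [huv]
    have h1 : ∀ j, u x j = ∑ i, c i * u (z i) j := by
      intro j
      have := congrFun hc j
      simpa using this
    calc ∑ j, u x j * v y j = ∑ j, ∑ i, c i * (u (z i) j * v y j) := by
          refine Finset.sum_congr rfl (fun j _ => ?_)
          rw [h1, Finset.sum_mul]
          exact Finset.sum_congr rfl (fun i _ => by ring)
      _ = ∑ i, c i * M (z i) y := by
          rw [Finset.sum_comm]
          refine Finset.sum_congr rfl (fun i _ => ?_)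
          rw [huv, Finset.mul_sum]
      _ = 0 := by simp [hy']
  · -- mass of `A`
    have h1 : ∑ x ∈ Aᶜ, p x * Q ≤ ∑ x, p x * bq x * (2 * R) := by
      calc ∑ x ∈ Aᶜ, p x * Q ≤ ∑ x ∈ Aᶜ, p x * bq x * (2 * R) := by
            refine Finset.sum_le_sum (fun x hx => ?_)
            have : ¬ (bq x * (2 * R) ≤ Q) := by simpa [A] using hx
            push Not at this
            rw [mul_assoc]
            exact mul_le_mul_of_nonneg_left this.le (hp x)
        _ ≤ ∑ x, p x * bq x * (2 * R) :=
            Finset.sum_le_sum_of_subset_of_nonneg (Finset.subset_univ _)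
              (fun x _ _ => by have := hp x; have := hbq x; positivity)
    rw [← Finset.sum_mul, ← Finset.sum_mul] at h1
    have h2 : (∑ x ∈ Aᶜ, p x) * Q * 2 ≤ P * Q := by
      nlinarith
    have h3 : (∑ x ∈ Aᶜ, p x) * 2 ≤ P := by
      have : ((∑ x ∈ Aᶜ, p x) * 2) * Q ≤ P * Q := by linarith
      exact le_of_mul_le_mul_right this hQpos
    have h4 : ∑ x ∈ A, p x + ∑ x ∈ Aᶜ, p x = P := Finset.sum_add_sum_compl A p
    linarith
  · -- mass of `B`
    have h1 : ∑ y ∈ Bᶜ, q y ≤ ∑ i, bq (z i) := by
      have : ∀ y ∈ Bᶜ, q y ≤ ∑ i, (if E (z i) y then q y else 0) := by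
        intro y hy
        have : ∃ i, E (z i) y := by simpa [B] using hy
        obtain ⟨i, hi⟩ := this
        calc q y = (if E (z i) y then q y else 0) := by simp [hi]
          _ ≤ _ := Finset.single_le_sum (f := fun i => (if E (z i) y then q y else 0))
              (fun j _ => by
                split_ifs
                · exact hq y
                · exact le_rfl) (Finset.mem_univ i)
      calc ∑ y ∈ Bᶜ, q y ≤ ∑ y ∈ Bᶜ, ∑ i, (if E (z i) y then q y else 0) :=
            Finset.sum_le_sum this
        _ ≤ ∑ y, ∑ i, (if E (z i) y then q y else 0) :=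
            Finset.sum_le_sum_of_subset_of_nonneg (Finset.subset_univ _)
              (fun y _ _ => Finset.sum_nonneg (fun j _ => by
                split_ifs
                · exact hq y
                · exact le_rfl))
        _ = ∑ i, bq (z i) := Finset.sum_comm
    have h2 : ∀ i, bq (z i) ≤ Q / (2 * R) := by
      intro i
      have := hzA i
      have h3 : bq (z i) * (2 * R) ≤ Q := by simpa [A] using this
      rw [le_div_iff₀ (by positivity)]
      exact h3
    have h3 : ∑ i, bq (z i) ≤ Q / 2 := by
      calc ∑ i, bq (z i) ≤ ∑ i : Fin k, Q / (2 * R) := Finset.sum_le_sum (fun i _ => h2 i)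
        _ = k * (Q / (2 * R)) := by simp
        _ ≤ R * (Q / (2 * R)) := by
            have : (k : ℝ) ≤ R := by exact_mod_cast hkR
            exact mul_le_mul_of_nonneg_right this (by positivity)
        _ = Q / 2 := by field_simp
    have h4 : ∑ y ∈ B, q y + ∑ y ∈ Bᶜ, q y = Q := Finset.sum_add_sum_compl B q
    linarith

end Pool.Agent.Lib.MP_ba5def_co
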