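import Mathlib

/-!
Randomised rounding with clamped Rademacher sums: nonnegative product functions whose average is
an (approximately) exponential tilt of a bilinear form.
-/

set_option autoImplicit false

namespace Pool.Agent.Lib.MP_ba5def_co

open Finset Matrix

/-- The sign attached to a Boolean. -/
def sg (b : Bool) : ℝ := if b then 1 else -1

lemma sg_mul_self (b : Bool) : sg b * sg b = 1 := by cases b <;> simp [sg]

lemma sg_not (b : Bool) : sg (!b) = - sg b := by cases b <;> simp [sg]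

/-- Rademacher sum. -/
noncomputable def rad {R : ℕ} (s : Fin R → Bool) (u : Fin R → ℝ) : ℝ := ∑ i, sg (s i) * u i

lemma rad_not {R : ℕ} (s : Fin R → Bool) (u : Fin R → ℝ) :
    rad (fun i => !(s i)) u = - rad s u := by
  unfold rad
  rw [← Finset.sum_neg_distrib]
  exact Finset.sum_congr rfl (fun i _ => by rw [sg_not]; ring)

lemma card_signs (R : ℕ) : (Fintype.card (Fin R → Bool) : ℝ) = 2 ^ R := by
  simp

lemma sum_sg_sg {R : ℕ} (i j : Fin R) :
    ∑ s : Fin R → Bool, sg (s i) * sg (s j) = if i = j then (2 : ℝ) ^ R else 0 := by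
  classical
  split_ifs with h
  · subst h
    simp [sg_mul_self]
  · -- flip the coordinate `i`
    let e : (Fin R → Bool) ≃ (Fin R → Bool) :=
      { toFun := fun s => Function.update s i (!(s i))
        invFun := fun s => Function.update s i (!(s i))
        left_inv := fun s => by simp
        right_inv := fun s => by simp }
    have h1 : ∑ s : Fin R → Bool, sg (s i) * sg (s j)
        = ∑ s : Fin R → Bool, sg ((e s) i) * sg ((e s) j) :=
      (Equiv.sum_comp e (fun s : Fin R → Bool => sg (s i) * sg (s j))).symm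
    have h2 : ∀ s : Fin R → Bool, sg ((e s) i) * sg ((e s) j) = - (sg (s i) * sg (s j)) := by
      intro s
      have hj : (e s) j = s j := by simp [e, Function.update_of_ne (Ne.symm h)]
      have hi : (e s) i = !(s i) := by simp [e]
      rw [hi, hj, sg_not]
      ring
    rw [Finset.sum_congr rfl (fun s _ => h2 s), Finset.sum_neg_distrib] at h1
    linarith

lemma sum_rad_mul {R : ℕ} (u v : Fin R → ℝ) :
    ∑ s : Fin R → Bool, rad s u * rad s v = 2 ^ R * (u ⬝ᵥ v) := by
  unfold rad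
  have h1 : ∀ s : Fin R → Bool, (∑ i, sg (s i) * u i) * (∑ j, sg (s j) * v j)
      = ∑ i, ∑ j, (sg (s i) * sg (s j)) * (u i * v j) := by
    intro s
    rw [Finset.sum_mul_sum]
    exact Finset.sum_congr rfl (fun i _ => Finset.sum_congr rfl (fun j _ => by ring))
  rw [Finset.sum_congr rfl (fun s _ => h1 s), Finset.sum_comm]
  have h2 : ∀ i : Fin R, ∑ s : Fin R → Bool, ∑ j, (sg (s i) * sg (s j)) * (u i * v j)
      = 2 ^ R * (u i * v i) := by
    intro i
    rw [Finset.sum_comm]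
    have h3 : ∀ j : Fin R, ∑ s : Fin R → Bool, (sg (s i) * sg (s j)) * (u i * v j)
        = (if i = j then (2 : ℝ) ^ R else 0) * (u i * v j) := by
      intro j
      rw [← Finset.sum_mul, sum_sg_sg]
    rw [Finset.sum_congr rfl (fun j _ => h3 j)]
    simp
  rw [Finset.sum_congr rfl (fun i _ => h2 i), ← Finset.mul_sum]
  rfl

lemma sum_exp_rad {R : ℕ} (u : Fin R → ℝ) :
    ∑ s : Fin R → Bool, Real.exp (rad s u) ≤ 2 ^ R * Real.exp ((u ⬝ᵥ u) / 2) := by
  classical
  have h1 : ∀ s : Fin R → Bool, Real.exp (rad s u) = ∏ i, Real.exp (sg (s i) * u i) := by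
    intro s
    unfold rad
    rw [Real.exp_sum]
  rw [Finset.sum_congr rfl (fun s _ => h1 s)]
  have h2 : ∑ s : Fin R → Bool, ∏ i, Real.exp (sg (s i) * u i)
      = ∏ i, ∑ b : Bool, Real.exp (sg b * u i) := by
    rw [Finset.prod_univ_sum, Fintype.piFinset_univ]
  rw [h2]
  have h3 : ∀ i, ∑ b : Bool, Real.exp (sg b * u i) = 2 * Real.cosh (u i) := by
    intro i
    rw [Real.cosh_eq]
    simp [sg]
    ring
  rw [Finset.prod_congr rfl (fun i _ => h3 i), Finset.prod_mul_distrib]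
  simp only [Finset.prod_const, Finset.card_univ, Fintype.card_fin]
  refine mul_le_mul_of_nonneg_left ?_ (by positivity)
  have h4 : (u ⬝ᵥ u) / 2 = ∑ i, (u i) ^ 2 / 2 := by
    unfold dotProduct
    rw [Finset.sum_div]
    exact Finset.sum_congr rfl (fun i _ => by ring)
  rw [h4, Real.exp_sum]
  exact Finset.prod_le_prod (fun i _ => (Real.cosh_pos _).le)
    (fun i _ => Real.cosh_le_exp_half_sq _)

lemma sum_rad_pow {R : ℕ} (u : Fin R → ℝ) (hu : u ⬝ᵥ u ≤ 1) (k : ℕ) :
    ∑ s : Fin R → Bool, |rad s u| ^ k ≤ 2 ^ R * (4 * (k.factorial : ℝ)) := by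
  have h1 : ∀ s : Fin R → Bool, |rad s u| ^ k
      ≤ (k.factorial : ℝ) * (Real.exp (rad s u) + Real.exp (rad s (-u))) := by
    intro s
    have h2 := Real.pow_div_factorial_le_exp |rad s u| (abs_nonneg _) k
    rw [div_le_iff₀ (by positivity)] at h2
    have h3 : Real.exp |rad s u| ≤ Real.exp (rad s u) + Real.exp (rad s (-u)) := by
      have h4 : rad s (-u) = - rad s u := by
        unfold rad
        rw [← Finset.sum_neg_distrib]
        exact Finset.sum_congr rfl (fun i _ => by simp)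
      rw [h4]
      rcases abs_cases (rad s u) with h | h
      · rw [h.1]; linarith [Real.exp_pos (-rad s u)]
      · rw [h.1]; linarith [Real.exp_pos (rad s u)]
    calc |rad s u| ^ k ≤ Real.exp |rad s u| * (k.factorial : ℝ) := h2
      _ ≤ (Real.exp (rad s u) + Real.exp (rad s (-u))) * (k.factorial : ℝ) :=
          mul_le_mul_of_nonneg_right h3 (by positivity)
      _ = _ := by ring
  have h5 : Real.exp (1 / 2 : ℝ) ≤ 2 := by
    have h6 : Real.exp (1 / 2 : ℝ) ^ 2 ≤ 2 ^ 2 := by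
      rw [← Real.exp_nat_mul]
      have := Real.exp_one_lt_d9
      norm_num
      linarith
    exact (pow_le_pow_iff_left₀ (Real.exp_pos _).le (by norm_num) (by norm_num)).1 h6
  have h7 : ∀ w : Fin R → ℝ, w ⬝ᵥ w ≤ 1 →
      ∑ s : Fin R → Bool, Real.exp (rad s w) ≤ 2 ^ R * 2 := by
    intro w hw
    refine (sum_exp_rad w).trans ?_
    refine mul_le_mul_of_nonneg_left ?_ (by positivity)
    refine le_trans (Real.exp_le_exp.2 ?_) h5
    linarith
  calc ∑ s : Fin R → Bool, |rad s u| ^ k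
      ≤ ∑ s : Fin R → Bool, (k.factorial : ℝ) * (Real.exp (rad s u) + Real.exp (rad s (-u))) :=
        Finset.sum_le_sum (fun s _ => h1 s)
    _ = (k.factorial : ℝ) * (∑ s : Fin R → Bool, Real.exp (rad s u)
          + ∑ s : Fin R → Bool, Real.exp (rad s (-u))) := by
        rw [← Finset.mul_sum, Finset.sum_add_distrib]
    _ ≤ (k.factorial : ℝ) * (2 ^ R * 2 + 2 ^ R * 2) := by
        refine mul_le_mul_of_nonneg_left ?_ (by positivity)
        exact add_le_add (h7 u hu) (h7 (-u) (by simpa using hu))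
    _ = 2 ^ R * (4 * (k.factorial : ℝ)) := by ring

/-- Clamped linear function. -/
noncomputable def cl (C z : ℝ) : ℝ := max (-1) (min 1 (z / C))

lemma cl_le_one (C z : ℝ) : cl C z ≤ 1 := by
  unfold cl
  exact max_le (by norm_num) (min_le_left _ _)

lemma neg_one_le_cl (C z : ℝ) : -1 ≤ cl C z := le_max_left _ _

lemma cl_neg (C z : ℝ) : cl C (-z) = - cl C z := by
  unfold cl
  rw [neg_div]
  rcases le_total (z / C) 1 with h1 | h1 <;> rcases le_total (-1) (z / C) with h2 | h2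
  · rw [min_eq_right h1, max_eq_right h2, min_eq_right (by linarith), max_eq_right (by linarith)]
  · rw [min_eq_right h1, max_eq_left h2, min_eq_left (by linarith), max_eq_right (by linarith)]
    norm_num
  · have e1 : min 1 (z / C) = 1 := min_eq_left h1
    have e2 : min 1 (-(z / C)) = -(z / C) := min_eq_right (by linarith)
    have e3 : max (-1 : ℝ) 1 = 1 := max_eq_right (by norm_num)
    have e4 : max (-1 : ℝ) (-(z / C)) = -1 := max_eq_left (by linarith)
    rw [e1, e2, e3, e4]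
  · linarith

lemma abs_cl_le {C : ℝ} (hC : 0 < C) (z : ℝ) : |cl C z| ≤ |z| / C := by
  unfold cl
  rw [← abs_of_pos hC, ← abs_div, abs_of_pos hC]
  rcases abs_cases (z / C) with h | h
  · rw [h.1, abs_le]
    constructor
    · exact le_trans (by linarith) (le_max_right _ _ |>.trans' (le_min (by linarith) (by linarith)) : -(z / C) ≤ _)
    · exact max_le (by linarith) (min_le_right _ _)
  · rw [h.1, abs_le]
    constructor
    · rw [neg_neg]
      exact (le_min (by linarith) le_rfl).trans (le_max_right _ _)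
    · refine max_le ?_ ((min_le_right _ _).trans (by linarith))
      linarith

lemma abs_sub_cl_le {C : ℝ} (hC : 0 < C) (z : ℝ) : |z / C - cl C z| ≤ (|z| / C) ^ 13 := by
  have hz : |z| / C = |z / C| := by rw [abs_div, abs_of_pos hC]
  rw [hz]
  set a := z / C with ha
  unfold cl
  rw [← ha]
  rcases le_total a 1 with h1 | h1 <;> rcases le_total (-1) a with h2 | h2
  · rw [min_eq_right h1, max_eq_right h2, sub_self, abs_zero]
    positivity
  · rw [min_eq_right h1, max_eq_left h2]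
    have h3 : |a - -1| ≤ |a| := by
      rw [abs_of_nonpos (by linarith), abs_of_nonpos (by linarith)]
      linarith
    have h4 : 1 ≤ |a| := by rw [abs_of_nonpos (by linarith)]; linarith
    exact h3.trans (le_self_pow₀ h4 (by norm_num))
  · rw [min_eq_left h1, max_eq_right (by norm_num)]
    have h3 : |a - 1| ≤ |a| := by
      rw [abs_of_nonneg (by linarith), abs_of_nonneg (by linarith)]
      linarith
    have h4 : 1 ≤ |a| := by rw [abs_of_nonneg (by linarith)]; linarith
    exact h3.trans (le_self_pow₀ h4 (by norm_num))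
  · linarith

/-- The constant in the rounding error. -/
noncomputable def kap : ℝ := 4 * (Nat.factorial 26 : ℝ) + 1

lemma kap_pos : 0 < kap := by unfold kap; positivity

lemma round_err {R : ℕ} (u v : Fin R → ℝ) (hu : u ⬝ᵥ u ≤ 1) (hv : v ⬝ᵥ v ≤ 1) {C : ℝ}
    (hC : 0 < C) :
    |∑ s : Fin R → Bool, cl C (rad s u) * cl C (rad s v) - 2 ^ R * ((u ⬝ᵥ v) / C ^ 2)|
      ≤ 2 ^ R * (kap / C ^ 14) := by
  have h0 : 2 ^ R * ((u ⬝ᵥ v) / C ^ 2)
      = ∑ s : Fin R → Bool, (rad s u / C) * (rad s v / C) := by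
    have : ∀ s : Fin R → Bool, (rad s u / C) * (rad s v / C) = (rad s u * rad s v) / C ^ 2 := by
      intro s; field_simp
    rw [Finset.sum_congr rfl (fun s _ => this s), ← Finset.sum_div, sum_rad_mul]
    ring
  rw [h0, ← Finset.sum_sub_distrib]
  refine (Finset.abs_sum_le_sum_abs _ _).trans ?_
  have h1 : ∀ s : Fin R → Bool,
      |cl C (rad s u) * cl C (rad s v) - (rad s u / C) * (rad s v / C)|
        ≤ (|rad s u| ^ 26 + |rad s v| ^ 2 + |rad s u| ^ 2 + |rad s v| ^ 26) / 2 / C ^ 14 := by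
    intro s
    set U := rad s u with hU
    set V := rad s v with hV
    have e1 : cl C U * cl C V - (U / C) * (V / C)
        = -((U / C - cl C U) * (V / C)) - cl C U * (V / C - cl C V) := by ring
    have e2 : |cl C U * cl C V - (U / C) * (V / C)|
        ≤ |U / C - cl C U| * |V / C| + |cl C U| * |V / C - cl C V| := by
      rw [e1]
      refine (abs_sub _ _).trans ?_
      rw [abs_neg, abs_mul, abs_mul]
    have hVC : |V / C| = |V| / C := by rw [abs_div, abs_of_pos hC]
    have e3 : |U / C - cl C U| * |V / C| ≤ (|U| / C) ^ 13 * (|V| / C) := by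
      rw [hVC]
      exact mul_le_mul_of_nonneg_right (abs_sub_cl_le hC U) (by positivity)
    have e4 : |cl C U| * |V / C - cl C V| ≤ (|U| / C) * (|V| / C) ^ 13 :=
      mul_le_mul (abs_cl_le hC U) (abs_sub_cl_le hC V) (abs_nonneg _) (by positivity)
    have e5 : (|U| / C) ^ 13 * (|V| / C) + (|U| / C) * (|V| / C) ^ 13
        = (|U| ^ 13 * |V| + |U| * |V| ^ 13) / C ^ 14 := by
      field_simp
    have e6 : |U| ^ 13 * |V| + |U| * |V| ^ 13
        ≤ (|U| ^ 26 + |V| ^ 2 + |U| ^ 2 + |V| ^ 26) / 2 := by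
      nlinarith [sq_nonneg (|U| ^ 13 - |V|), sq_nonneg (|U| - |V| ^ 13)]
    calc |cl C U * cl C V - (U / C) * (V / C)|
        ≤ (|U| / C) ^ 13 * (|V| / C) + (|U| / C) * (|V| / C) ^ 13 := by linarith
      _ = (|U| ^ 13 * |V| + |U| * |V| ^ 13) / C ^ 14 := e5
      _ ≤ _ := by
        exact div_le_div_of_nonneg_right e6 (by positivity)
  refine (Finset.sum_le_sum (fun s _ => h1 s)).trans ?_
  rw [← Finset.sum_div, ← Finset.sum_div]
  have h2 : ∑ s : Fin R → Bool, (|rad s u| ^ 26 + |rad s v| ^ 2 + |rad s u| ^ 2 + |rad s v| ^ 26)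
      ≤ 2 ^ R * (2 * kap) := by
    have hsq : ∀ w : Fin R → ℝ, w ⬝ᵥ w ≤ 1 → ∑ s : Fin R → Bool, |rad s w| ^ 2 ≤ 2 ^ R * 1 := by
      intro w hw
      have : ∀ s : Fin R → Bool, |rad s w| ^ 2 = rad s w * rad s w := by
        intro s; rw [sq_abs]; ring
      rw [Finset.sum_congr rfl (fun s _ => this s), sum_rad_mul]
      exact mul_le_mul_of_nonneg_left hw (by positivity)
    rw [Finset.sum_add_distrib, Finset.sum_add_distrib, Finset.sum_add_distrib]
    have a1 := sum_rad_pow u hu 26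
    have a2 := sum_rad_pow v hv 26
    have a3 := hsq u hu
    have a4 := hsq v hv
    unfold kap
    linarith
  calc (∑ s : Fin R → Bool, (|rad s u| ^ 26 + |rad s v| ^ 2 + |rad s u| ^ 2 + |rad s v| ^ 26))
        / 2 / C ^ 14 ≤ (2 ^ R * (2 * kap)) / 2 / C ^ 14 := by
        gcongr
    _ = 2 ^ R * (kap / C ^ 14) := by ring

lemma sum_cl_rad {R : ℕ} (u : Fin R → ℝ) (C : ℝ) : ∑ s : Fin R → Bool, cl C (rad s u) = 0 := by
  let e : (Fin R → Bool) ≃ (Fin R → Bool) :=
    { toFun := fun s i => !(s i)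
      invFun := fun s i => !(s i)
      left_inv := fun s => by simp
      right_inv := fun s => by simp }
  have h1 : ∑ s : Fin R → Bool, cl C (rad s u) = ∑ s : Fin R → Bool, cl C (rad (e s) u) :=
    (Equiv.sum_comp e (fun s => cl C (rad s u))).symm
  have h2 : ∀ s : Fin R → Bool, cl C (rad (e s) u) = - cl C (rad s u) := by
    intro s
    have : rad (e s) u = - rad s u := rad_not s u
    rw [this, cl_neg]
  rw [Finset.sum_congr rfl (fun s _ => h2 s), Finset.sum_neg_distrib] at h1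
  linarith

/-- Row factor. -/
noncomputable def ff {R : ℕ} (C : ℝ) (s : Fin R → Bool) (u : Fin R → ℝ) : ℝ :=
  (1 - cl C (rad s u)) / 2

/-- Column factor. -/
noncomputable def gg {R : ℕ} (C : ℝ) (s : Fin R → Bool) (v : Fin R → ℝ) : ℝ :=
  (1 + cl C (rad s v)) / 2

lemma ff_nonneg {R : ℕ} (C : ℝ) (s : Fin R → Bool) (u : Fin R → ℝ) : 0 ≤ ff C s u := by
  unfold ff; linarith [cl_le_one C (rad s u)]

lemma ff_le_one {R : ℕ} (C : ℝ) (s : Fin R → Bool) (u : Fin R → ℝ) : ff C s u ≤ 1 := by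
  unfold ff; linarith [neg_one_le_cl C (rad s u)]

lemma gg_nonneg {R : ℕ} (C : ℝ) (s : Fin R → Bool) (u : Fin R → ℝ) : 0 ≤ gg C s u := by
  unfold gg; linarith [neg_one_le_cl C (rad s u)]

lemma gg_le_one {R : ℕ} (C : ℝ) (s : Fin R → Bool) (u : Fin R → ℝ) : gg C s u ≤ 1 := by
  unfold gg; linarith [cl_le_one C (rad s u)]

lemma sum_ff_gg {R : ℕ} (u v : Fin R → ℝ) (hu : u ⬝ᵥ u ≤ 1) (hv : v ⬝ᵥ v ≤ 1) {C : ℝ}
    (hC : 0 < C) :
    ∃ e : ℝ, |e| ≤ kap / C ^ 14 ∧
      ∑ s : Fin R → Bool, ff C s u * gg C s v = 2 ^ R * ((1 - (u ⬝ᵥ v) / C ^ 2 - e) / 4) := by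
  set Z := ∑ s : Fin R → Bool, cl C (rad s u) * cl C (rad s v) with hZ
  have h1 := round_err u v hu hv hC
  rw [← hZ] at h1
  refine ⟨(Z - 2 ^ R * ((u ⬝ᵥ v) / C ^ 2)) / 2 ^ R, ?_, ?_⟩
  · rw [abs_div, abs_of_pos (show (0 : ℝ) < 2 ^ R by positivity),
      div_le_iff₀ (show (0 : ℝ) < 2 ^ R by positivity)]
    linarith
  · have h2 : ∀ s : Fin R → Bool, ff C s u * gg C s v
        = (1 - cl C (rad s u) + cl C (rad s v) - cl C (rad s u) * cl C (rad s v)) / 4 := by
      intro s; unfold ff gg; ring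
    rw [Finset.sum_congr rfl (fun s _ => h2 s), ← Finset.sum_div, Finset.sum_sub_distrib,
      Finset.sum_add_distrib, Finset.sum_sub_distrib, sum_cl_rad, sum_cl_rad, ← hZ]
    have h3 : ∑ _s : Fin R → Bool, (1 : ℝ) = 2 ^ R := by simp
    rw [h3]
    have : (2 : ℝ) ^ R ≠ 0 := by positivity
    field_simp
    ring

/-- Product over `t` independent samples. -/
noncomputable def FF {R t : ℕ} (C : ℝ) (ω : Fin t → Fin R → Bool) (u : Fin R → ℝ) : ℝ :=
  ∏ l, ff C (ω l) u

/-- Product over `t` independent samples. -/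
noncomputable def GG {R t : ℕ} (C : ℝ) (ω : Fin t → Fin R → Bool) (v : Fin R → ℝ) : ℝ :=
  ∏ l, gg C (ω l) v

lemma FF_nonneg {R t : ℕ} (C : ℝ) (ω : Fin t → Fin R → Bool) (u : Fin R → ℝ) :
    0 ≤ FF C ω u := Finset.prod_nonneg (fun _ _ => ff_nonneg _ _ _)

lemma FF_le_one {R t : ℕ} (C : ℝ) (ω : Fin t → Fin R → Bool) (u : Fin R → ℝ) :
    FF C ω u ≤ 1 := Finset.prod_le_one (fun _ _ => ff_nonneg _ _ _) (fun _ _ => ff_le_one _ _ _)

lemma GG_nonneg {R t : ℕ} (C : ℝ) (ω : Fin t → Fin R → Bool) (u : Fin R → ℝ) :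
    0 ≤ GG C ω u := Finset.prod_nonneg (fun _ _ => gg_nonneg _ _ _)

lemma GG_le_one {R t : ℕ} (C : ℝ) (ω : Fin t → Fin R → Bool) (u : Fin R → ℝ) :
    GG C ω u ≤ 1 := Finset.prod_le_one (fun _ _ => gg_nonneg _ _ _) (fun _ _ => gg_le_one _ _ _)

lemma sum_FF_GG {R t : ℕ} (u v : Fin R → ℝ) (hu : u ⬝ᵥ u ≤ 1) (hv : v ⬝ᵥ v ≤ 1) {C : ℝ}
    (hC : 0 < C) :
    ∃ e : ℝ, |e| ≤ kap / C ^ 14 ∧
      ∑ ω : Fin t → Fin R → Bool, FF C ω u * GG C ω v
        = (2 ^ R) ^ t * ((1 - (u ⬝ᵥ v) / C ^ 2 - e) / 4) ^ t := by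
  obtain ⟨e, he, h⟩ := sum_ff_gg u v hu hv hC
  refine ⟨e, he, ?_⟩
  have h1 : ∀ ω : Fin t → Fin R → Bool, FF C ω u * GG C ω v
      = ∏ l, (ff C (ω l) u * gg C (ω l) v) := by
    intro ω
    unfold FF GG
    rw [Finset.prod_mul_distrib]
  rw [Finset.sum_congr rfl (fun ω _ => h1 ω), ← mul_pow, ← h]
  rw [Fintype.sum_pow]

end Pool.Agent.Lib.MP_ba5def_co
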