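import Pool.Agent.Lib.MP_ba5def_co.Rank
import Pool.Agent.Lib.MP_ba5def_co.Design
import Pool.Agent.Lib.MP_ba5def_co.Round

/-!
The tilting lemma: for a matrix `N` of rank at most `L ^ 16` there is a family of product weights
whose average is comparable with `exp (- L * N)` up to a global factor `4 ^ (- L ^ 13)`.
-/

set_option autoImplicit false

namespace Pool.Agent.Lib.MP_ba5def_co

open Finset Matrix

section mass

variable {α β : Type*} [Fintype α] [Fintype β]

open Classical in
/-- Mass of a set of pairs with respect to a product weight. -/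
noncomputable def mass (p : α → ℝ) (q : β → ℝ) (S : α → β → Prop) : ℝ :=
  ∑ x, ∑ y, if S x y then p x * q y else 0

lemma mass_nonneg {p : α → ℝ} {q : β → ℝ} (hp : ∀ x, 0 ≤ p x) (hq : ∀ y, 0 ≤ q y)
    (S : α → β → Prop) : 0 ≤ mass p q S := by
  classical
  unfold mass
  refine Finset.sum_nonneg (fun x _ => Finset.sum_nonneg (fun y _ => ?_))
  split_ifs
  · exact mul_nonneg (hp x) (hq y)
  · exact le_rfl

lemma mass_mono {p : α → ℝ} {q : β → ℝ} (hp : ∀ x, 0 ≤ p x) (hq : ∀ y, 0 ≤ q y)
    {S T : α → β → Prop} (h : ∀ x y, S x y → T x y) : mass p q S ≤ mass p q T := by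
  classical
  unfold mass
  refine Finset.sum_le_sum (fun x _ => Finset.sum_le_sum (fun y _ => ?_))
  by_cases hS : S x y
  · simp [hS, h x y hS]
  · simp only [hS, if_false]
    split_ifs
    · exact mul_nonneg (hp x) (hq y)
    · exact le_rfl

lemma mass_or_le {p : α → ℝ} {q : β → ℝ} (hp : ∀ x, 0 ≤ p x) (hq : ∀ y, 0 ≤ q y)
    (S T : α → β → Prop) : mass p q (fun x y => S x y ∨ T x y) ≤ mass p q S + mass p q T := by
  classical
  unfold mass
  rw [← Finset.sum_add_distrib]
  refine Finset.sum_le_sum (fun x _ => ?_)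
  rw [← Finset.sum_add_distrib]
  refine Finset.sum_le_sum (fun y _ => ?_)
  have := mul_nonneg (hp x) (hq y)
  by_cases h1 : S x y <;> by_cases h2 : T x y <;> simp [h1, h2, this]

lemma mass_true (p : α → ℝ) (q : β → ℝ) :
    mass p q (fun _ _ => True) = (∑ x, p x) * (∑ y, q y) := by
  unfold mass
  simp [Finset.sum_mul_sum]

lemma mass_le_total {p : α → ℝ} {q : β → ℝ} (hp : ∀ x, 0 ≤ p x) (hq : ∀ y, 0 ≤ q y)
    (S : α → β → Prop) : mass p q S ≤ (∑ x, p x) * (∑ y, q y) := by
  rw [← mass_true]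
  exact mass_mono hp hq (fun _ _ _ => trivial)

lemma mass_eq_mul_row (p : α → ℝ) (q : β → ℝ) (S : α → β → Prop) :
    mass p q S = ∑ x, p x * (∑ y, (open Classical in if S x y then q y else 0)) := by
  classical
  unfold mass
  refine Finset.sum_congr rfl (fun x _ => ?_)
  rw [Finset.mul_sum]
  exact Finset.sum_congr rfl (fun y _ => by split_ifs <;> simp)

lemma mass_eq_mul_col (p : α → ℝ) (q : β → ℝ) (S : α → β → Prop) :
    mass p q S = ∑ y, q y * (∑ x, (open Classical in if S x y then p x else 0)) := by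
  classical
  unfold mass
  rw [Finset.sum_comm]
  refine Finset.sum_congr rfl (fun y _ => ?_)
  rw [Finset.mul_sum]
  exact Finset.sum_congr rfl (fun x _ => by split_ifs <;> simp [mul_comm])

open Classical in
/-- Markov's inequality. -/
lemma markov {p f : α → ℝ} (hp : ∀ x, 0 ≤ p x) (hf : ∀ x, 0 ≤ f x) {c e : ℝ} (hc : 0 < c)
    (h : ∑ x, p x * f x ≤ e * c) : ∑ x ∈ Finset.univ.filter (fun x => ¬ f x ≤ c), p x ≤ e := by
  have h1 : (∑ x ∈ Finset.univ.filter (fun x => ¬ f x ≤ c), p x) * c ≤ ∑ x, p x * f x := by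
    rw [Finset.sum_mul]
    calc ∑ x ∈ Finset.univ.filter (fun x => ¬ f x ≤ c), p x * c
        ≤ ∑ x ∈ Finset.univ.filter (fun x => ¬ f x ≤ c), p x * f x := by
          refine Finset.sum_le_sum (fun x hx => ?_)
          have := (Finset.mem_filter.1 hx).2
          push Not at this
          exact mul_le_mul_of_nonneg_left this.le (hp x)
      _ ≤ ∑ x, p x * f x := Finset.sum_le_sum_of_subset_of_nonneg (Finset.subset_univ _)
          (fun x _ _ => mul_nonneg (hp x) (hf x))
  exact le_of_mul_le_mul_right (h1.trans h) hc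

open Classical in
lemma mass_restrict {p : α → ℝ} {q : β → ℝ} (hp : ∀ x, 0 ≤ p x) (hq : ∀ y, 0 ≤ q y)
    (S : α → β → Prop) (A : Finset α) (B : Finset β) :
    mass p q S ≤ mass p q (fun x y => S x y ∧ x ∈ A ∧ y ∈ B)
      + (∑ x ∈ Aᶜ, p x) * (∑ y, q y) + (∑ x, p x) * (∑ y ∈ Bᶜ, q y) := by
  have h1 : mass p q S ≤ mass p q (fun x y => S x y ∧ x ∈ A ∧ y ∈ B)
      + mass p q (fun x _ => x ∈ Aᶜ) + mass p q (fun _ y => y ∈ Bᶜ) := by
    refine (mass_mono hp hq (T := fun x y => (((S x y ∧ x ∈ A ∧ y ∈ B) ∨ x ∈ Aᶜ) ∨ y ∈ Bᶜ))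
      ?_).trans ?_
    · intro x y h
      by_cases hx : x ∈ A
      · by_cases hy : y ∈ B
        · exact Or.inl (Or.inl ⟨h, hx, hy⟩)
        · exact Or.inr (by simpa using hy)
      · exact Or.inl (Or.inr (by simpa using hx))
    · refine (mass_or_le hp hq _ _).trans ?_
      exact add_le_add (mass_or_le hp hq _ _) le_rfl
  have h2 : mass p q (fun x _ => x ∈ Aᶜ) = (∑ x ∈ Aᶜ, p x) * (∑ y, q y) := by
    rw [mass_eq_mul_row, Finset.sum_mul]
    calc _ = ∑ x, (if x ∈ Aᶜ then p x * ∑ y, q y else 0) := by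
          refine Finset.sum_congr rfl (fun x _ => ?_)
          by_cases hx : x ∈ Aᶜ
          · simp only [hx, if_true]
          · simp only [hx, if_false, Finset.sum_const_zero, mul_zero]
      _ = _ := by rw [Finset.sum_ite_mem, Finset.univ_inter]
  have h3 : mass p q (fun _ y => y ∈ Bᶜ) = (∑ x, p x) * (∑ y ∈ Bᶜ, q y) := by
    rw [mass_eq_mul_col, mul_comm, Finset.sum_mul]
    calc _ = ∑ y, (if y ∈ Bᶜ then q y * ∑ x, p x else 0) := by
          refine Finset.sum_congr rfl (fun y _ => ?_)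
          by_cases hx : y ∈ Bᶜ
          · simp only [hx, if_true]
          · simp only [hx, if_false, Finset.sum_const_zero, mul_zero]
      _ = _ := by rw [Finset.sum_ite_mem, Finset.univ_inter]
  linarith

end mass

end Pool.Agent.Lib.MP_ba5def_co
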