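import Pool.Agent.Lib.MP_ba5def_co.Tilt

/-!
The tilting lemma.
-/

set_option autoImplicit false

namespace Pool.Agent.Lib.MP_ba5def_co

open Finset Matrix

section numeric

variable {L : ℕ}

lemma exp_quarter : Real.exp (1 / 4 : ℝ) ≤ 129 / 100 := by
  have h6 : Real.exp (1 / 4 : ℝ) ^ 4 ≤ (129 / 100) ^ 4 := by
    rw [← Real.exp_nat_mul]
    have := Real.exp_one_lt_d9
    norm_num
    linarith
  exact (pow_le_pow_iff_left₀ (Real.exp_pos _).le (by norm_num) (by norm_num)).1 h6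

lemma kap_div_le (hL3 : 3 ≤ L) (hLk : 4 * kap ≤ L) : kap / (L : ℝ) ≤ 1 / 4 := by
  have : (0 : ℝ) < L := by
    have : (3 : ℝ) ≤ L := by exact_mod_cast hL3
    linarith
  rw [div_le_iff₀ this]
  linarith

lemma kap_div_pow_le (hL3 : 3 ≤ L) (hLk : 4 * kap ≤ L) : kap / (L : ℝ) ^ 14 ≤ 1 / 4 := by
  have h1 : (1 : ℝ) ≤ L := by
    have : (3 : ℝ) ≤ L := by exact_mod_cast hL3
    linarith
  have h2 : (L : ℝ) ≤ (L : ℝ) ^ 14 := le_self_pow₀ h1 (by norm_num)
  have h3 : kap / (L : ℝ) ^ 14 ≤ kap / (L : ℝ) :=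
    div_le_div_of_nonneg_left kap_pos.le (by linarith) h2
  exact h3.trans (kap_div_le hL3 hLk)

lemma num0 (hL3 : 3 ≤ L) (hLk : 4 * kap ≤ L) {z e : ℝ} (hz : |z| ≤ 1 / (L : ℝ) ^ 2)
    (he : |e| ≤ kap / (L : ℝ) ^ 14) : 0 ≤ (1 - z - e) / 4 ∧ (1 - z - e) / 4 ≤ 1 / 2 := by
  have h3 : (3 : ℝ) ≤ L := by exact_mod_cast hL3
  have h1 : 1 / (L : ℝ) ^ 2 ≤ 1 / 9 := by
    apply one_div_le_one_div_of_le (by norm_num)
    nlinarith
  have h2 := kap_div_pow_le hL3 hLk
  have hz' := abs_le.1 (hz.trans h1)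
  have he' := abs_le.1 (he.trans h2)
  constructor <;> linarith [hz'.1, hz'.2, he'.1, he'.2]

lemma num1 (hL3 : 3 ≤ L) (hLk : 4 * kap ≤ L) {z e : ℝ} (hz : |z| ≤ 1 / (L : ℝ) ^ 2)
    (he : |e| ≤ kap / (L : ℝ) ^ 14) (h : -(1 / (L : ℝ) ^ 13) ≤ z) :
    ((1 - z - e) / 4) ^ (L ^ 13) ≤ 4 * (1 / 4) ^ (L ^ 13) := by
  have h3 : (3 : ℝ) ≤ L := by exact_mod_cast hL3
  have hpos : (0 : ℝ) < L := by linarith
  have h0 := (num0 hL3 hLk hz he).1
  have he' := abs_le.1 he
  have h1 : 1 - z - e ≤ Real.exp (1 / (L : ℝ) ^ 13 + kap / (L : ℝ) ^ 14) := by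
    have := Real.add_one_le_exp (1 / (L : ℝ) ^ 13 + kap / (L : ℝ) ^ 14)
    linarith [he'.1]
  have h2 : (1 - z - e) ^ (L ^ 13) ≤ 4 := by
    calc (1 - z - e) ^ (L ^ 13)
        ≤ (Real.exp (1 / (L : ℝ) ^ 13 + kap / (L : ℝ) ^ 14)) ^ (L ^ 13) :=
          pow_le_pow_left₀ (by linarith) h1 _
      _ = Real.exp (1 + kap / L) := by
          rw [← Real.exp_nat_mul]
          congr 1
          push_cast
          field_simp
      _ ≤ Real.exp (1 + 1 / 4) := Real.exp_le_exp.2 (by linarith [kap_div_le hL3 hLk])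
      _ ≤ 4 := by
          rw [Real.exp_add]
          have := Real.exp_one_lt_d9
          have h4 := exp_quarter
          have h5 := Real.exp_pos (1 / 4 : ℝ)
          nlinarith [Real.exp_pos (1 : ℝ)]
  rw [div_pow, div_eq_mul_one_div, _root_.one_div_pow]
  exact mul_le_mul_of_nonneg_right h2 (by positivity)

lemma num2 (hL3 : 3 ≤ L) (hLk : 4 * kap ≤ L) {z e : ℝ} (hz : |z| ≤ 1 / (L : ℝ) ^ 2)
    (he : |e| ≤ kap / (L : ℝ) ^ 14) (h : 1 / (L : ℝ) ^ 12 ≤ z) :
    ((1 - z - e) / 4) ^ (L ^ 13) ≤ (4 * Real.exp (-(L : ℝ))) * (1 / 4) ^ (L ^ 13) := by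
  have h3 : (3 : ℝ) ≤ L := by exact_mod_cast hL3
  have hpos : (0 : ℝ) < L := by linarith
  have h0 := (num0 hL3 hLk hz he).1
  have he' := abs_le.1 he
  have h1 : 1 - z - e ≤ Real.exp (-(1 / (L : ℝ) ^ 12) + kap / (L : ℝ) ^ 14) := by
    have := Real.add_one_le_exp (-(1 / (L : ℝ) ^ 12) + kap / (L : ℝ) ^ 14)
    linarith [he'.1]
  have h2 : (1 - z - e) ^ (L ^ 13) ≤ 4 * Real.exp (-(L : ℝ)) := by
    calc (1 - z - e) ^ (L ^ 13)
        ≤ (Real.exp (-(1 / (L : ℝ) ^ 12) + kap / (L : ℝ) ^ 14)) ^ (L ^ 13) :=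
          pow_le_pow_left₀ (by linarith) h1 _
      _ = Real.exp (-(L : ℝ) + kap / L) := by
          rw [← Real.exp_nat_mul]
          congr 1
          push_cast
          field_simp
      _ = Real.exp (kap / L) * Real.exp (-(L : ℝ)) := by rw [← Real.exp_add]; ring_nf
      _ ≤ 4 * Real.exp (-(L : ℝ)) := by
          refine mul_le_mul_of_nonneg_right ?_ (Real.exp_pos _).le
          refine (Real.exp_le_exp.2 (kap_div_le hL3 hLk)).trans ?_
          linarith [exp_quarter]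
  rw [div_pow, div_eq_mul_one_div, _root_.one_div_pow]
  exact mul_le_mul_of_nonneg_right h2 (by positivity)

lemma num3 (hL3 : 3 ≤ L) (hLk : 4 * kap ≤ L) {z e : ℝ} (hz : |z| ≤ 1 / (L : ℝ) ^ 2)
    (he : |e| ≤ kap / (L : ℝ) ^ 14) (h : z ≤ 0) :
    1 / 2 * (1 / 4) ^ (L ^ 13) ≤ ((1 - z - e) / 4) ^ (L ^ 13) := by
  have h3 : (3 : ℝ) ≤ L := by exact_mod_cast hL3
  have hpos : (0 : ℝ) < L := by linarith
  have hk := kap_div_pow_le hL3 hLk
  have he' := abs_le.1 he
  have h1 : 1 + -(kap / (L : ℝ) ^ 14) ≤ 1 - z - e := by linarith [he'.2]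
  have h2 : 1 / 2 ≤ (1 - z - e) ^ (L ^ 13) := by
    calc (1 / 2 : ℝ) ≤ 1 + (L ^ 13 : ℕ) * -(kap / (L : ℝ) ^ 14) := by
          have : ((L ^ 13 : ℕ) : ℝ) * -(kap / (L : ℝ) ^ 14) = -(kap / L) := by
            push_cast
            field_simp
          rw [this]
          linarith [kap_div_le hL3 hLk]
      _ ≤ (1 + -(kap / (L : ℝ) ^ 14)) ^ (L ^ 13) :=
          one_add_mul_le_pow (by linarith) _
      _ ≤ (1 - z - e) ^ (L ^ 13) := pow_le_pow_left₀ (by linarith) h1 _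
  rw [div_pow (1 - z - e), div_eq_mul_one_div ((1 - z - e) ^ (L ^ 13)), _root_.one_div_pow]
  exact mul_le_mul_of_nonneg_right h2 (by positivity)

end numeric

section tilt

variable {α β : Type*} [Fintype α] [Fintype β]

lemma sum_mass {Ω : Type*} [Fintype Ω] (p : α → ℝ) (q : β → ℝ) (F : Ω → α → ℝ) (G : Ω → β → ℝ)
    (S : α → β → Prop) :
    ∑ w, mass (fun x => p x * F w x) (fun y => q y * G w y) S
      = ∑ x, ∑ y, (open Classical in if S x y then p x * q y * ∑ w, F w x * G w y else 0) := by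
  classical
  unfold mass
  rw [Finset.sum_comm]
  refine Finset.sum_congr rfl (fun x _ => ?_)
  rw [Finset.sum_comm]
  refine Finset.sum_congr rfl (fun y _ => ?_)
  by_cases h : S x y
  · simp only [h, if_true, Finset.mul_sum]
    exact Finset.sum_congr rfl (fun w _ => by ring)
  · simp only [h, if_false, Finset.sum_const_zero]

lemma sum_mass_le {Ω : Type*} [Fintype Ω] {p : α → ℝ} {q : β → ℝ} (hp : ∀ x, 0 ≤ p x)
    (hq : ∀ y, 0 ≤ q y) (F : Ω → α → ℝ) (G : Ω → β → ℝ) (S : α → β → Prop) (c : ℝ)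
    (h : ∀ x y, S x y → ∑ w, F w x * G w y ≤ c) :
    ∑ w, mass (fun x => p x * F w x) (fun y => q y * G w y) S ≤ c * mass p q S := by
  classical
  rw [sum_mass]
  unfold mass
  rw [Finset.mul_sum]
  refine Finset.sum_le_sum (fun x _ => ?_)
  rw [Finset.mul_sum]
  refine Finset.sum_le_sum (fun y _ => ?_)
  by_cases hS : S x y
  · simp only [hS, if_true]
    rw [mul_comm c]
    exact mul_le_mul_of_nonneg_left (h x y hS) (mul_nonneg (hp x) (hq y))
  · simp only [hS, if_false, mul_zero, le_refl]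

lemma le_sum_mass {Ω : Type*} [Fintype Ω] {p : α → ℝ} {q : β → ℝ} (hp : ∀ x, 0 ≤ p x)
    (hq : ∀ y, 0 ≤ q y) (F : Ω → α → ℝ) (G : Ω → β → ℝ) (S : α → β → Prop) (c : ℝ)
    (h : ∀ x y, S x y → c ≤ ∑ w, F w x * G w y) :
    c * mass p q S ≤ ∑ w, mass (fun x => p x * F w x) (fun y => q y * G w y) S := by
  classical
  rw [sum_mass]
  unfold mass
  rw [Finset.mul_sum]
  refine Finset.sum_le_sum (fun x _ => ?_)
  rw [Finset.mul_sum]
  refine Finset.sum_le_sum (fun y _ => ?_)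
  by_cases hS : S x y
  · simp only [hS, if_true]
    rw [mul_comm c]
    exact mul_le_mul_of_nonneg_left (h x y hS) (mul_nonneg (hp x) (hq y))
  · simp only [hS, if_false, mul_zero, le_refl]

/-- A factorisation with short vectors on a large rectangle. -/
lemma factor_lemma {L : ℕ} (hL3 : 3 ≤ L) {m : ℕ} (hm : 32 ≤ m)
    {R : ℕ} (hR : R ≤ L ^ 16) {N : α → β → ℝ} (hN : HasRank R N)
    {p : α → ℝ} {q : β → ℝ} (hp : ∀ x, 0 ≤ p x) (hq : ∀ y, 0 ≤ q y)
    (hPQ : ¬ (∑ x, p x) * (∑ y, q y) = 0)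
    (Bd : α → β → Prop) (hNb : ∀ x y, ¬ Bd x y → |N x y| ≤ L + 1)
    (hBd : mass p q Bd * ((L : ℝ) ^ m) ^ 4 ≤ (∑ x, p x) * (∑ y, q y)) :
    ∃ (T : ℕ) (A : Finset α) (B : Finset β) (U : α → Fin T → ℝ) (V : β → Fin T → ℝ),
      (∑ x, p x) - (2 * (1 / (L : ℝ) ^ m) * ∑ x, p x) ≤ ∑ x ∈ A, p x ∧
      (∑ y, q y) - ((1 / (L : ℝ) ^ m) * ∑ y, q y) ≤ ∑ y ∈ B, q y ∧
      (∀ x ∈ A, U x ⬝ᵥ U x ≤ 1) ∧ (∀ y ∈ B, V y ⬝ᵥ V y ≤ 1) ∧
      ∀ x y, U x ⬝ᵥ V y = N x y / (L : ℝ) ^ 10 := by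
  classical
  set P := ∑ x, p x with hP
  set Q := ∑ y, q y with hQ
  have hP0 : 0 ≤ P := Finset.sum_nonneg (fun x _ => hp x)
  have hQ0 : 0 ≤ Q := Finset.sum_nonneg (fun y _ => hq y)
  have h3 : (3 : ℝ) ≤ L := by exact_mod_cast hL3
  have hL0 : (0 : ℝ) < L := by linarith
  have hL1 : (1 : ℝ) ≤ L := by linarith
  have hPQpos : 0 < P * Q := lt_of_le_of_ne (mul_nonneg hP0 hQ0) (Ne.symm hPQ)
  have hPpos : 0 < P := by
    rcases hP0.eq_or_lt with h | h
    · rw [← h] at hPQpos; simp at hPQpos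
    · exact h
  have hQpos : 0 < Q := by
    rcases hQ0.eq_or_lt with h | h
    · rw [← h] at hPQpos; simp at hPQpos
    · exact h
  set δ : ℝ := 1 / (L : ℝ) ^ m with hδ
  have hδ0 : 0 < δ := by positivity
  have hδL : δ ≤ 1 / (L : ℝ) ^ 32 := by
    apply one_div_le_one_div_of_le (by positivity)
    exact pow_le_pow_right₀ hL1 hm
  have hBd' : mass p q Bd ≤ δ ^ 4 * (P * Q) := by
    rw [hδ, one_div, inv_pow]
    rw [← div_eq_inv_mul, le_div_iff₀ (by positivity)]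
    exact hBd
  -- the rank is at most `L ^ 16`
  obtain ⟨T, hT⟩ : ∃ T, T = L ^ 16 := ⟨_, rfl⟩
  have hTpos : 0 < T := by rw [hT]; positivity
  have hN' : HasRank T N := hN.mono (by rw [hT]; exact hR)
  obtain ⟨u, v, huv⟩ := hN'
  have hTr : (T : ℝ) = (L : ℝ) ^ 16 := by rw [hT]; push_cast; ring
  -- good rows
  let bq : α → ℝ := fun x => ∑ y, if Bd x y then q y else 0
  have hbq0 : ∀ x, 0 ≤ bq x := fun x => Finset.sum_nonneg (fun y _ => by
    split_ifs
    · exact hq y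
    · exact le_rfl)
  have hbq : ∑ x, p x * bq x ≤ (δ ^ 2 * P) * (δ ^ 2 * Q) := by
    have : ∑ x, p x * bq x = mass p q Bd := (mass_eq_mul_row p q Bd).symm
    rw [this]
    calc mass p q Bd ≤ δ ^ 4 * (P * Q) := hBd'
      _ = _ := by ring
  have hA1 := markov hp hbq0 (by positivity) hbq
  let bp : β → ℝ := fun y => ∑ x, if Bd x y then p x else 0
  have hbp0 : ∀ y, 0 ≤ bp y := fun y => Finset.sum_nonneg (fun x _ => by
    split_ifs
    · exact hp x
    · exact le_rfl)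
  have hbp : ∑ y, q y * bp y ≤ (δ ^ 2 * Q) * (δ ^ 2 * P) := by
    have : ∑ y, q y * bp y = mass p q Bd := (mass_eq_mul_col p q Bd).symm
    rw [this]
    calc mass p q Bd ≤ δ ^ 4 * (P * Q) := hBd'
      _ = _ := by ring
  have hB1 := markov hq hbp0 (by positivity) hbp
  let A1 : Finset α := Finset.univ.filter (fun x => bq x ≤ δ ^ 2 * Q)
  obtain ⟨k, z, hkT, hzA, hz⟩ := auerbach u A1
  let B2 : Finset β := Finset.univ.filter (fun y => (∀ i, ¬ Bd (z i) y) ∧ bp y ≤ δ ^ 2 * P)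
  have hkT' : (k : ℝ) ≤ (L : ℝ) ^ 16 := by rw [← hTr]; exact_mod_cast hkT
  -- boundedness on `A1 × B2`
  have hbdd : ∀ x ∈ A1, ∀ y ∈ B2, |N x y| ≤ (L : ℝ) ^ 16 * (L + 1) := by
    intro x hx y hy
    obtain ⟨c, hc1, hc⟩ := hz x hx
    have hy' : ∀ i, |N (z i) y| ≤ L + 1 := fun i => hNb _ _ ((Finset.mem_filter.1 hy).2.1 i)
    have e1 : N x y = ∑ i, c i * N (z i) y := by
      rw [huv]
      calc ∑ j, u x j * v y j = ∑ j, ∑ i, c i * (u (z i) j * v y j) := by
            refine Finset.sum_congr rfl (fun j _ => ?_)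
            have h1 : u x j = ∑ i, c i * u (z i) j := by
              have := congrFun hc j
              simpa using this
            rw [h1, Finset.sum_mul]
            exact Finset.sum_congr rfl (fun i _ => by ring)
        _ = ∑ i, c i * N (z i) y := by
            rw [Finset.sum_comm]
            refine Finset.sum_congr rfl (fun i _ => ?_)
            rw [huv, Finset.mul_sum]
    rw [e1]
    calc |∑ i, c i * N (z i) y| ≤ ∑ i, |c i * N (z i) y| := Finset.abs_sum_le_sum_abs _ _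
      _ ≤ ∑ _i : Fin k, ((L : ℝ) + 1) := by
          refine Finset.sum_le_sum (fun i _ => ?_)
          rw [abs_mul]
          calc |c i| * |N (z i) y| ≤ 1 * (L + 1) :=
                mul_le_mul (hc1 i) (hy' i) (abs_nonneg _) (by norm_num)
            _ = _ := one_mul _
      _ = k * ((L : ℝ) + 1) := by
          rw [Finset.sum_const, Finset.card_univ, Fintype.card_fin, nsmul_eq_mul]
      _ ≤ (L : ℝ) ^ 16 * (L + 1) := mul_le_mul_of_nonneg_right hkT' (by positivity)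
  -- size of the complement of `B2`
  have hB2c : ∑ y ∈ B2ᶜ, q y ≤ ((L : ℝ) ^ 16 + 1) * (δ ^ 2 * Q) := by
    have hsub : B2ᶜ ⊆ (Finset.univ.filter (fun y => ∃ i, Bd (z i) y))
        ∪ (Finset.univ.filter (fun y => ¬ bp y ≤ δ ^ 2 * P)) := by
      intro y hy
      rw [Finset.mem_union, Finset.mem_filter, Finset.mem_filter]
      by_contra hcon
      push Not at hcon
      have h1 := hcon.1 (Finset.mem_univ _)
      have h2 := hcon.2 (Finset.mem_univ _)
      rw [Finset.mem_compl] at hy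
      exact hy (Finset.mem_filter.2 ⟨Finset.mem_univ _, h1, h2⟩)
    calc ∑ y ∈ B2ᶜ, q y ≤ ∑ y ∈ (Finset.univ.filter (fun y => ∃ i, Bd (z i) y))
          ∪ (Finset.univ.filter (fun y => ¬ bp y ≤ δ ^ 2 * P)), q y :=
          Finset.sum_le_sum_of_subset_of_nonneg hsub (fun y _ _ => hq y)
      _ ≤ ∑ y ∈ Finset.univ.filter (fun y => ∃ i, Bd (z i) y), q y
          + ∑ y ∈ Finset.univ.filter (fun y => ¬ bp y ≤ δ ^ 2 * P), q y := by
          rw [← Finset.sum_union_inter]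
          have : 0 ≤ ∑ y ∈ (Finset.univ.filter (fun y => ∃ i, Bd (z i) y))
              ∩ (Finset.univ.filter (fun y => ¬ bp y ≤ δ ^ 2 * P)), q y :=
            Finset.sum_nonneg (fun y _ => hq y)
          linarith
      _ ≤ (L : ℝ) ^ 16 * (δ ^ 2 * Q) + δ ^ 2 * Q := by
          refine add_le_add ?_ hB1
          calc ∑ y ∈ Finset.univ.filter (fun y => ∃ i, Bd (z i) y), q y
              ≤ ∑ y ∈ Finset.univ.filter (fun y => ∃ i, Bd (z i) y),
                  ∑ i, (if Bd (z i) y then q y else 0) := by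
                refine Finset.sum_le_sum (fun y hy => ?_)
                obtain ⟨i, hi⟩ := (Finset.mem_filter.1 hy).2
                calc q y = (if Bd (z i) y then q y else 0) := by simp [hi]
                  _ ≤ _ := Finset.single_le_sum
                      (f := fun i => (if Bd (z i) y then q y else 0))
                      (fun j _ => by
                        split_ifs
                        · exact hq y
                        · exact le_rfl) (Finset.mem_univ i)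
            _ ≤ ∑ y, ∑ i, (if Bd (z i) y then q y else 0) :=
                Finset.sum_le_sum_of_subset_of_nonneg (Finset.subset_univ _)
                  (fun y _ _ => Finset.sum_nonneg (fun j _ => by
                    split_ifs
                    · exact hq y
                    · exact le_rfl))
            _ = ∑ i, bq (z i) := Finset.sum_comm
            _ ≤ ∑ _i : Fin k, δ ^ 2 * Q :=
                Finset.sum_le_sum (fun i _ => (Finset.mem_filter.1 (hzA i)).2)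
            _ = k * (δ ^ 2 * Q) := by
                rw [Finset.sum_const, Finset.card_univ, Fintype.card_fin, nsmul_eq_mul]
            _ ≤ (L : ℝ) ^ 16 * (δ ^ 2 * Q) := mul_le_mul_of_nonneg_right hkT' (by positivity)
      _ = _ := by ring
  have hδs : ((L : ℝ) ^ 16 + 1) * δ ^ 2 ≤ δ := by
    have h1 : ((L : ℝ) ^ 16 + 1) * δ ≤ 1 := by
      calc ((L : ℝ) ^ 16 + 1) * δ ≤ (2 * (L : ℝ) ^ 16) * (1 / (L : ℝ) ^ 32) := by
            have : (1 : ℝ) ≤ (L : ℝ) ^ 16 := one_le_pow₀ hL1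
            exact mul_le_mul (by linarith) hδL hδ0.le (by positivity)
        _ = 2 / (L : ℝ) ^ 16 := by field_simp
        _ ≤ 1 := by
            rw [div_le_one (by positivity)]
            calc (2 : ℝ) ≤ L := by linarith
              _ ≤ (L : ℝ) ^ 16 := le_self_pow₀ hL1 (by norm_num)
    calc ((L : ℝ) ^ 16 + 1) * δ ^ 2 = (((L : ℝ) ^ 16 + 1) * δ) * δ := by ring
      _ ≤ 1 * δ := mul_le_mul_of_nonneg_right h1 hδ0.le
      _ = δ := one_mul _
  have hδ13 : δ ≤ 1 / 3 := by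
    calc δ ≤ 1 / (L : ℝ) ^ 32 := hδL
      _ ≤ 1 / 3 := by
        apply one_div_le_one_div_of_le (by norm_num)
        exact h3.trans (le_self_pow₀ hL1 (by norm_num))
  have hB2c' : ∑ y ∈ B2ᶜ, q y ≤ δ * Q := by
    calc _ ≤ ((L : ℝ) ^ 16 + 1) * (δ ^ 2 * Q) := hB2c
      _ = (((L : ℝ) ^ 16 + 1) * δ ^ 2) * Q := by ring
      _ ≤ δ * Q := mul_le_mul_of_nonneg_right hδs hQ0
  have hB2ne : B2.Nonempty := by
    by_contra hcon
    rw [Finset.not_nonempty_iff_eq_empty] at hcon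
    rw [hcon, Finset.compl_empty, ← hQ] at hB2c'
    nlinarith
  have : Nonempty B2 := hB2ne.to_subtype
  -- D-optimal design on `B2`
  let η : ℝ := 1 / (1 + ∑ x, u x ⬝ᵥ u x)
  have hdot : ∀ x : α, 0 ≤ u x ⬝ᵥ u x := fun x => by
    have : u x ⬝ᵥ u x = ∑ i, u x i ^ 2 := Finset.sum_congr rfl (fun i _ => by ring)
    rw [this]
    positivity
  have hsumdot : 0 ≤ ∑ x, u x ⬝ᵥ u x := Finset.sum_nonneg (fun x _ => hdot x)
  have hη : 0 < η := by
    have : 0 < 1 + ∑ x, u x ⬝ᵥ u x := by linarith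
    positivity
  have hηu : ∀ x, η * (u x ⬝ᵥ u x) ≤ 1 := by
    intro x
    have h1 : u x ⬝ᵥ u x ≤ ∑ x, u x ⬝ᵥ u x :=
      Finset.single_le_sum (fun x _ => hdot x) (Finset.mem_univ x)
    have h2 : 0 < 1 + ∑ x, u x ⬝ᵥ u x := by linarith
    simp only [η]
    rw [one_div, ← div_eq_inv_mul, div_le_one h2]
    linarith
  obtain ⟨w, hw0, hw1, f, g, hfg, hg, hf⟩ := design hTpos (fun y : B2 => v y) hη
  -- rows with small weighted bad mass
  let wb : α → ℝ := fun x => ∑ y : B2, if Bd x y then w y else 0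
  have hwb0 : ∀ x, 0 ≤ wb x := fun x => Finset.sum_nonneg (fun y _ => by
    split_ifs
    · exact hw0 y
    · exact le_rfl)
  have hwb : ∑ x, p x * wb x ≤ (δ * P) * δ := by
    have h1 : ∑ x, p x * wb x = ∑ y : B2, w y * bp y := by
      simp only [wb, bp, Finset.mul_sum]
      rw [Finset.sum_comm]
      refine Finset.sum_congr rfl (fun y _ => Finset.sum_congr rfl (fun x _ => ?_))
      split_ifs
      · ring
      · simp
    rw [h1]
    calc ∑ y : B2, w y * bp y ≤ ∑ y : B2, w y * (δ ^ 2 * P) := by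
          refine Finset.sum_le_sum (fun y _ => ?_)
          exact mul_le_mul_of_nonneg_left (Finset.mem_filter.1 y.2).2.2 (hw0 y)
      _ = δ ^ 2 * P := by rw [← Finset.sum_mul, hw1, one_mul]
      _ = _ := by ring
  have hA2 := markov hp hwb0 hδ0 hwb
  let A3 : Finset α := Finset.univ.filter (fun x => bq x ≤ δ ^ 2 * Q ∧ wb x ≤ δ)
  have hA3c : ∑ x ∈ A3ᶜ, p x ≤ 2 * δ * P := by
    have hsub : A3ᶜ ⊆ (Finset.univ.filter (fun x => ¬ bq x ≤ δ ^ 2 * Q))
        ∪ (Finset.univ.filter (fun x => ¬ wb x ≤ δ)) := by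
      intro x hx
      rw [Finset.mem_union, Finset.mem_filter, Finset.mem_filter]
      by_contra hcon
      push Not at hcon
      have h1 := hcon.1 (Finset.mem_univ _)
      have h2 := hcon.2 (Finset.mem_univ _)
      rw [Finset.mem_compl] at hx
      exact hx (Finset.mem_filter.2 ⟨Finset.mem_univ _, h1, h2⟩)
    calc ∑ x ∈ A3ᶜ, p x ≤ ∑ x ∈ (Finset.univ.filter (fun x => ¬ bq x ≤ δ ^ 2 * Q))
          ∪ (Finset.univ.filter (fun x => ¬ wb x ≤ δ)), p x :=
          Finset.sum_le_sum_of_subset_of_nonneg hsub (fun x _ _ => hp x)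
      _ ≤ ∑ x ∈ Finset.univ.filter (fun x => ¬ bq x ≤ δ ^ 2 * Q), p x
          + ∑ x ∈ Finset.univ.filter (fun x => ¬ wb x ≤ δ), p x := by
          rw [← Finset.sum_union_inter]
          have : 0 ≤ ∑ x ∈ (Finset.univ.filter (fun x => ¬ bq x ≤ δ ^ 2 * Q))
              ∩ (Finset.univ.filter (fun x => ¬ wb x ≤ δ)), p x :=
            Finset.sum_nonneg (fun x _ => hp x)
          linarith
      _ ≤ δ ^ 2 * P + δ * P := add_le_add hA1 hA2
      _ ≤ 2 * δ * P := by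
          have : δ ^ 2 ≤ δ := by nlinarith
          nlinarith
  -- lengths of the row vectors
  have hlen : ∀ x ∈ A3, f (u x) ⬝ᵥ f (u x) ≤ (L : ℝ) ^ 20 := by
    intro x hx
    have hx' := (Finset.mem_filter.1 hx).2
    have hxA1 : x ∈ A1 := Finset.mem_filter.2 ⟨Finset.mem_univ _, hx'.1⟩
    rw [hf]
    have h1 : ∑ y : B2, w y * (u x ⬝ᵥ v y) ^ 2 ≤ ((L : ℝ) + 1) ^ 2 + ((L : ℝ) + 1) ^ 2 := by
      have h2 : ∀ y : B2, w y * (u x ⬝ᵥ v y) ^ 2 ≤ w y * ((L : ℝ) + 1) ^ 2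
          + (if Bd x y then w y else 0) * ((L : ℝ) ^ 16 * (L + 1)) ^ 2 := by
        intro y
        have e1 : u x ⬝ᵥ v y = N x y := (huv x y).symm
        rw [e1]
        by_cases hb : Bd x y
        · simp only [hb, if_true]
          have h3 := hbdd x hxA1 y y.2
          have h4 : (N x y) ^ 2 ≤ ((L : ℝ) ^ 16 * (L + 1)) ^ 2 := by
            rw [← sq_abs]
            exact pow_le_pow_left₀ (abs_nonneg _) h3 2
          have h5 := mul_le_mul_of_nonneg_left h4 (hw0 y)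
          have h6 : 0 ≤ w y * ((L : ℝ) + 1) ^ 2 := mul_nonneg (hw0 y) (by positivity)
          linarith
        · simp only [hb, if_false, zero_mul, add_zero]
          have h3 := hNb x y hb
          have h4 : (N x y) ^ 2 ≤ ((L : ℝ) + 1) ^ 2 := by
            rw [← sq_abs]
            exact pow_le_pow_left₀ (abs_nonneg _) h3 2
          exact mul_le_mul_of_nonneg_left h4 (hw0 y)
      calc ∑ y : B2, w y * (u x ⬝ᵥ v y) ^ 2
          ≤ ∑ y : B2, (w y * ((L : ℝ) + 1) ^ 2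
          + (if Bd x y then w y else 0) * ((L : ℝ) ^ 16 * (L + 1)) ^ 2) :=
            Finset.sum_le_sum (fun y _ => h2 y)
        _ = ((L : ℝ) + 1) ^ 2 + wb x * ((L : ℝ) ^ 16 * (L + 1)) ^ 2 := by
            rw [Finset.sum_add_distrib, ← Finset.sum_mul, ← Finset.sum_mul, hw1, one_mul]
        _ ≤ ((L : ℝ) + 1) ^ 2 + (1 / (L : ℝ) ^ 32) * ((L : ℝ) ^ 16 * (L + 1)) ^ 2 := by
            have := hx'.2.trans hδL
            have h5 := mul_le_mul_of_nonneg_right this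
              (show (0 : ℝ) ≤ ((L : ℝ) ^ 16 * (L + 1)) ^ 2 by positivity)
            linarith
        _ = _ := by field_simp
    have h7 : (T : ℝ) * (∑ y : B2, w y * (u x ⬝ᵥ v y) ^ 2 + η * (u x ⬝ᵥ u x))
        ≤ (L : ℝ) ^ 16 * (2 * ((L : ℝ) + 1) ^ 2 + 1) := by
      rw [hTr]
      refine mul_le_mul_of_nonneg_left ?_ (by positivity)
      linarith [hηu x]
    refine h7.trans ?_
    have h8 : 2 * ((L : ℝ) + 1) ^ 2 + 1 ≤ (L : ℝ) ^ 4 := by
      have h9 : (9 : ℝ) ≤ (L : ℝ) ^ 2 := by nlinarith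
      have h10 : 9 * (L : ℝ) ^ 2 ≤ (L : ℝ) ^ 4 := by
        have : (L : ℝ) ^ 4 = (L : ℝ) ^ 2 * (L : ℝ) ^ 2 := by ring
        rw [this]
        exact mul_le_mul_of_nonneg_right h9 (by positivity)
      nlinarith
    calc (L : ℝ) ^ 16 * (2 * ((L : ℝ) + 1) ^ 2 + 1) ≤ (L : ℝ) ^ 16 * (L : ℝ) ^ 4 :=
          mul_le_mul_of_nonneg_left h8 (by positivity)
      _ = (L : ℝ) ^ 20 := by ring
  let uu : α → Fin T → ℝ := fun x => (1 / (L : ℝ) ^ 10) • f (u x)
  refine ⟨T, A3, B2, uu, fun y => g (v y), ?_, ?_, ?_, fun y hy => hg ⟨y, hy⟩, ?_⟩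
  · have h4 : ∑ x ∈ A3, p x + ∑ x ∈ A3ᶜ, p x = P := Finset.sum_add_sum_compl A3 p
    linarith
  · have h4 : ∑ y ∈ B2, q y + ∑ y ∈ B2ᶜ, q y = Q := Finset.sum_add_sum_compl B2 q
    linarith
  · intro x hx
    simp only [uu, smul_dotProduct, dotProduct_smul, smul_eq_mul]
    have h1 := hlen x hx
    calc 1 / (L : ℝ) ^ 10 * (1 / (L : ℝ) ^ 10 * (f (u x) ⬝ᵥ f (u x)))
        = (f (u x) ⬝ᵥ f (u x)) / (L : ℝ) ^ 20 := by field_simp
      _ ≤ 1 := by rw [div_le_one (by positivity)]; exact h1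
  · intro x y
    simp only [uu, smul_dotProduct, smul_eq_mul, hfg]
    have : u x ⬝ᵥ v y = N x y := (huv x y).symm
    rw [this]; ring

/-- The conclusion of the tilting lemma. -/
def Tilted (L : ℕ) (N : α → β → ℝ) (p : α → ℝ) (q : β → ℝ) (d : ℝ) : Prop :=
  ∃ (Ω : Type) (_ : Fintype Ω) (_ : Nonempty Ω) (F : Ω → α → ℝ) (G : Ω → β → ℝ),
    (∀ w x, 0 ≤ F w x ∧ F w x ≤ 1) ∧ (∀ w y, 0 ≤ G w y ∧ G w y ≤ 1) ∧
    (∀ S : α → β → Prop, ∑ w, mass (fun x => p x * F w x) (fun y => q y * G w y) S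
      ≤ (Fintype.card Ω * (1 / 2 : ℝ) ^ (L ^ 13)) * mass p q S) ∧
    (∀ S : α → β → Prop, (∀ x y, S x y → -(1 / (L : ℝ)) ≤ N x y) →
      ∑ w, mass (fun x => p x * F w x) (fun y => q y * G w y) S
      ≤ (Fintype.card Ω * (4 * (1 / 4 : ℝ) ^ (L ^ 13))) * mass p q S) ∧
    (∀ S : α → β → Prop, (∀ x y, S x y → 1 ≤ N x y) →
      ∑ w, mass (fun x => p x * F w x) (fun y => q y * G w y) S
      ≤ (Fintype.card Ω * ((4 * Real.exp (-(L : ℝ))) * (1 / 4 : ℝ) ^ (L ^ 13))) * mass p q S) ∧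
    (∀ S : α → β → Prop, (∀ x y, S x y → N x y ≤ 0) →
      (Fintype.card Ω * (1 / 2 * (1 / 4 : ℝ) ^ (L ^ 13))) *
        (mass p q S - d * ((∑ x, p x) * (∑ y, q y)))
      ≤ ∑ w, mass (fun x => p x * F w x) (fun y => q y * G w y) S)

theorem tilt_lemma {L : ℕ} (hL3 : 3 ≤ L) (hLk : 4 * kap ≤ L) {m : ℕ} (hm : 32 ≤ m)
    {R : ℕ} (hR : R ≤ L ^ 16) {N : α → β → ℝ} (hN : HasRank R N)
    {p : α → ℝ} {q : β → ℝ} (hp : ∀ x, 0 ≤ p x) (hq : ∀ y, 0 ≤ q y)
    (Bd : α → β → Prop) (hNb : ∀ x y, ¬ Bd x y → |N x y| ≤ L + 1)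
    (hBd : mass p q Bd * ((L : ℝ) ^ m) ^ 4 ≤ (∑ x, p x) * (∑ y, q y)) :
    Tilted L N p q (3 / (L : ℝ) ^ m) := by
  classical
  set P := ∑ x, p x with hP
  set Q := ∑ y, q y with hQ
  have hP0 : 0 ≤ P := Finset.sum_nonneg (fun x _ => hp x)
  have hQ0 : 0 ≤ Q := Finset.sum_nonneg (fun y _ => hq y)
  have h3 : (3 : ℝ) ≤ L := by exact_mod_cast hL3
  have hL0 : (0 : ℝ) < L := by linarith
  have hL1 : (1 : ℝ) ≤ L := by linarith
  -- trivial case
  by_cases hPQ : P * Q = 0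
  · refine ⟨Unit, inferInstance, inferInstance, fun _ _ => 0, fun _ _ => 0, by simp, by simp, ?_⟩
    have hz : ∀ S : α → β → Prop, ∑ w : Unit, mass (fun x => p x * 0) (fun y => q y * 0) S = 0 := by
      intro S; simp [mass]
    have hnn : ∀ S : α → β → Prop, 0 ≤ mass p q S := fun S => mass_nonneg hp hq S
    refine ⟨fun S => ?_, fun S _ => ?_, fun S _ => ?_, fun S _ => ?_⟩
    · rw [hz]; exact mul_nonneg (by positivity) (hnn S)
    · rw [hz]; exact mul_nonneg (by positivity) (hnn S)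
    · rw [hz]; exact mul_nonneg (by positivity) (hnn S)
    · rw [hz, ← hP, ← hQ, hPQ]
      have h1 : mass p q S = 0 := by
        have := mass_le_total hp hq S
        rw [← hP, ← hQ, hPQ] at this
        exact le_antisymm this (hnn S)
      rw [h1]; simp
  obtain ⟨T, A3, B2, uu, vv, hA3, hB2, huu, hvv, huv'⟩ :=
    factor_lemma hL3 hm hR hN hp hq hPQ Bd hNb hBd
  rw [← hP] at hA3
  rw [← hQ] at hB2
  let F : (Fin (L ^ 13) → Fin T → Bool) → α → ℝ := fun ω x =>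
    if x ∈ A3 then FF (L : ℝ) ω (uu x) else 0
  let G : (Fin (L ^ 13) → Fin T → Bool) → β → ℝ := fun ω y =>
    if y ∈ B2 then GG (L : ℝ) ω (vv y) else 0
  have hcard : (Fintype.card (Fin (L ^ 13) → Fin T → Bool) : ℝ) = ((2 : ℝ) ^ T) ^ (L ^ 13) := by
    simp
  have hcardpos : (0 : ℝ) < Fintype.card (Fin (L ^ 13) → Fin T → Bool) := by
    rw [hcard]; positivity
  -- the pointwise average
  have hW : ∀ x ∈ A3, ∀ y ∈ B2, ∃ e : ℝ, |e| ≤ kap / (L : ℝ) ^ 14 ∧
      |N x y / (L : ℝ) ^ 12| ≤ 1 / (L : ℝ) ^ 2 ∧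
      ∑ ω, F ω x * G ω y = Fintype.card (Fin (L ^ 13) → Fin T → Bool) *
        ((1 - N x y / (L : ℝ) ^ 12 - e) / 4) ^ (L ^ 13) := by
    intro x hx y hy
    obtain ⟨e, he, hs⟩ := sum_FF_GG (t := L ^ 13) (uu x) (vv y) (huu x hx) (hvv y hy) hL0
    refine ⟨e, he, ?_, ?_⟩
    · have h1 : (uu x ⬝ᵥ vv y) ^ 2 ≤ 1 := by
        have cs : (uu x ⬝ᵥ vv y) ^ 2 ≤ (uu x ⬝ᵥ uu x) * (vv y ⬝ᵥ vv y) := by
          have := Finset.sum_mul_sq_le_sq_mul_sq Finset.univ (uu x) (vv y)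
          simpa [dotProduct, sq] using this
        have hnn : 0 ≤ vv y ⬝ᵥ vv y := by
          have : vv y ⬝ᵥ vv y = ∑ i, vv y i ^ 2 :=
            Finset.sum_congr rfl (fun i _ => by ring)
          rw [this]; positivity
        calc _ ≤ (uu x ⬝ᵥ uu x) * (vv y ⬝ᵥ vv y) := cs
          _ ≤ 1 * 1 := mul_le_mul (huu x hx) (hvv y hy) hnn (by norm_num)
          _ = 1 := one_mul 1
      have h2 : |uu x ⬝ᵥ vv y| ≤ 1 := by
        rwa [← sq_le_one_iff_abs_le_one]
      rw [huv'] at h2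
      have h3 : N x y / (L : ℝ) ^ 12 = (N x y / (L : ℝ) ^ 10) * (1 / (L : ℝ) ^ 2) := by
        field_simp
      rw [h3, abs_mul, abs_of_pos (show (0 : ℝ) < 1 / (L : ℝ) ^ 2 by positivity)]
      calc _ ≤ 1 * (1 / (L : ℝ) ^ 2) := mul_le_mul_of_nonneg_right h2 (by positivity)
        _ = _ := one_mul _
    · have h4 : ∀ ω, F ω x * G ω y = FF (L : ℝ) ω (uu x) * GG (L : ℝ) ω (vv y) := by
        intro ω; simp only [F, G, hx, hy, if_true]
      rw [Finset.sum_congr rfl (fun ω _ => h4 ω), hs, hcard, huv']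
      congr 4
      field_simp
  have hW0 : ∀ x y, (x ∉ A3 ∨ y ∉ B2) → ∑ ω, F ω x * G ω y = 0 := by
    intro x y h
    refine Finset.sum_eq_zero (fun ω _ => ?_)
    rcases h with h | h
    · simp only [F, h, if_false, zero_mul]
    · simp only [G, h, if_false, mul_zero]
  have hWle : ∀ x y c, 0 ≤ c → (x ∈ A3 → y ∈ B2 → ∑ ω, F ω x * G ω y ≤ c) →
      ∑ ω, F ω x * G ω y ≤ c := by
    intro x y c hc h
    by_cases hx : x ∈ A3
    · by_cases hy : y ∈ B2
      · exact h hx hy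
      · rw [hW0 x y (Or.inr hy)]; exact hc
    · rw [hW0 x y (Or.inl hx)]; exact hc
  refine ⟨_, inferInstance, inferInstance, F, G, ?_, ?_, ?_, ?_, ?_, ?_⟩
  · intro ω x
    simp only [F]
    split_ifs
    · exact ⟨FF_nonneg _ _ _, FF_le_one _ _ _⟩
    · exact ⟨le_rfl, zero_le_one⟩
  · intro ω y
    simp only [G]
    split_ifs
    · exact ⟨GG_nonneg _ _ _, GG_le_one _ _ _⟩
    · exact ⟨le_rfl, zero_le_one⟩
  · intro S
    refine sum_mass_le hp hq F G S _ (fun x y _ => hWle x y _ (by positivity) (fun hx hy => ?_))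
    obtain ⟨e, he, hz', hs⟩ := hW x hx y hy
    rw [hs]
    refine mul_le_mul_of_nonneg_left ?_ hcardpos.le
    have := num0 hL3 hLk hz' he
    exact pow_le_pow_left₀ this.1 this.2 _
  · intro S hS
    refine sum_mass_le hp hq F G S _ (fun x y hxy => hWle x y _ (by positivity) (fun hx hy => ?_))
    obtain ⟨e, he, hz', hs⟩ := hW x hx y hy
    rw [hs]
    refine mul_le_mul_of_nonneg_left ?_ hcardpos.le
    refine num1 hL3 hLk hz' he ?_
    have h1 := hS x y hxy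
    rw [neg_le_iff_add_nonneg] at h1 ⊢
    have : N x y / (L : ℝ) ^ 12 + 1 / (L : ℝ) ^ 13 = (N x y + 1 / L) / (L : ℝ) ^ 12 := by
      field_simp
    rw [this]
    positivity
  · intro S hS
    refine sum_mass_le hp hq F G S _ (fun x y hxy => hWle x y _ (by positivity) (fun hx hy => ?_))
    obtain ⟨e, he, hz', hs⟩ := hW x hx y hy
    rw [hs]
    refine mul_le_mul_of_nonneg_left ?_ hcardpos.le
    refine num2 hL3 hLk hz' he ?_
    exact div_le_div_of_nonneg_right (hS x y hxy) (by positivity)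
  · intro S hS
    have h1 : mass p q S - 3 / (L : ℝ) ^ m * (P * Q)
        ≤ mass p q (fun x y => S x y ∧ x ∈ A3 ∧ y ∈ B2) := by
      have h2 := mass_restrict hp hq S A3 B2
      rw [← hP, ← hQ] at h2
      have hA3s : ∑ x ∈ A3, p x + ∑ x ∈ A3ᶜ, p x = P := Finset.sum_add_sum_compl A3 p
      have hB2s : ∑ y ∈ B2, q y + ∑ y ∈ B2ᶜ, q y = Q := Finset.sum_add_sum_compl B2 q
      have h3' : (∑ x ∈ A3ᶜ, p x) * Q ≤ (2 * (1 / (L : ℝ) ^ m) * P) * Q :=
        mul_le_mul_of_nonneg_right (by linarith) hQ0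
      have h4 : P * (∑ y ∈ B2ᶜ, q y) ≤ P * ((1 / (L : ℝ) ^ m) * Q) :=
        mul_le_mul_of_nonneg_left (by linarith) hP0
      have h5 : 3 / (L : ℝ) ^ m * (P * Q) = 3 * (1 / (L : ℝ) ^ m) * (P * Q) := by ring
      rw [h5]
      linarith
    calc _ ≤ (Fintype.card (Fin (L ^ 13) → Fin T → Bool) * (1 / 2 * (1 / 4 : ℝ) ^ (L ^ 13))) *
          mass p q (fun x y => S x y ∧ x ∈ A3 ∧ y ∈ B2) :=
          mul_le_mul_of_nonneg_left h1 (by positivity)
      _ ≤ ∑ w, mass (fun x => p x * F w x) (fun y => q y * G w y)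
            (fun x y => S x y ∧ x ∈ A3 ∧ y ∈ B2) := by
          refine le_sum_mass hp hq F G _ _ (fun x y hxy => ?_)
          obtain ⟨e, he, hz', hs⟩ := hW x hxy.2.1 y hxy.2.2
          rw [hs]
          refine mul_le_mul_of_nonneg_left ?_ hcardpos.le
          refine num3 hL3 hLk hz' he ?_
          exact div_nonpos_of_nonpos_of_nonneg (hS x y hxy.1) (by positivity)
      _ ≤ _ := by
          refine Finset.sum_le_sum (fun ω _ => ?_)
          refine mass_mono ?_ ?_ (fun x y h => h.1)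
          · intro x
            refine mul_nonneg (hp x) ?_
            simp only [F]
            split_ifs
            · exact FF_nonneg _ _ _
            · exact le_rfl
          · intro y
            refine mul_nonneg (hq y) ?_
            simp only [G]
            split_ifs
            · exact GG_nonneg _ _ _
            · exact le_rfl

end tilt

end Pool.Agent.Lib.MP_ba5def_co
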